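import Pool.Agent.MP_d9582c_gt.H34.Stmts3

/-!
Operators on `L²` forms given by operators on smooth forms; the `L²` de Rham complex as a `Cx`.
-/

open scoped Manifold ContDiff ComplexConjugate Topology ENNReal Pointwise InnerProductSpace
open MeasureTheory Set Filter UniformSpace

noncomputable section

namespace Pool.Agent.MP_d9582c_gt.H34

universe u v

section Compl

variable {P B : Type*} [SeminormedAddCommGroup P] [NormedSpace ℂ P] [NormedAddCommGroup B]
  [NormedSpace ℂ B]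

lemma compl_ext {T T' : Completion P →L[ℂ] B} (h : ∀ η : P, T η = T' η) : T = T' :=
  ContinuousLinearMap.ext fun u => Completion.induction_on u (isClosed_eq T.cont T'.cont) h

lemma compl_le {B' : Type*} [NormedAddCommGroup B'] [NormedSpace ℂ B'] {T : Completion P →L[ℂ] B}
    {T' : Completion P →L[ℂ] B'} {c : ℝ} (h : ∀ η : P, ‖T η‖ ≤ c * ‖T' η‖) (u : Completion P) :
    ‖T u‖ ≤ c * ‖T' u‖ :=
  Completion.induction_on u (isClosed_le (by fun_prop) (by fun_prop)) h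

omit [NormedSpace ℂ P] in
lemma norm_le_of_enorm_sq {A : Type*} [SeminormedAddCommGroup A] {a : A} {b : P} {c : ℝ}
    (hc : 0 ≤ c) (h : ‖a‖ₑ ^ 2 ≤ ENNReal.ofReal (c ^ 2) * ‖b‖ₑ ^ 2) : ‖a‖ ≤ c * ‖b‖ := by
  rw [ENNReal.ofReal_pow hc, ← mul_pow, ENNReal.pow_le_pow_left_iff two_ne_zero, ← ofReal_norm,
    ← ofReal_norm, ← ENNReal.ofReal_mul hc] at h
  exact (ENNReal.ofReal_le_ofReal_iff (by positivity)).1 h

variable [CompleteSpace B]

/-- Extension of a bounded linear map to the completion. -/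
def cext (T : P →ₗ[ℂ] B) (c : ℝ) (h : ∀ η, ‖T η‖ ≤ c * ‖η‖) : Completion P →L[ℂ] B :=
  (T.mkContinuous c h).fromCompletion

@[simp] lemma cext_coe (T : P →ₗ[ℂ] B) (c : ℝ) (h : ∀ η, ‖T η‖ ≤ c * ‖η‖) (η : P) :
    cext T c h η = T η := ContinuousLinearMap.fromCompletion_apply_coe _ _

lemma norm_cext_le (T : P →ₗ[ℂ] B) {c : ℝ} (hc : 0 ≤ c) (h : ∀ η, ‖T η‖ ≤ c * ‖η‖) :
    ‖cext T c h‖ ≤ c :=
  ContinuousLinearMap.opNorm_le_bound _ hc
    (compl_le (T := cext T c h) (T' := ContinuousLinearMap.id ℂ _) (c := c)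
      fun η => by simpa using h η)

end Compl

variable {n p p' : ℕ} {M : Type u} [TopologicalSpace M] [ChartedSpace (E n) M]
  {G : Type v} [Group G] [MulAction G M] [IsManifold 𝓘(ℝ, E n) ∞ M] [MeasurableSpace M]

/-- A normal subgroup together with a fundamental domain. -/
structure FD (X : Geo n G M) where
  N : Subgroup G
  normal : N.Normal
  F : Set M
  fd : IsFundamentalDomain N F X.μ

attribute [instance] FD.normal

variable {X : Geo n G M}

namespace FD

variable (D D' : FD X)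

/-- The squared `L²` norm of a form. -/
def nrm (η : M → Alt n p) : ℝ≥0∞ := ∫⁻ x in D.F, ENNReal.ofReal (nsq X.g x (η x)) ∂X.μ

/-- Invariance of a form. -/
def Inv (η : M → Alt n p) : Prop := ∀ γ ∈ D.N, tr γ η = η

lemma Inv.nsq {D : FD X} {η : M → Alt n p} (h : D.Inv η) {γ : G} (hγ : γ ∈ D.N) (x : M) :
    nsq X.g (γ • x) (η (γ • x)) = nsq X.g x (η x) := by
  have := X.nsq_tr γ⁻¹ η x
  rwa [h _ (D.N.inv_mem hγ), inv_inv, eq_comm] at this

lemma Inv.ip {D : FD X} {η ξ : M → Alt n p} (h : D.Inv η) (h' : D.Inv ξ) {γ : G} (hγ : γ ∈ D.N)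
    (x : M) : ip X.g (γ • x) (η (γ • x)) (ξ (γ • x)) = ip X.g x (η x) (ξ x) := by
  have := X.ip_tr γ⁻¹ η ξ x
  rwa [h _ (D.N.inv_mem hγ), h' _ (D.N.inv_mem hγ), inv_inv, eq_comm] at this

lemma Inv.tr {D : FD X} {η : M → Alt n p} (h : D.Inv η) (γ : G) : D.Inv (tr γ η) := fun ν hν => by
  rw [← X.tr_mul, show ν * γ = γ * (γ⁻¹ * ν * γ) by group, X.tr_mul,
    h _ (D.normal.conj_mem' ν hν γ)]

lemma nrm_mono {D' : FD X} {η : M → Alt n p} {ξ : M → Alt n p'} {c : ℝ} (hc : 0 ≤ c)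
    (h : ∀ x, nsq X.g x (η x) ≤ c * nsq X.g x (ξ x)) :
    D'.nrm η ≤ ENNReal.ofReal c * D'.nrm ξ := by
  rw [nrm, nrm, ← lintegral_const_mul' _ _ ENNReal.ofReal_ne_top]
  refine lintegral_mono fun x => ?_
  rw [← ENNReal.ofReal_mul hc]
  exact ENNReal.ofReal_le_ofReal (h x)

variable (X) in
include X in
lemma measEmb (γ : G) : MeasurableEmbedding fun x : M => γ • x :=
  have := X.measConst
  measurableEmbedding_const_smul γ

lemma setLIntegral_smul (γ : G) (f : M → ℝ≥0∞) (A : Set M) :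
    ∫⁻ x in {x | γ • x ∈ A}, f (γ • x) ∂X.μ = ∫⁻ x in A, f x ∂X.μ :=
  (X.mp γ).setLIntegral_comp_preimage_emb (measEmb X γ) f A

lemma setIntegral_smul (γ : G) (f : M → ℂ) (A : Set M) :
    ∫ x in {x | γ • x ∈ A}, f (γ • x) ∂X.μ = ∫ x in A, f x ∂X.μ :=
  (X.mp γ).setIntegral_preimage_emb (measEmb X γ) f A

variable [Countable G]

lemma lintegral_smul {f : M → ℝ≥0∞} (hf : ∀ γ ∈ D.N, ∀ x, f (γ • x) = f x) (γ : G) :
    ∫⁻ x in D.F, f (γ • x) ∂X.μ = ∫⁻ x in D.F, f x ∂X.μ := by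
  have := X.measConst
  have := X.smulInv
  have h : IsFundamentalDomain D.N {x | γ • x ∈ D.F} X.μ :=
    D.fd.preimage_of_equiv (X.mp γ).quasiMeasurePreserving
      (e := (MulAut.conjNormal γ⁻¹ : MulAut D.N)) (MulEquiv.bijective _) fun ν x => by
        simp [Subgroup.smul_def, mul_smul]
  rw [← setLIntegral_smul γ f D.F]
  refine D.fd.setLIntegral_eq h _ fun ν x => ?_
  rw [Subgroup.smul_def, smul_smul, show γ * ν = γ * ν * γ⁻¹ * γ by group, mul_smul,
    hf _ (D.normal.conj_mem _ ν.2 γ)]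

lemma nrm_tr {η : M → Alt n p} (h : D.Inv η) (γ : G) : D.nrm (tr γ η) = D.nrm η := by
  simp only [nrm, X.nsq_tr]
  exact D.lintegral_smul (f := fun x => ENNReal.ofReal (nsq X.g x (η x)))
    (fun ν hν x => by rw [h.nsq hν]) γ⁻¹

instance : Countable (G ⧸ D.N) := QuotientGroup.mk_surjective.countable

variable [BorelSpace M]

/-- Unfolding of the integral of an invariant function supported in the saturation of `U a`. -/
lemma lintegral_V (a : Fin X.m) {f : M → ℝ≥0∞} (hf : ∀ γ ∈ D.N, ∀ x, f (γ • x) = f x)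
    (h0 : ∀ x ∉ X.V a, f x = 0) :
    ∫⁻ x in D.F, f x ∂X.μ = ∑' q : G ⧸ D.N, ∫⁻ x in X.U a, f (q.out • x) ∂X.μ := by
  have hm : ∀ q : G ⧸ D.N, MeasurableSet {x : M | q.out⁻¹ • x ∈ X.U a} :=
    fun q => (Geo.isOpen_tr _ a).measurableSet
  rw [X.lintegral_unfold D.fd (MeasurableSet.iUnion hm) ?_ hf ?_, lintegral_iUnion hm]
  · refine tsum_congr fun q => ?_
    rw [← setLIntegral_smul q.out⁻¹ (fun x => f (q.out • x))]
    simp
  · intro q q' hq
    refine disjoint_left.2 fun x hx hx' => hq ?_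
    rw [← QuotientGroup.out_eq' q, ← QuotientGroup.out_eq' q', ← Geo.idx_eq hx, ← Geo.idx_eq hx']
  · intro γ hγ x hx hx'
    obtain ⟨q, hq⟩ := mem_iUnion.1 hx
    obtain ⟨q', hq'⟩ := mem_iUnion.1 hx'
    have h1 := Geo.idx_eq hq'
    rw [Geo.idx_smul ⟨_, hq⟩, Geo.idx_eq hq] at h1
    have h2 : q = q' := by
      rw [← QuotientGroup.out_eq' q, ← QuotientGroup.out_eq' q', ← h1, QuotientGroup.eq]
      simpa [mul_assoc] using D.normal.conj_mem' γ hγ q.out
    rwa [← h2, mul_eq_right] at h1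
  · intro x hx
    refine h0 x fun ⟨γ, hγ⟩ => ?_
    obtain ⟨ν, hν⟩ := QuotientGroup.mk_out_eq_mul D.N γ
    refine hx (γ * ν * γ⁻¹) (D.normal.conj_mem _ ν.2 γ) (mem_iUnion.2 ⟨γ, ?_⟩)
    simpa [hν, mul_smul] using hγ

omit [Countable G]

/-- Smooth square integrable invariant forms. -/
abbrev P (p : ℕ) := Pre X.g X.μ D.N D.F p

/-- `L²` forms. -/
abbrev H (p : ℕ) := HL X.g X.μ D.N D.F p

/-- The graph of the closure of `d`. -/
abbrev Gr (p : ℕ) := graphD X.g X.μ D.N D.F p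

variable {D D'}

lemma P.smooth (η : D.P p) (x : M) : SmoothAt η.1 x := η.2.1 x

lemma P.inv (η : D.P p) : D.Inv η.1 := fun _ hγ => η.2.2.1 _ (D.N.inv_mem hγ)

lemma measurable_nsq {η : M → Alt n p} (h : ∀ x, SmoothAt η x) :
    Measurable fun x => ENNReal.ofReal (nsq X.g x (η x)) :=
  (continuous_iff_continuousAt.2 fun x => continuousAt_nsq X.g (h x)).measurable.ennreal_ofReal

lemma P.inner_eq (η ξ : D.P p) : ⟪η, ξ⟫_ℂ = ∫ x in D.F, ip X.g x (η.1 x) (ξ.1 x) ∂X.μ := rfl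

lemma P.enorm_sq (η : D.P p) : ‖η‖ₑ ^ 2 = D.nrm η.1 := by
  have h : Integrable (fun x => nsq X.g x (η.1 x)) (X.μ.restrict D.F) := by
    simpa [ip_self] using η.2.2.2.re
  rw [← ofReal_norm, ← ENNReal.ofReal_pow (norm_nonneg _), @norm_sq_eq_re_inner ℂ, P.inner_eq, nrm,
    ← ofReal_integral_eq_lintegral_ofReal h (Eventually.of_forall fun x => nsq_nonneg _ _ _)]
  simp only [ip_self, integral_complex_ofReal]
  rfl

lemma P.enorm_coe_sq (η : D.P p) : ‖(η : D.H p)‖ₑ ^ 2 = D.nrm η.1 := by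
  rw [← P.enorm_sq, ← ofReal_norm, Completion.norm_coe, ofReal_norm]

lemma P.nrm_ne_top (η : D.P p) : D.nrm η.1 ≠ ⊤ := by
  rw [← P.enorm_sq]; finiteness

/-- Constructor for smooth square integrable forms. -/
def P.mk (η : M → Alt n p) (hs : ∀ x, SmoothAt η x) (hi : D.Inv η) (hn : D.nrm η ≠ ⊤) : D.P p :=
  ⟨η, hs, fun γ hγ => by simpa [tr] using hi _ (D.N.inv_mem hγ), by
    simp only [ip_self]
    exact Integrable.ofReal (f := fun x => nsq X.g x (η x)) ⟨(continuous_iff_continuousAt.2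
      fun x => continuousAt_nsq X.g (hs x)).aestronglyMeasurable,
      (hasFiniteIntegral_iff_ofReal (Eventually.of_forall fun x => nsq_nonneg _ _ _)).2 hn.lt_top⟩⟩

@[simp] lemma P.mk_val (η : M → Alt n p) (hs hi hn) : (P.mk (D := D) η hs hi hn).1 = η := rfl

/-- The underlying form. -/
def P.val : D.P p →ₗ[ℂ] M → Alt n p := (l2Forms X.g X.μ D.N D.F p).subtype

@[simp] lemma P.val_apply (η : D.P p) : P.val η = η.1 := rfl

lemma P.coe_add (η ξ : D.P p) : ((η + ξ : D.P p) : D.H p) = η + ξ := Completion.coe_add _ _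

lemma P.coe_sub (η ξ : D.P p) : ((η - ξ : D.P p) : D.H p) = η - ξ := Completion.coe_sub _ _

lemma P.coe_smul (c : ℂ) (η : D.P p) : ((c • η : D.P p) : D.H p) = c • (η : D.H p) :=
  Completion.coe_smul _ _

lemma P.coe_sum {ι : Type*} (s : Finset ι) (η : ι → D.P p) :
    ((∑ i ∈ s, η i : D.P p) : D.H p) = ∑ i ∈ s, (η i : D.H p) :=
  map_sum (Completion.toComplL : D.P p →L[ℂ] D.H p) η s

lemma P.val_sum {ι : Type*} (s : Finset ι) (η : ι → D.P p) :
    (∑ i ∈ s, η i : D.P p).1 = ∑ i ∈ s, (η i).1 := map_sum P.val η s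

lemma P.coe_congr {η ξ : D.P p} (h : η.1 = ξ.1) : (η : D.H p) = ξ := by rw [Subtype.ext h]

lemma closed_Gr : IsClosed (D.Gr p : Set (D.H p × D.H (p + 1))) :=
  Submodule.isClosed_topologicalClosure _

lemma mem_Gr {η : D.P p} {ξ : D.P (p + 1)} (h : ξ.1 = extD η.1) :
    ((η : D.H p), (ξ : D.H (p + 1))) ∈ D.Gr p :=
  Submodule.le_topologicalClosure _ (Submodule.subset_span ⟨η, ξ, h, rfl⟩)

/-- A closed property of the graph of `d` can be checked on smooth forms. -/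
lemma Gr_ind {R : D.H p → D.H (p + 1) → Prop} (hc : IsClosed {z : D.H p × _ | R z.1 z.2})
    (h : ∀ (η : D.P p) (ξ : D.P (p + 1)), ξ.1 = extD η.1 → R η ξ) {u : D.H p} {a : D.H (p + 1)}
    (hu : (u, a) ∈ D.Gr p) : R u a := by
  refine closure_minimal (fun z hz => ?_) hc hu
  have : ∃ (η : D.P p) (ξ : D.P (p + 1)), ξ.1 = extD η.1 ∧ z = ((η : D.H p), (ξ : D.H (p + 1))) := by
    induction hz using Submodule.span_induction with
    | mem z hz => exact hz
    | zero => exact ⟨0, 0, (funext extD_zero).symm, rfl⟩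
    | add z z' _ _ h h' =>
      obtain ⟨η, ξ, h, rfl⟩ := h
      obtain ⟨η', ξ', h', rfl⟩ := h'
      refine ⟨η + η', ξ + ξ', funext fun x => ?_, by rw [P.coe_add, P.coe_add]; rfl⟩
      exact (congrArg₂ (· + ·) (congrFun h x) (congrFun h' x)).trans
        (extD_add (η.smooth x) (η'.smooth x)).symm
    | smul c z _ h =>
      obtain ⟨η, ξ, h, rfl⟩ := h
      refine ⟨c • η, c • ξ, funext fun x => ?_, by rw [P.coe_smul, P.coe_smul]; rfl⟩
      exact (congrArg (c • ·) (congrFun h x)).trans (extD_smul (η.smooth x) c).symm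
  obtain ⟨η, ξ, hξ, rfl⟩ := this
  exact h η ξ hξ

end FD

variable [BorelSpace M]

/-- A bounded operator on smooth square integrable forms. -/
structure Op (D : FD X) (p : ℕ) (D' : FD X) (p' : ℕ) (c : ℝ) where
  T : D.P p →ₗ[ℂ] M → Alt n p'
  c_nonneg : 0 ≤ c
  smooth : ∀ η x, SmoothAt (T η) x
  inv : ∀ η, D'.Inv (T η)
  bound : ∀ η, D'.nrm (T η) ≤ ENNReal.ofReal (c ^ 2) * D.nrm η.1

namespace Op

variable {D D' : FD X} {c : ℝ} (A : Op D p D' p' c)

/-- The operator on the pre-Hilbert spaces. -/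
def pre : D.P p →ₗ[ℂ] D'.P p' where
  toFun η := FD.P.mk (A.T η) (A.smooth η) (A.inv η)
    (ne_top_of_le_ne_top (ENNReal.mul_ne_top ENNReal.ofReal_ne_top η.nrm_ne_top) (A.bound η))
  map_add' η ξ := Subtype.ext (A.T.map_add η ξ)
  map_smul' c η := Subtype.ext (A.T.map_smul c η)

@[simp] lemma pre_val (η : D.P p) : (A.pre η).1 = A.T η := rfl

lemma norm_pre_le (η : D.P p) : ‖A.pre η‖ ≤ c * ‖η‖ :=
  norm_le_of_enorm_sq A.c_nonneg (by rw [FD.P.enorm_sq, FD.P.enorm_sq]; exact A.bound η)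

/-- The operator on the Hilbert spaces. -/
def clm : D.H p →L[ℂ] D'.H p' := (A.pre.mkContinuous c A.norm_pre_le).completion

@[simp] lemma clm_coe (η : D.P p) : A.clm η = A.pre η :=
  ContinuousLinearMap.completion_apply_coe _ _

lemma norm_clm_le : ‖A.clm‖ ≤ c :=
  ContinuousLinearMap.opNorm_le_bound _ A.c_nonneg
    (compl_le (T := A.clm) (T' := ContinuousLinearMap.id ℂ _) (c := c)
      fun η => by simpa using A.norm_pre_le η)

end Op

namespace FD

variable [Countable G] (D : FD X)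

/-- Translation as an operator. -/
def trOp (p : ℕ) (γ : G) : Op D p D p 1 where
  T := { toFun := fun η => tr γ η.1, map_add' := fun _ _ => rfl, map_smul' := fun _ _ => rfl }
  c_nonneg := zero_le_one
  smooth η _ := X.smoothAt_tr γ (η.smooth _)
  inv η := η.inv.tr γ
  bound η := by simpa using (D.nrm_tr η.inv γ).le

lemma trOp_mul (γ γ' : G) (u : D.H p) :
    (D.trOp p (γ * γ')).clm u = (D.trOp p γ).clm ((D.trOp p γ').clm u) :=
  DFunLike.congr_fun (compl_ext (T' := (D.trOp p γ).clm ∘L (D.trOp p γ').clm) fun η => by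
    simp only [ContinuousLinearMap.comp_apply, Op.clm_coe]
    exact P.coe_congr (X.tr_mul γ γ' η.1)) u

lemma trOp_of_mem {γ : G} (hγ : γ ∈ D.N) (u : D.H p) : (D.trOp p γ).clm u = u :=
  DFunLike.congr_fun (compl_ext (T' := ContinuousLinearMap.id ℂ _) fun η => by
    rw [Op.clm_coe]
    exact P.coe_congr (P.inv η γ hγ)) u

lemma norm_trOp_le (γ : G) (u : D.H p) : ‖(D.trOp p γ).clm u‖ ≤ ‖u‖ := by
  simpa using (D.trOp p γ).clm.le_of_opNorm_le (D.trOp p γ).norm_clm_le u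

/-- The unitary representation of `G`. -/
def repG (p : ℕ) : URep G (D.H p) where
  toFun γ :=
    { toLinearMap := (D.trOp p γ).clm.toLinearMap
      invFun := (D.trOp p γ⁻¹).clm
      left_inv u := by
        change (D.trOp p γ⁻¹).clm ((D.trOp p γ).clm u) = u
        rw [← trOp_mul, inv_mul_cancel, D.trOp_of_mem D.N.one_mem]
      right_inv u := by
        change (D.trOp p γ).clm ((D.trOp p γ⁻¹).clm u) = u
        rw [← trOp_mul, mul_inv_cancel, D.trOp_of_mem D.N.one_mem]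
      norm_map' u := le_antisymm (D.norm_trOp_le γ u) (by
        have := D.norm_trOp_le γ⁻¹ ((D.trOp p γ).clm u)
        rwa [← trOp_mul, inv_mul_cancel, D.trOp_of_mem D.N.one_mem] at this) }
  map_one' := LinearIsometryEquiv.ext fun u => D.trOp_of_mem D.N.one_mem u
  map_mul' γ γ' := LinearIsometryEquiv.ext fun u => D.trOp_mul γ γ' u

/-- The unitary representation of `G / N`. -/
def rep (p : ℕ) : URep (G ⧸ D.N) (D.H p) :=
  QuotientGroup.lift D.N (D.repG p) fun _ hγ => LinearIsometryEquiv.ext (D.trOp_of_mem hγ)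

lemma rep_mk (γ : G) (u : D.H p) : D.rep p (γ : G ⧸ D.N) u = (D.trOp p γ).clm u := rfl

lemma rep_coe (γ : G) (η : D.P p) : D.rep p (γ : G ⧸ D.N) η = (D.trOp p γ).pre η :=
  Op.clm_coe _ η

lemma rep_out (q : G ⧸ D.N) (η : D.P p) : D.rep p q η = (D.trOp p q.out).pre η := by
  rw [← rep_coe, QuotientGroup.out_eq']

@[simp] lemma trOp_T (γ : G) (η : D.P p) : (D.trOp p γ).T η = tr γ η.1 := rfl

lemma act_eq (q : G ⧸ D.N) : act X.g X.μ D.N D.F p q.out = D.rep p q := by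
  conv_rhs => rw [← QuotientGroup.out_eq' q]
  refine congrArg Completion.map (funext fun η => ?_)
  exact dif_pos ((D.trOp p q.out).pre η).2

/-- The `L²` de Rham complex. -/
def cx : Cx.{u} (G ⧸ D.N) where
  H := D.H
  D := D.Gr
  U := D.rep
  closed _ := closed_Gr
  dd p u a h := Gr_ind (R := fun _ a => (a, 0) ∈ D.Gr (p + 1))
    (closed_Gr.preimage (f := fun z : D.H p × D.H (p + 1) => (z.2, 0)) (by fun_prop))
    (fun η ξ hξ => mem_Gr (ξ := 0) (funext fun x => by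
      rw [hξ, extD_extD (Eventually.of_forall η.smooth)]; rfl)) h
  inv p q u a h := Gr_ind (R := fun u a => (D.rep p q u, D.rep (p + 1) q a) ∈ D.Gr p)
    (closed_Gr.preimage (f := fun z : D.H p × D.H (p + 1) => (D.rep p q z.1, D.rep (p + 1) q z.2))
      (by fun_prop))
    (fun η ξ hξ => by
      rw [rep_out, rep_out]
      exact mem_Gr (funext fun x => by
        rw [Op.pre_val, Op.pre_val, trOp_T, trOp_T, hξ, X.extD_tr _ (η.smooth _)])) h

lemma theta_eq (p : ℕ) (t : ℝ) :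
    theta X.g X.μ D.N D.F p t = (D.cx.trH p t).toReal - (D.cx.trK p).toReal := by
  have h : lapGraph X.g X.μ D.N D.F p = D.cx.lap p := by cases p <;> rfl
  simp only [theta, trL2, act_eq, h]
  rfl

end FD

end Pool.Agent.MP_d9582c_gt.H34
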