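import Pool.Agent.MP_d9582c_gt.H34.Spec
import Pool.Agent.MP_d9582c_gt.H34.Base
import Pool.Agent.MP_d9582c_gt.H14.Cmp
import Pool.Agent.MP_d9582c_gt.H79.CloseA

/-!
The characterized Hilbert spaces of the statement are unitarily equivalent to the concrete ones.
-/

open scoped Manifold ContDiff ComplexConjugate Topology ENNReal InnerProductSpace
open MeasureTheory Set Filter UniformSpace

noncomputable section

namespace Pool.Agent.MP_d9582c_gt.H34

universe u v

section Conj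

variable {H K H' K' : Type*} [NormedAddCommGroup H] [InnerProductSpace ℂ H] [CompleteSpace H]
  [NormedAddCommGroup K] [InnerProductSpace ℂ K] [CompleteSpace K]
  [NormedAddCommGroup H'] [InnerProductSpace ℂ H'] [CompleteSpace H']
  [NormedAddCommGroup K'] [InnerProductSpace ℂ K'] [CompleteSpace K']
  (W : H ≃ₗᵢ[ℂ] H') (W' : K ≃ₗᵢ[ℂ] K')

lemma cfc_conj (f : ℝ → ℝ) {T : H →L[ℂ] H} (hT : IsSelfAdjoint T) :
    cfc f (W.conjStarAlgEquiv T) = W.conjStarAlgEquiv (cfc f T) := by
  by_cases hf : ContinuousOn f (spectrum ℝ T)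
  · refine (StarAlgHomClass.map_cfc (S := ℂ) W.conjStarAlgEquiv f T hf ?_ hT (hT.map _)).symm
    change Continuous fun x : H →L[ℂ] H => (W : H →L[ℂ] H') ∘L x ∘L (W.symm : H' →L[ℂ] H)
    fun_prop
  · rw [cfc_apply_of_not_continuousOn T hf, map_zero, cfc_apply_of_not_continuousOn]
    rwa [show spectrum ℝ (W.conjStarAlgEquiv T) = spectrum ℝ T from
      AlgEquiv.spectrum_eq (W.conjStarAlgEquiv.toAlgEquiv.restrictScalars ℝ) T]

lemma vnTrace_conj_le {Q : Type*} {U : Q → H → H} {U' : Q → H' → H'}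
    (hU : ∀ q u, U' q (W u) = W (U q u)) (T : H →L[ℂ] H) :
    vnTrace U T ≤ vnTrace U' (W.conjStarAlgEquiv T) :=
  iSup_le fun m => iSup_le fun v => iSup_le fun hv =>
    le_iSup_of_le m <| le_iSup_of_le (fun j => W (v j)) <| le_iSup_of_le
      (fun u => by simpa [hU, W.inner_map_eq_flip] using hv (W.symm u)) (by simp)

lemma vnTrace_conj {Q : Type*} {U : Q → H → H} {U' : Q → H' → H'}
    (hU : ∀ q u, U' q (W u) = W (U q u)) (T : H →L[ℂ] H) :
    vnTrace U' (W.conjStarAlgEquiv T) = vnTrace U T := by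
  refine le_antisymm ((vnTrace_conj_le W.symm (U' := U) (fun q u => ?_) _).trans (le_of_eq ?_))
    (vnTrace_conj_le W hU T)
  · rw [eq_comm, W.symm_apply_eq, ← hU, W.apply_symm_apply]
  · congr 1
    ext u
    simp

/-- Two relations correspond under a pair of unitaries. -/
def Conj (Γ : Submodule ℂ (H × K)) (Γ' : Submodule ℂ (H' × K')) : Prop :=
  ∀ u a, (W u, W' a) ∈ Γ' ↔ (u, a) ∈ Γ

variable {W W'} {Γ : Submodule ℂ (H × K)} {Γ' : Submodule ℂ (H' × K')} (h : Conj W W' Γ Γ')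
include h

omit [CompleteSpace H] [CompleteSpace K] [CompleteSpace H'] [CompleteSpace K'] in
lemma Conj.symm_mem (u a) : (u, a) ∈ Γ' ↔ (W.symm u, W'.symm a) ∈ Γ := by
  rw [← h]; simp

omit [CompleteSpace H] [CompleteSpace K] [CompleteSpace H'] [CompleteSpace K'] in
lemma Conj.adjoint : Conj W' W Γ.adjoint Γ'.adjoint := fun a u => by
  simp only [Submodule.mem_adjoint_iff]
  refine ⟨fun H x y hxy => ?_, fun H x y hxy => ?_⟩
  · simpa using H _ _ ((h x y).2 hxy)
  · have := H _ _ ((h.symm_mem x y).1 hxy)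
    rwa [W.symm.inner_map_eq_flip, W'.symm.inner_map_eq_flip] at this

omit [CompleteSpace H] [CompleteSpace K] [CompleteSpace H'] [CompleteSpace K'] in
lemma Conj.closed (hΓ : IsClosed (Γ : Set (H × K))) : IsClosed (Γ' : Set (H' × K')) := by
  convert hΓ.preimage (f := fun z : H' × K' => (W.symm z.1, W'.symm z.2)) (by fun_prop) using 1
  exact Set.ext fun z => h.symm_mem z.1 z.2

variable (hΓ : IsClosed (Γ : Set (H × K)))
include hΓ

lemma Conj.resolv : resolv Γ' = W.conjStarAlgEquiv (resolv Γ) := by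
  ext u
  refine (resolv_unique (h.closed hΓ) ((h _ _).2 (resolv_mem hΓ (W.symm u))) fun v a hv => ?_).1
  have := inner_resolv hΓ ((h.symm_mem v a).1 hv) (W.symm u)
  rw [W.symm.inner_map_eq_flip, W'.symm.inner_map_eq_flip] at this
  simpa [inner_sub_right] using this

lemma Conj.heat (t : ℝ) : heat Γ' t = W.conjStarAlgEquiv (heat Γ t) := by
  rw [H34.heat, h.resolv hΓ, cfc_conj W _ (resolv_sa hΓ)]; rfl

omit [CompleteSpace K] [CompleteSpace K'] in
lemma Conj.kerProj : kerProj Γ' = W.conjStarAlgEquiv (kerProj Γ) := by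
  ext u
  refine Submodule.eq_starProjection_of_mem_of_inner_eq_zero
    ((mem_kerClosure (h.closed hΓ) _).2 ?_) fun v hv => ?_
  · simpa using (h _ _).2 (kerProj_mem hΓ (W.symm u))
  · have := inner_sub_kerProj hΓ (v := W.symm v)
      (by simpa using (h.symm_mem _ _).1 ((mem_kerClosure (h.closed hΓ) _).1 hv)) (W.symm u)
    rw [← W.inner_map_map] at this
    simpa using this

end Conj

lemma theta_conj {Q : Type v} [Group Q] (C : Cx.{u} Q) {H : ℕ → Type*}
    [∀ p, NormedAddCommGroup (H p)] [∀ p, InnerProductSpace ℂ (H p)] [∀ p, CompleteSpace (H p)]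
    (W : ∀ p, C.H p ≃ₗᵢ[ℂ] H p) {D : ∀ p, Submodule ℂ (H p × H (p + 1))}
    (hD : ∀ p, Conj (W p) (W (p + 1)) (C.D p) (D p)) {U : ∀ p, Q → H p → H p}
    (hU : ∀ p q u, U p q (W p u) = W p (C.U p q u)) :
    Spec.theta D U = fun p t => (C.trH p t).toReal - (C.trK p).toReal := by
  funext p t
  have h1 : Conj (W p) (W (p - 1)) (C.co p) (Spec.coGraph D p) := by
    cases p with
    | zero => exact fun u a => by simp [Cx.co, Spec.coGraph]
    | succ p => exact (hD p).adjoint
  have h2 : Conj (W p) (LinearIsometryEquiv.withLpProdCongr 2 (W (p + 1)) (W (p - 1))) (C.lap p)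
      (pairGraph (D p) (Spec.coGraph D p)) := fun u a => and_congr (hD p _ _) (h1 _ _)
  rw [Spec.theta, h2.heat (H79.lap_closed C p), h2.kerProj (H79.lap_closed C p),
    vnTrace_conj (W p) (hU p), vnTrace_conj (W p) (hU p)]
  rfl

section Det

variable {Q : Type v} [Group Q]

open Classical in
/-- The standard orthonormal family of `L²(Q)^r`. -/
def stdB (Q : Type v) (r : ℕ) (z : Fin r × Q) : L2r Q r := PiLp.single 2 z.1 (lp.single 2 z.2 1)

omit [Group Q] in
lemma inner_stdB {r : ℕ} (z : Fin r × Q) (u : L2r Q r) : ⟪stdB Q r z, u⟫_ℂ = u z.1 z.2 := by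
  classical
  rw [stdB, PiLp.inner_apply, Finset.sum_eq_single z.1 (fun i _ hi => by simp [hi]) (by simp)]
  simp [lp.inner_single_left]

/-- The standard Hilbert basis of `L²(Q)^r`. -/
def stdH (Q : Type v) (r : ℕ) : HilbertBasis (Fin r × Q) ℂ (L2r Q r) :=
  HilbertBasis.mkOfOrthogonalEqBot (v := stdB Q r)
    (by
      classical
      refine orthonormal_iff_ite.2 fun z z' => ?_
      rw [inner_stdB, stdB]
      by_cases h : z.1 = z'.1
      · simp [h, Prod.ext_iff, lp.single_apply, Pi.single_apply]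
      · simp [h, Prod.ext_iff])
    (eq_bot_iff.2 fun u hu => by
      ext i x
      exact (inner_stdB (i, x) u).symm.trans (hu _ (Submodule.subset_span ⟨_, rfl⟩)))

lemma isFKDet {r s : ℕ} (A : Matrix (Fin r) (Fin s) (MonoidAlgebra ℚ Q)) :
    Spec.IsFKDet A (fkDet A) := by
  classical
  refine ⟨L2r Q r, L2r Q s, _, _, inferInstance, _, _, inferInstance, stdH Q r, stdH Q s,
    rmulMat A, fun i j x y => ?_, ?_⟩
  · simp only [stdH, HilbertBasis.coe_mkOfOrthogonalEqBot, inner_stdB, H14.rmulMat_apply]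
    rw [Finset.sum_eq_single i (fun k _ hk => by simp [stdB, hk]) (by simp), H14.rmul_apply,
      Finsupp.sum_eq_single (x⁻¹ * y) (fun z _ hz => ?_) (by simp)]
    · simp [stdB]
    · have : y * z⁻¹ ≠ x := fun e => hz (by rw [← e]; group)
      simp [stdB, lp.single_apply, this]
  · simp only [stdH, HilbertBasis.coe_mkOfOrthogonalEqBot]
    rfl

lemma detApprox_of {G : Type v} [Group G] (h : Spec.DetApprox G) : DetApprox G :=
  fun N _ hN r s A => h N hN r s A _ _ (isFKDet A) fun _ => isFKDet _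

end Det

section Geo

variable {n : ℕ} {M : Type u} [TopologicalSpace M] [ChartedSpace (E n) M]
  {G : Type v} [Group G] [MulAction G M] [IsManifold 𝓘(ℝ, E n) ∞ M] [MeasurableSpace M]
  [BorelSpace M] [Countable G] {X : Geo n G M} (D : FD X)
  {H : ℕ → Type u} [∀ p, NormedAddCommGroup (H p)] [∀ p, InnerProductSpace ℂ (H p)]
  [∀ p, CompleteSpace (H p)] {j : ∀ p, (M → Alt n p) → H p} {U : ∀ p, G ⧸ D.N → H p → H p}
  (h : Spec.IsL2 n X.g X.μ D.N D.F j U)
include h

omit [Countable G] in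
lemma exists_unitary (p : ℕ) : ∃ W : D.H p ≃ₗᵢ[ℂ] H p, ∀ η : D.P p, W η = j p η.1 := by
  obtain ⟨h1, h2, -⟩ := h p
  have h3 : ∀ η ξ : D.P p, ⟪j p η.1, j p ξ.1⟫_ℂ = ⟪η, ξ⟫_ℂ := fun η ξ => h1 _ η.2 _ ξ.2
  let T : D.P p →ₗ[ℂ] H p :=
    { toFun := fun η => j p η.1
      map_add' := fun η ξ => h2.eq_of_inner_right ℂ (by
        rintro _ ⟨ζ, hζ, rfl⟩
        rw [inner_add_right]
        exact (h3 ⟨ζ, hζ⟩ _).trans ((inner_add_right _ _ _).trans
          (congrArg₂ _ (h3 ⟨ζ, hζ⟩ _).symm (h3 ⟨ζ, hζ⟩ _).symm)))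
      map_smul' := fun c η => h2.eq_of_inner_right ℂ (by
        rintro _ ⟨ζ, hζ, rfl⟩
        rw [inner_smul_right]
        exact (h3 ⟨ζ, hζ⟩ _).trans ((inner_smul_right _ _ _).trans
          (congrArg _ (h3 ⟨ζ, hζ⟩ _).symm))) }
  have h4 : ∀ η, ‖T η‖ = ‖η‖ := fun η => by
    rw [@norm_eq_sqrt_re_inner ℂ, @norm_eq_sqrt_re_inner ℂ]
    exact congrArg (fun z => √(RCLike.re z)) (h3 η η)
  let W : D.H p →ₗᵢ[ℂ] H p :=
    { toLinearMap := (cext T 1 fun η => by simp [h4]).toLinearMap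
      norm_map' := fun u => Completion.induction_on u (isClosed_eq (by fun_prop) (by fun_prop))
        fun η => by simp [h4] }
  have h5 : ∀ η : D.P p, W η = j p η.1 := fun η => cext_coe T 1 _ η
  refine ⟨LinearIsometryEquiv.ofSurjective W ?_, h5⟩
  rw [← range_eq_univ, ← W.isometry.isClosedEmbedding.isClosed_range.closure_eq,
    ← dense_iff_closure_eq]
  exact h2.mono (by rintro _ ⟨ζ, hζ, rfl⟩; exact ⟨_, h5 ⟨ζ, hζ⟩⟩)

lemma theta_model : Spec.theta (Spec.graphD n X.g X.μ D.N D.F j) U = theta X.g X.μ D.N D.F := by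
  choose W hW using exists_unitary D h
  rw [funext₂ D.theta_eq]
  refine theta_conj D.cx W (fun p u a => ⟨fun hu => ?_, fun hu => ?_⟩) fun p q u => ?_
  · have : Spec.graphD n X.g X.μ D.N D.F j p ≤ (D.Gr p).comap
        ((W p).symm.toLinearEquiv.prodCongr (W (p + 1)).symm.toLinearEquiv).toLinearMap := by
      refine Submodule.topologicalClosure_minimal _ (Submodule.span_le.2 ?_)
        (FD.closed_Gr.preimage (f := fun z : H p × H (p + 1) =>
          ((W p).symm z.1, (W (p + 1)).symm z.2)) (by fun_prop))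
      rintro _ ⟨η, hη, hξ, rfl⟩
      have := FD.mem_Gr (D := D) (η := ⟨η, hη⟩) (ξ := ⟨_, hξ⟩) rfl
      rwa [← (W p).symm_apply_apply (Completion.coe' _), ← (W (p + 1)).symm_apply_apply
        (Completion.coe' _), hW, hW] at this
    have h2 : ((W p).symm (W p u), (W (p + 1)).symm (W (p + 1) a)) ∈ D.Gr p := this hu
    exact (congrArg₂ Prod.mk ((W p).symm_apply_apply u) ((W (p + 1)).symm_apply_apply a)) ▸ h2
  · exact FD.Gr_ind (R := fun u a => (W p u, W (p + 1) a) ∈ Spec.graphD n X.g X.μ D.N D.F j p)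
      ((Submodule.isClosed_topologicalClosure _).preimage
        (f := fun z : D.H p × D.H (p + 1) => (W p z.1, W (p + 1) z.2)) (by fun_prop))
      (fun η ξ hξ => Submodule.le_topologicalClosure _ (Submodule.subset_span
        ⟨η.1, η.2, (hξ ▸ ξ.2 : extD η.1 ∈ l2Forms X.g X.μ D.N D.F (p + 1)),
          by rw [hW, hW, hξ]; rfl⟩)) hu
  · obtain ⟨γ, rfl⟩ := QuotientGroup.mk_surjective q
    refine Completion.induction_on u (isClosed_eq (((h p).2.2 γ).1.comp (W p).continuous)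
      ((W p).continuous.comp (D.rep p γ).continuous)) fun η => ?_
    exact (congrArg (U p γ) (hW p η)).trans ((((h p).2.2 γ).2 _ η.2).trans
      ((congrArg (W p) (D.rep_coe γ η)).trans (hW _ _)).symm)

omit h in
lemma isTorsion_of {ε ρ : ℝ} (h : Spec.IsTorsion n X.g X.μ D.N D.F ε ρ) :
    IsTorsion X.g X.μ D.N D.F ε ρ := by
  obtain ⟨H, _, _, _, j, U, h1, h2⟩ := h
  rwa [theta_model D h1] at h2

end Geo

end Pool.Agent.MP_d9582c_gt.H34
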