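import Pool.Agent.MP_d9582c_gt.H34.Cech
import Pool.Agent.MP_d9582c_gt.H5.Tail
import Pool.Agent.MP_d9582c_gt.H44.Fin
import Pool.Agent.MP_d9582c_gt.H44.Weyl
import Pool.Agent.MP_d9582c_gt.H48.Cochain
import Pool.Agent.MP_d9582c_gt.H68.Det
import Pool.Agent.MP_d9582c_gt.H79.Close
import Pool.Agent.MP_d9582c_gt.H88.Cone
import Pool.Agent.MP_d9582c_gt.H97.Geo

/-!
Approximation of the analytic `L²`-torsion.
-/

open scoped Manifold ContDiff Topology ENNReal InnerProductSpace Pointwise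
open MeasureTheory Set Filter

noncomputable section

namespace Pool.Agent.MP_d9582c_gt.H34

universe u v

lemma IsChain.eventually {G : Type v} [Group G] {N : ℕ → Subgroup G} (hN : IsChain N)
    {A : Set G} (hA : A.Finite) : ∀ᶠ i in atTop, ∀ γ ∈ N i, γ ∈ A → γ = 1 := by
  have : ∀ᶠ i in atTop, ∀ γ ∈ A, γ ∈ N i → γ = 1 := (eventually_all_finite hA).2 fun γ _ => by
    by_cases h : γ = 1
    · exact Eventually.of_forall fun _ _ => h
    · have : ∃ i, γ ∉ N i := by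
        by_contra hc
        push Not at hc
        exact h (Subgroup.mem_bot.1 (hN.2.2 ▸ Subgroup.mem_iInf.2 hc))
      obtain ⟨i, hi⟩ := this
      filter_upwards [eventually_ge_atTop i] with j hj hγ using absurd (hN.2.1 hj hγ) hi
  exact this.mono fun i h γ h1 h2 => h γ h2 h1

lemma Cx.Weyl.mono {Q : Type v} [Group Q] {C : Cx.{u} Q} {c c' : ℝ} {m : ℕ} (h : C.Weyl c m)
    (hc : c ≤ c') : C.Weyl c' m := fun δ hδ => by
  obtain ⟨S, T, k, h1, h2⟩ := h δ hδ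
  have := hδ.1
  exact ⟨S, T, k, h1, fun p => ⟨(h2 p).1, (h2 p).2.1.trans (by gcongr),
    (h2 p).2.2.1.trans (by gcongr), (h2 p).2.2.2.trans (by gcongr)⟩⟩

lemma Cx.Cech.mono {Q : Type v} [Group Q] {C : Cx.{u} Q} {c c' : ℝ} {n r : ℕ}
    {A : L2r Q r →L[ℂ] L2r Q r} (h : C.Cech A n c) (hc : c ≤ c') : C.Cech A n c' := by
  obtain ⟨f, g, h, k, h1, h2, h3, h4, h5, h6, h7, h8, h9⟩ := h
  exact ⟨f, g, h, k, h1, h2, h3, h4, h5, h6,
    fun p => ⟨(h7 p).1.trans hc, (h7 p).2.1.trans hc, (h7 p).2.2.trans hc⟩, h8.trans hc, h9⟩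

theorem main (hcar : CarStmt.{u, v}) (hloc : LocStmt.{u, v}) {n : ℕ} {M : Type u}
    [TopologicalSpace M] [T2Space M] [SecondCountableTopology M] [Nonempty M]
    [ChartedSpace (E n) M] [IsManifold 𝓘(ℝ, E n) ∞ M] [MeasurableSpace M] [BorelSpace M]
    {G : Type v} [Group G] [MulAction G M] [ProperlyDiscontinuousSMul G M]
    (g : RMetric n M) (μ : Measure M) (hμ : IsVolume g μ)
    (hs : ∀ γ : G, ContMDiff 𝓘(ℝ, E n) 𝓘(ℝ, E n) ∞ fun x : M => γ • x)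
    (hiso : ∀ (γ : G) x v w, gx g (γ • x) (tang n (fun x : M => γ • x) x v)
      (tang n (fun x : M => γ • x) x w) = gx g x v w)
    (hfree : ∀ (γ : G) (x : M), γ • x = x → γ = 1)
    (hco : ∃ K : Set M, IsCompact K ∧ ∀ x : M, ∃ γ : G, γ • x ∈ K)
    (hG : DetApprox G) (N : ℕ → Subgroup G) [∀ i, (N i).Normal] (hN : IsChain N)
    (F : ℕ → Set M) (hF : ∀ i, IsFundamentalDomain (N i) (F i) μ) {ε ρ : ℝ} {ρ' : ℕ → ℝ}
    (hε : 0 < ε) (hρ : IsTorsion g μ (⊥ : Subgroup G) univ ε ρ)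
    (hρ' : ∀ i, IsTorsion g μ (N i) (F i) ε (ρ' i)) : Tendsto ρ' atTop (𝓝 ρ) := by
  obtain ⟨_, X, rfl, rfl⟩ := H97.geo n M G g μ hμ hs hiso hfree hco
  obtain ⟨c₁, L, hT, hV⟩ := hloc n M G X
  obtain ⟨r, A, c₂, hC⟩ := cech hcar H88.cone H48.cochain H14.l2 n M G X
  obtain ⟨c₃, hS⟩ := smoothing hcar H88.cone n M G X
  have hW : ∀ D : FD X, D.cx.Weyl (max c₂ c₃) n := fun D => Cx.Weyl.mono (fun δ hδ => by
    obtain ⟨S, T, h, h1, h2⟩ := hS D δ hδ
    exact ⟨S, T, h, h1, fun p => ⟨(h2 p).1, hV D p _ _ (h2 p).1 (h2 p).2.1, (h2 p).2.2⟩⟩)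
    (le_max_right _ _)
  have hfr : ∀ D : FD X, D.cx.HasFrame := fun D p => by
    obtain ⟨w, e, -⟩ := exists_hilbertBasis ℂ (X.K p)
    exact ⟨w, _, isFrame_of_local e ((L D).parseval p)⟩
  obtain ⟨c₄, hB⟩ := H5.basic H44.weyl (max c₂ c₃) n
  let D : ℕ → FD X := fun i => ⟨N i, inferInstance, F i, hF i⟩
  have e₀ : theta X.g X.μ (⊥ : Subgroup G) univ = fun p t =>
      ((FD.bot X).cx.trH p t).toReal - ((FD.bot X).cx.trK p).toReal :=
    funext₂ (FD.bot X).theta_eq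
  have e : ∀ i, theta X.g X.μ (N i) (F i) = fun p t =>
      ((D i).cx.trH p t).toReal - ((D i).cx.trK p).toReal := fun i => funext₂ (D i).theta_eq
  rw [IsTorsion, e₀] at hρ
  simp only [IsTorsion, e] at hρ'
  have hb := fun D : FD X => hB _ D.cx (hfr D) (hW D)
  have hcl := H79.close G X.S X.K c₁ c₄ (n + 1) _ (fun i => G ⧸ N i) (FD.bot X).cx
    (fun i => (D i).cx) _ _ (L _) (fun i => L (D i)) X.one_mem
    (fun γ γ' h => (inv_mul_eq_one.1 (Subgroup.mem_bot.1 (QuotientGroup.eq.1 h))))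
    (fun R hR => by
      have hA : ∀ k : ℕ, ((X.S : Set G) ^ k).Finite := fun k => by
        classical
        exact Finset.coe_pow X.S k ▸ Finset.finite_toSet _
      filter_upwards [hN.eventually ((hA R).inv.mul (hA R)), hN.eventually (hA (2 * R + 2))]
        with i h1 h2
      exact ⟨fun γ hγ γ' hγ' h => inv_mul_eq_one.1 (h1 _ (QuotientGroup.eq.1 h)
        (mul_mem_mul (inv_mem_inv.2 hγ) hγ')), hT (D i) R h2 hR⟩)
    fun p t ht => ⟨(hb _ p).1 t ht, fun i => (hb _ p).1 t ht⟩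
  have htl := H5.tail H44.split H44.weyl H68.meas H68.det G N hG hN r A n (max c₂ c₃) ε
    (FD.bot X).cx (fun i => (D i).cx) hε (hfr _) (hW _) ((hC (FD.bot X)).mono (le_max_left _ _))
    (fun i => ⟨hfr _, hW _, (hC (D i)).mono (le_max_left _ _)⟩)
    fun p hp => by obtain ⟨ζ, c, h, -⟩ := hρ; exact (h p hp).2.2.2
  exact H44.fin n ε hε _ _ _ _ ρ ρ' hρ hρ'
    (fun p _ => ⟨(hb _ p).2.1, ENNReal.toReal_nonneg, (hb _ p).2.2⟩)
    (fun i p _ => ⟨(hb _ p).2.1, ENNReal.toReal_nonneg, (hb _ p).2.2⟩)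
    (fun p _ => (hcl p).1) (fun p _ => (hcl p).2) fun p _ => htl p

end Pool.Agent.MP_d9582c_gt.H34
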