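import Pool.Agent.MP_d9582c_gt.H34.Stmts

/-!
Pullback between manifolds, Leibniz rule, wedge with a covector.
-/

open scoped Manifold ContDiff ComplexConjugate Topology
open MeasureTheory Set Filter

noncomputable section

namespace Pool.Agent.MP_d9582c_gt.H34

variable {n p : ℕ} {M M' : Type*} [TopologicalSpace M] [ChartedSpace (E n) M]
  [TopologicalSpace M'] [ChartedSpace (E n) M']

@[simp] lemma alt_zero_rsmul (α : Alt n p) : (0 : ℝ) • α = 0 := zero_smul ℝ α

@[simp] lemma alt_zero_smul (α : Alt n p) : (0 : ℂ) • α = 0 := zero_smul ℂ α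

lemma alt_add_rsmul (c d : ℝ) (α : Alt n p) : (c + d) • α = c • α + d • α := add_smul c d α

lemma alt_add_smul (c d : ℂ) (α : Alt n p) : (c + d) • α = c • α + d • α := add_smul c d α

lemma alt_neg_rsmul (c : ℝ) (α : Alt n p) : (-c) • α = -(c • α) := neg_smul c α

lemma alt_neg_smul (c : ℂ) (α : Alt n p) : (-c) • α = -(c • α) := neg_smul c α

lemma alt_sum_rsmul {ι : Type*} (s : Finset ι) (c : ι → ℝ) (α : Alt n p) :
    (∑ i ∈ s, c i) • α = ∑ i ∈ s, c i • α := Finset.sum_smul (R := ℝ) (M := Alt n p)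

lemma pull_chart_model (z : E n) (η : E n → Alt n p) : pull (chartAt (E n) z).symm η = η :=
  pull_id η

lemma smoothAt_model {η : E n → Alt n p} {z : E n} : SmoothAt η z ↔ ContDiffAt ℝ ∞ η z := by
  rw [SmoothAt, pull_chart_model]; rfl

lemma extD_model (η : E n → Alt n p) (z : E n) : extD η z = extDeriv η z := by
  rw [extD, pull_chart_model, show tang n (chartAt (E n) z) z = _ from tang_id z]; rfl

/-- Wedge product of a covector with a form. -/
def wedge (ξ : E n →L[ℝ] ℝ) (α : Alt n p) : Alt n (p + 1) :=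
  ContinuousAlternatingMap.alternatizeUncurryFin (ξ.smulRight α)

lemma wedge_apply (ξ : E n →L[ℝ] ℝ) (α : Alt n p) (v : Fin (p + 1) → E n) :
    wedge ξ α v = ∑ i : Fin (p + 1), (-1 : ℤ) ^ (i : ℕ) • (ξ (v i) • α (i.removeNth v)) := by
  simp [wedge, ContinuousAlternatingMap.alternatizeUncurryFin_apply]

lemma wedge_add_right (ξ : E n →L[ℝ] ℝ) (α β : Alt n p) :
    wedge ξ (α + β) = wedge ξ α + wedge ξ β := by
  ext v; simp [wedge_apply, Finset.sum_add_distrib]

lemma wedge_smul_right (ξ : E n →L[ℝ] ℝ) (c : ℂ) (α : Alt n p) :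
    wedge ξ (c • α) = c • wedge ξ α := by
  ext v
  simp only [wedge_apply, ContinuousAlternatingMap.smul_apply, Finset.smul_sum]
  exact Finset.sum_congr rfl fun _ _ => by simp; ring

lemma wedge_rsmul_right (ξ : E n →L[ℝ] ℝ) (c : ℝ) (α : Alt n p) :
    wedge ξ (c • α) = c • wedge ξ α := by
  rw [alt_rsmul, wedge_smul_right, ← alt_rsmul]

lemma wedge_smul_left (ξ : E n →L[ℝ] ℝ) (c : ℝ) (α : Alt n p) :
    wedge (c • ξ) α = c • wedge ξ α := by
  ext v
  simp only [wedge_apply, ContinuousAlternatingMap.smul_apply, Finset.smul_sum]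
  exact Finset.sum_congr rfl fun _ _ => by simp; ring

lemma wedge_add_left (ξ ξ' : E n →L[ℝ] ℝ) (α : Alt n p) :
    wedge (ξ + ξ') α = wedge ξ α + wedge ξ' α := by
  ext v; simp [wedge_apply, Finset.sum_add_distrib, add_mul]

@[simp] lemma wedge_zero_left (α : Alt n p) : wedge 0 α = 0 := by ext v; simp [wedge_apply]

@[simp] lemma wedge_zero_right (ξ : E n →L[ℝ] ℝ) : wedge ξ (0 : Alt n p) = 0 := by
  ext v; simp [wedge_apply]

lemma wedge_sum_left {ι : Type*} (s : Finset ι) (ξ : ι → E n →L[ℝ] ℝ) (α : Alt n p) :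
    wedge (∑ i ∈ s, ξ i) α = ∑ i ∈ s, wedge (ξ i) α := by
  classical
  induction s using Finset.induction_on with
  | empty => simp
  | insert a s ha ih => rw [Finset.sum_insert ha, Finset.sum_insert ha, wedge_add_left, ih]

lemma wedge_comp (ξ : E n →L[ℝ] ℝ) (α : Alt n p) (A : E n →L[ℝ] E n) :
    (wedge ξ α).compContinuousLinearMap A = wedge (ξ.comp A) (α.compContinuousLinearMap A) := by
  ext v
  simp only [ContinuousAlternatingMap.compContinuousLinearMap_apply, wedge_apply]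
  rfl

lemma extDeriv_fun_smul' {c : E n → ℝ} {η : E n → Alt n p} {z : E n}
    (hc : DifferentiableAt ℝ c z) (hη : DifferentiableAt ℝ η z) :
    extDeriv (fun w => c w • η w) z = c z • extDeriv η z + wedge (fderiv ℝ c z) (η z) := by
  simp only [extDeriv, wedge]
  rw [fderiv_fun_smul hc hη, ContinuousAlternatingMap.alternatizeUncurryFin_add,
    ContinuousAlternatingMap.alternatizeUncurryFin_smul]

lemma SmoothAt.neg {η : M → Alt n p} {x : M} (hη : SmoothAt η x) : SmoothAt (-η) x :=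
  ContDiffAt.neg hη

lemma smoothAt_sum {ι : Type*} {s : Finset ι} {η : ι → M → Alt n p} {x : M}
    (h : ∀ i ∈ s, SmoothAt (η i) x) : SmoothAt (fun y => ∑ i ∈ s, η i y) x := by
  classical
  induction s using Finset.induction_on with
  | empty => exact smoothAt_zero x
  | insert a s ha ih =>
    simp only [Finset.sum_insert ha]
    exact (h a (by simp)).add (ih fun i hi => h i (by simp [hi]))

lemma extD_sum {ι : Type*} {s : Finset ι} {η : ι → M → Alt n p} {x : M}
    (h : ∀ i ∈ s, SmoothAt (η i) x) :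
    extD (fun y => ∑ i ∈ s, η i y) x = ∑ i ∈ s, extD (η i) x := by
  classical
  induction s using Finset.induction_on with
  | empty => exact extD_zero x
  | insert a s ha ih =>
    simp only [Finset.sum_insert ha]
    rw [← ih fun i hi => h i (by simp [hi])]
    exact extD_add (h a (by simp)) (smoothAt_sum fun i hi => h i (by simp [hi]))

lemma dfun_congr {c c' : M → ℝ} {x : M} (h : c =ᶠ[𝓝 x] c') : dfun n c x = dfun n c' x :=
  h.mfderiv_eq

lemma dfun_const (r : ℝ) (x : M) : dfun n (fun _ : M => r) x = 0 := mfderiv_const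

lemma dfun_comp {c : M' → ℝ} {f : M → M'} {x : M}
    (hc : MDifferentiableAt 𝓘(ℝ, E n) 𝓘(ℝ, ℝ) c (f x))
    (hf : MDifferentiableAt 𝓘(ℝ, E n) 𝓘(ℝ, E n) f x) :
    dfun n (c ∘ f) x = (dfun n c (f x)).comp (tang n f x) := mfderiv_comp x hc hf

lemma dfun_real_comp {c : M → ℝ} {x : M} {F : ℝ → ℝ} {F' : ℝ} (hF : HasDerivAt F F' (c x))
    (hc : MDifferentiableAt 𝓘(ℝ, E n) 𝓘(ℝ, ℝ) c x) :
    dfun n (fun y => F (c y)) x = F' • dfun n c x := by
  have := (hF.hasFDerivAt.hasMFDerivAt.comp x hc.hasMFDerivAt).mfderiv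
  refine this.trans ?_
  refine ContinuousLinearMap.ext fun v => ?_
  change dfun n c x v * F' = F' * dfun n c x v
  exact mul_comm _ _

lemma dfun_const_mul {c : M → ℝ} {x : M} (r : ℝ) (hc : MDifferentiableAt 𝓘(ℝ, E n) 𝓘(ℝ, ℝ) c x) :
    dfun n (fun y => r * c y) x = r • dfun n c x :=
  dfun_real_comp (F := fun t => r * t) (by simpa using (hasDerivAt_id (c x)).const_mul r) hc

lemma dfun_sum {ι : Type*} {s : Finset ι} {c : ι → M → ℝ} {x : M}
    (h : ∀ i ∈ s, MDifferentiableAt 𝓘(ℝ, E n) 𝓘(ℝ, ℝ) (c i) x) :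
    dfun n (fun y => ∑ i ∈ s, c i y) x = ∑ i ∈ s, dfun n (c i) x := by
  classical
  suffices HasMFDerivAt 𝓘(ℝ, E n) 𝓘(ℝ, ℝ) (fun y => ∑ i ∈ s, c i y) x
    (∑ i ∈ s, dfun n (c i) x : E n →L[ℝ] ℝ) from this.mfderiv
  induction s using Finset.induction_on with
  | empty => exact hasMFDerivAt_const (0 : ℝ) x
  | insert a s ha ih =>
    rw [Finset.sum_insert ha, funext fun y => Finset.sum_insert (f := fun i => c i y) ha]
    exact (h a (by simp)).hasMFDerivAt.add (ih fun i hi => h i (by simp [hi]))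

variable [IsManifold 𝓘(ℝ, E n) ∞ M] [IsManifold 𝓘(ℝ, E n) ∞ M']

lemma pull_chart_pull {f : M → M'} {x : M} (hf : ContMDiffAt 𝓘(ℝ, E n) 𝓘(ℝ, E n) ∞ f x)
    (η : M' → Alt n p) : pull (chartAt (E n) x).symm (pull f η) =ᶠ[𝓝 (chartAt (E n) x x)]
      pull (f ∘ (chartAt (E n) x).symm) η := by
  set κ := chartAt (E n) x
  have h2 : ∀ᶠ w in 𝓝 x, ContMDiffAt 𝓘(ℝ, E n) 𝓘(ℝ, E n) 1 f w :=
    (contMDiffAt_iff_contMDiffAt_nhds (by simp)).1 (hf.of_le (by simp))
  rw [← chart_symm_self (n := n) x] at h2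
  filter_upwards [(continuousAt_chart_symm x).eventually h2,
    κ.open_target.mem_nhds (mem_chart_target _ x)] with z hz hz'
  exact (pull_comp η (hz.mdifferentiableAt (by simp))
    ((contMDiffAt_chart_symm hz').mdifferentiableAt (by simp))).symm

omit [IsManifold 𝓘(ℝ, E n) ∞ M'] in
lemma contMDiffAt_comp_chart_symm {f : M → M'} {x : M}
    (hf : ContMDiffAt 𝓘(ℝ, E n) 𝓘(ℝ, E n) ∞ f x) :
    ContMDiffAt 𝓘(ℝ, E n) 𝓘(ℝ, E n) ∞ (f ∘ (chartAt (E n) x).symm) (chartAt (E n) x x) :=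
  ContMDiffAt.comp _ (by rwa [chart_symm_self]) (contMDiffAt_chart_symm (mem_chart_target _ x))

lemma SmoothAt.pull {f : M → M'} {x : M} (hf : ContMDiffAt 𝓘(ℝ, E n) 𝓘(ℝ, E n) ∞ f x)
    {η : M' → Alt n p} (hη : SmoothAt η (f x)) : SmoothAt (pull f η) x :=
  (SmoothAt.contDiffAt_pull (contMDiffAt_comp_chart_symm hf)
    (by simpa only [Function.comp, chart_symm_self] using hη)).congr_of_eventuallyEq
    (pull_chart_pull hf η)

lemma chart_roundtrip (η : M → Alt n p) (x : M) :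
    (pull (chartAt (E n) x).symm η (chartAt (E n) x x)).compContinuousLinearMap
      (tang n (chartAt (E n) x) x) = η x := by
  ext v
  simp only [pull, ContinuousAlternatingMap.compContinuousLinearMap_apply, chart_symm_self,
    Function.comp_def, tang_chart_symm_comp (mem_chart_source _ x)]

lemma SmoothAt.extD_pull {f : M → M'} {x : M} (hf : ContMDiffAt 𝓘(ℝ, E n) 𝓘(ℝ, E n) ∞ f x)
    {η : M' → Alt n p} (hη : SmoothAt η (f x)) : extD (H34.pull f η) x = H34.pull f (extD η) x := by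
  rw [extD, (pull_chart_pull hf η).extDeriv_eq, SmoothAt.extDeriv_pull
    (contMDiffAt_comp_chart_symm hf) (by simpa only [Function.comp, chart_symm_self] using hη),
    ← (pull_chart_pull hf (extD η)).eq_of_nhds, chart_roundtrip]

/-- A form that is smooth on an open set has a smooth derivative there. -/
lemma extD_chart_eventuallyEq {η : M → Alt n p} {x : M} (hη : ∀ᶠ y in 𝓝 x, SmoothAt η y) :
    pull (chartAt (E n) x).symm (extD η) =ᶠ[𝓝 (chartAt (E n) x x)]
      extDeriv (pull (chartAt (E n) x).symm η) := by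
  rw [← chart_symm_self (n := n) x] at hη
  filter_upwards [(continuousAt_chart_symm x).eventually hη,
    (chartAt (E n) x).open_target.mem_nhds (mem_chart_target _ x)] with z hz hz'
  exact (SmoothAt.extDeriv_pull (contMDiffAt_chart_symm hz') hz).symm

lemma smoothAt_extD {η : M → Alt n p} {x : M} (hη : ∀ᶠ y in 𝓝 x, SmoothAt η y) :
    SmoothAt (extD η) x := by
  refine ContDiffAt.congr_of_eventuallyEq ?_ (extD_chart_eventuallyEq hη)
  exact (ContinuousAlternatingMap.alternatizeUncurryFinCLM ℝ (E n) ℂ).contDiff.contDiffAt.comp _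
    (ContDiffAt.fderiv_right (m := ∞) hη.self_of_nhds (by simp))

lemma extD_extD {η : M → Alt n p} {x : M} (hη : ∀ᶠ y in 𝓝 x, SmoothAt η y) :
    extD (extD η) x = 0 := by
  rw [extD, (extD_chart_eventuallyEq hη).extDeriv_eq,
    extDeriv_extDeriv_apply (r := ∞) hη.self_of_nhds (by simp; decide)]
  rfl

lemma contDiffAt_fun_chart {c : M → ℝ} {x : M} (hc : ContMDiffAt 𝓘(ℝ, E n) 𝓘(ℝ, ℝ) ∞ c x) :
    ContDiffAt ℝ ∞ (c ∘ (chartAt (E n) x).symm) (chartAt (E n) x x) :=
  (ContMDiffAt.comp _ (by rwa [chart_symm_self])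
    (contMDiffAt_chart_symm (mem_chart_target _ x))).contDiffAt

lemma SmoothAt.fun_smul {c : M → ℝ} {η : M → Alt n p} {x : M}
    (hc : ContMDiffAt 𝓘(ℝ, E n) 𝓘(ℝ, ℝ) ∞ c x) (hη : SmoothAt η x) :
    SmoothAt (fun y => c y • η y) x :=
  ContDiffAt.smul (contDiffAt_fun_chart hc) hη

lemma extD_fun_smul {c : M → ℝ} {η : M → Alt n p} {x : M}
    (hc : ContMDiffAt 𝓘(ℝ, E n) 𝓘(ℝ, ℝ) ∞ c x) (hη : SmoothAt η x) :
    extD (fun y => c y • η y) x = c x • extD η x + wedge (dfun n c x) (η x) := by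
  have h1 := extDeriv_fun_smul' ((contDiffAt_fun_chart hc).differentiableAt (by simp))
    (hη.differentiableAt (by simp))
  have h2 : dfun n c x = (fderiv ℝ (c ∘ (chartAt (E n) x).symm) (chartAt (E n) x x)).comp
      (tang n (chartAt (E n) x) x) := by
    have e : c =ᶠ[𝓝 x] (c ∘ (chartAt (E n) x).symm) ∘ chartAt (E n) x := by
      filter_upwards [chart_source_mem_nhds (E n) x] with y hy
      simp [(chartAt (E n) x).left_inv hy]
    rw [dfun_congr e, dfun_comp
      ((contDiffAt_fun_chart hc).contMDiffAt.mdifferentiableAt (by simp))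
      ((contMDiffAt_chart (mem_chart_source _ x)).mdifferentiableAt (by simp))]
    congr 1
    exact mfderiv_eq_fderiv
  rw [extD, pull_fun_smul]
  erw [h1]
  rw [h2, ← chart_roundtrip η x, ← wedge_comp, Function.comp, chart_symm_self]
  rfl

lemma smoothAt_wedge {c : M → ℝ} {η : M → Alt n p} {x : M}
    (hc : ∀ᶠ y in 𝓝 x, ContMDiffAt 𝓘(ℝ, E n) 𝓘(ℝ, ℝ) ∞ c y) (hη : ∀ᶠ y in 𝓝 x, SmoothAt η y) :
    SmoothAt (fun y => wedge (dfun n c y) (η y)) x := by
  have h1 : SmoothAt (extD (fun y => c y • η y) + -fun y => c y • extD η y) x :=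
    (smoothAt_extD (by filter_upwards [hc, hη] with y h h' using h'.fun_smul h)).add
      ((smoothAt_extD hη).fun_smul hc.self_of_nhds).neg
  refine h1.congr ?_
  filter_upwards [hc, hη] with y h h'
  simp [extD_fun_smul h h']

lemma nsq_wedge_le (g : RMetric n M) (x : M) {ξ : E n →L[ℝ] ℝ} {c : ℝ}
    (h : ∀ v, ξ v ^ 2 ≤ c * gx g x v v) (α : Alt n p) :
    nsq g x (wedge ξ α) ≤ (n ^ (p + 1) * (p + 1) ^ 2 * p.factorial) * c * nsq g x α := by
  refine (nsq_le_of_forall g x _ (c := (p + 1) ^ 2 * (c * (p.factorial * nsq g x α)))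
    fun w hw => ?_).trans (le_of_eq (by ring))
  rw [wedge_apply]
  have h1 : ∀ i : Fin (p + 1), ‖(-1 : ℤ) ^ (i : ℕ) • (ξ (w i) • α (i.removeNth w))‖ ^ 2 ≤
      c * (p.factorial * nsq g x α) := fun i => by
    have e1 := h (w i)
    have e2 := norm_apply_sq_le g x α (i.removeNth w)
    simp only [Fin.removeNth, hw, mul_one, Finset.prod_const_one] at e1 e2
    rw [norm_smul, norm_smul, norm_pow, norm_neg, norm_one, one_pow, one_mul, mul_pow,
      Real.norm_eq_abs, sq_abs]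
    exact mul_le_mul e1 e2 (sq_nonneg _) ((sq_nonneg _).trans e1)
  refine le_trans (pow_le_pow_left₀ (norm_nonneg _) (norm_sum_le _ _) 2) ?_
  refine (sq_sum_le_card_mul_sum_sq).trans ?_
  refine le_trans (mul_le_mul_of_nonneg_left (Finset.sum_le_sum fun i _ => h1 i)
    (Nat.cast_nonneg _)) (le_of_eq ?_)
  simp; ring

omit [TopologicalSpace M] in
lemma alt_eq_zero (h : n < p) (α : Alt n p) : α = 0 :=
  alt_ext fun I => by
    obtain ⟨i, j, hij, he⟩ := Fintype.exists_ne_map_eq_of_card_lt I (by simpa using h)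
    exact α.toAlternatingMap.map_eq_zero_of_eq _ (congrArg ee he) hij

lemma nsq_sum_le (g : RMetric n M) (x : M) {ι : Type*} (s : Finset ι) (α : ι → Alt n p) :
    nsq g x (∑ i ∈ s, α i) ≤ s.card * ∑ i ∈ s, nsq g x (α i) := by
  simp only [nsq, ← Finset.mul_sum]
  rw [mul_left_comm, Finset.sum_comm]
  refine mul_le_mul_of_nonneg_left ?_ (by positivity)
  rw [Finset.mul_sum]
  refine Finset.sum_le_sum fun I _ => ?_
  rw [ContinuousAlternatingMap.sum_apply]
  exact (pow_le_pow_left₀ (norm_nonneg _) (norm_sum_le _ _) 2).trans sq_sum_le_card_mul_sum_sq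

/-- A constant for the wedge product that is uniform in the degree. -/
def cW (n : ℕ) : ℝ := (n + 1) ^ (n + 1) * (n + 1) ^ 2 * n.factorial

lemma cW_nonneg (n : ℕ) : 0 ≤ cW n := by unfold cW; positivity

lemma nsq_wedge_le' (g : RMetric n M) (x : M) {ξ : E n →L[ℝ] ℝ} {c : ℝ} (hc : 0 ≤ c)
    (h : ∀ v, ξ v ^ 2 ≤ c * gx g x v v) (α : Alt n p) :
    nsq g x (wedge ξ α) ≤ cW n * c * nsq g x α := by
  rcases lt_or_ge n p with hp | hp
  · rw [alt_eq_zero hp α]; simp
  refine (nsq_wedge_le g x h α).trans ?_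
  have := nsq_nonneg g x α
  unfold cW
  gcongr
  calc (n : ℝ) ^ (p + 1) ≤ (n + 1) ^ (p + 1) := by gcongr; linarith
    _ ≤ _ := pow_le_pow_right₀ (by simp) (by omega)

end Pool.Agent.MP_d9582c_gt.H34
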