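import Pool.Agent.MP_d9582c_gt.H34.Forms

/-!
The pointwise scalar product of forms.
-/

open scoped Manifold ContDiff ComplexConjugate Topology
open MeasureTheory Set Filter Bundle

noncomputable section

namespace Pool.Agent.MP_d9582c_gt.H34

variable {n p : ℕ} {M : Type*} [TopologicalSpace M] [ChartedSpace (E n) M]
  [IsManifold 𝓘(ℝ, E n) ∞ M] (g : RMetric n M)

/-- The metric at `x` as a bilinear map on the model space. -/
def gL (x : M) : E n →L[ℝ] E n →L[ℝ] ℝ := g.inner x

lemma gx_eq (x : M) (v w : E n) : gx g x v w = gL g x v w := rfl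

lemma gx_comm (x : M) (v w : E n) : gx g x v w = gx g x w v := g.symm x v w

lemma gx_pos (x : M) {v : E n} (hv : v ≠ 0) : 0 < gx g x v v := g.pos x v hv

lemma gx_nonneg (x : M) (v : E n) : 0 ≤ gx g x v v := by
  by_cases hv : v = 0
  · simp [hv, gx_eq]
  · exact (gx_pos g x hv).le

lemma frame_spec (x : M) (i j : Fin n) :
    gx g x (frame g x i) (frame g x j) = if i = j then 1 else 0 := by
  have : ∃ e : Fin n → E n, ∀ i j, gx g x (e i) (e j) = if i = j then 1 else 0 := by
    let : RiemannianBundle fun x : M => TangentSpace 𝓘(ℝ, E n) x := ⟨g.toRiemannianMetric⟩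
    have : FiniteDimensional ℝ (TangentSpace 𝓘(ℝ, E n) x) :=
      inferInstanceAs (FiniteDimensional ℝ (E n))
    have hn : Module.finrank ℝ (TangentSpace 𝓘(ℝ, E n) x) = n :=
      (finrank_euclideanSpace_fin : Module.finrank ℝ (E n) = n)
    let b := (stdOrthonormalBasis ℝ (TangentSpace 𝓘(ℝ, E n) x)).reindex (finCongr hn)
    exact ⟨b, fun i j => orthonormal_iff_ite.1 b.orthonormal i j⟩
  exact Classical.epsilon_spec this i j

lemma frame_li (x : M) : LinearIndependent ℝ (frame g x) := by
  rw [Fintype.linearIndependent_iff]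
  intro c hc j
  have := congrArg (fun v => gL g x v (frame g x j)) hc
  simpa [map_sum, ← gx_eq, frame_spec] using this

lemma frame_expand (x : M) (v : E n) : v = ∑ i, gx g x v (frame g x i) • frame g x i := by
  rcases isEmpty_or_nonempty (Fin n) with h | h
  · exact Subsingleton.elim _ _
  let b := basisOfLinearIndependentOfCardEqFinrank (frame_li g x) (by simp)
  have hb : ∀ i, b i = frame g x i := fun i => by simp [b]
  conv_lhs => rw [← b.sum_repr v]
  refine Finset.sum_congr rfl fun i _ => ?_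
  rw [hb]
  congr 1
  conv_rhs => rw [← b.sum_repr v, gx_eq]
  simp [map_sum, hb, ← gx_eq, frame_spec]

lemma gx_self_eq (x : M) (v : E n) : gx g x v v = ∑ i, gx g x v (frame g x i) ^ 2 := by
  conv_lhs => rw [gx_eq]; arg 2; rw [frame_expand g x v]
  simp [map_sum, ← gx_eq, sq]

lemma alt_expand (α : Alt n p) (c : Fin p → Fin n → ℝ) (v : Fin n → E n) :
    α (fun k => ∑ i, c k i • v i) = ∑ I : Fin p → Fin n, (∏ k, c k (I k) : ℝ) * α (v ∘ I) := by
  have := α.toContinuousMultilinearMap.toMultilinearMap.map_sum fun k i => c k i • v i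
  refine this.trans (Finset.sum_congr rfl fun I _ => ?_)
  rw [MultilinearMap.map_smul_univ]
  simp [Function.comp_def]

/-- The scalar product in terms of an arbitrary basis and the inverse Gram matrix. -/
lemma ip_eq_gram (x : M) (A : E n →L[ℝ] E n) (hA : Function.Surjective A) (G : Matrix (Fin n) (Fin n) ℝ)
    (hG : ∀ i j, G i j = gx g x (A (ee i)) (A (ee j))) :
    G.det ≠ 0 ∧ ∀ (p : ℕ) (α β : Alt n p), ip g x α β = (p.factorial : ℂ)⁻¹ *
      ∑ K : Fin p → Fin n, ∑ L : Fin p → Fin n, (∏ k, G⁻¹ (K k) (L k) : ℝ) *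
        (conj (α.compContinuousLinearMap A (ee ∘ K)) * β.compContinuousLinearMap A (ee ∘ L)) := by
  choose b hb using hA
  let P : Matrix (Fin n) (Fin n) ℝ := Matrix.of fun i k => b (frame g x i) k
  have hP : ∀ i, frame g x i = ∑ k, P i k • A (ee k) := fun i => by
    conv_lhs => rw [← hb (frame g x i), ← (EuclideanSpace.basisFun (Fin n) ℝ).sum_repr (b _)]
    simp [map_sum, P]
  have h1 : P * G * P.transpose = 1 := by
    ext i j
    rw [Matrix.one_apply, ← frame_spec g x, hP i, hP j]
    simp only [Matrix.mul_apply, Matrix.transpose_apply, gx_eq, map_sum, map_smul,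
      sum_apply, smul_apply, smul_eq_mul, hG,
      Finset.sum_mul, Finset.mul_sum]
    exact Finset.sum_congr rfl fun _ _ => Finset.sum_congr rfl fun _ _ => by ring
  have h2 : G * (P.transpose * P) = 1 := by
    rw [Matrix.mul_assoc, mul_eq_one_comm] at h1
    rwa [← Matrix.mul_assoc]
  refine ⟨fun h0 => ?_, fun p α β => ?_⟩
  · have := congrArg Matrix.det h2
    simp [h0] at this
  rw [Matrix.inv_eq_right_inv h2, ip]
  congr 1
  have e : ∀ (γ : Alt n p) (I : Fin p → Fin n), γ (frame g x ∘ I) =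
      ∑ K : Fin p → Fin n, (∏ k, P (I k) (K k) : ℝ) * γ.compContinuousLinearMap A (ee ∘ K) :=
    fun γ I => by
      rw [show frame g x ∘ I = fun k => ∑ i, P (I k) i • A (ee i) from funext fun k => hP _]
      exact alt_expand γ (fun k i => P (I k) i) fun i => A (ee i)
  simp only [e, map_sum, Finset.sum_mul, Finset.mul_sum]
  rw [Finset.sum_comm]
  conv_rhs => rw [Finset.sum_comm]
  refine Finset.sum_congr rfl fun L _ => ?_
  rw [Finset.sum_comm]
  refine Finset.sum_congr rfl fun K _ => ?_
  have : (∏ k, (P.transpose * P) (K k) (L k)) =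
      ∑ I : Fin p → Fin n, (∏ k, P (I k) (K k)) * ∏ k, P (I k) (L k) := by
    simp only [Matrix.mul_apply, Matrix.transpose_apply]
    rw [Finset.prod_univ_sum]
    simp [Finset.prod_mul_distrib]
  rw [this, Complex.ofReal_sum, Finset.sum_mul]
  refine Finset.sum_congr rfl fun I _ => ?_
  rw [map_mul, Complex.conj_ofReal, Complex.ofReal_mul]
  ring

/-- Invariance of the scalar product under linear isometries of tangent spaces. -/
lemma ip_comp {M' : Type*} [TopologicalSpace M'] [ChartedSpace (E n) M']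
    [IsManifold 𝓘(ℝ, E n) ∞ M'] (g' : RMetric n M') (x : M) (y : M') (A : E n →L[ℝ] E n)
    (hA : ∀ v w, gx g' y (A v) (A w) = gx g x v w) (α β : Alt n p) :
    ip g x (α.compContinuousLinearMap A) (β.compContinuousLinearMap A) = ip g' y α β := by
  have hinj : Function.Injective A := by
    rw [injective_iff_map_eq_zero]
    intro v hv
    by_contra h
    have := gx_pos g x h
    rw [← hA, hv] at this
    simp [gx_eq] at this
  have hs : Function.Surjective A :=
    (LinearMap.injective_iff_surjective (f := A.toLinearMap)).1 hinj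
  rw [(ip_eq_gram g' y A hs (Matrix.of fun i j => gx g x (ee i) (ee j))
    fun i j => (hA _ _).symm).2, (ip_eq_gram g x (ContinuousLinearMap.id ℝ _)
    Function.surjective_id (Matrix.of fun i j => gx g x (ee i) (ee j)) fun i j => rfl).2]
  rfl

lemma ip_conj (x : M) (α β : Alt n p) : conj (ip g x β α) = ip g x α β := by
  simp [ip, map_sum, mul_comm]

lemma ip_add_left (x : M) (α α' β : Alt n p) :
    ip g x (α + α') β = ip g x α β + ip g x α' β := by
  simp [ip, add_mul, Finset.sum_add_distrib, mul_add]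

lemma ip_smul_left (x : M) (c : ℂ) (α β : Alt n p) :
    ip g x (c • α) β = conj c * ip g x α β := by
  simp only [ip, ContinuousAlternatingMap.smul_apply, smul_eq_mul, map_mul, Finset.mul_sum]
  exact Finset.sum_congr rfl fun _ _ => by ring

lemma ip_add_right (x : M) (α β β' : Alt n p) :
    ip g x α (β + β') = ip g x α β + ip g x α β' := by
  simp [ip, Finset.sum_add_distrib, mul_add]

lemma ip_smul_right (x : M) (c : ℂ) (α β : Alt n p) :
    ip g x α (c • β) = c * ip g x α β := by
  simp only [ip, ContinuousAlternatingMap.smul_apply, smul_eq_mul, Finset.mul_sum]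
  exact Finset.sum_congr rfl fun _ _ => by ring

omit g in
lemma alt_rsmul (c : ℝ) (α : Alt n p) : c • α = (c : ℂ) • α := by
  ext v; simp

lemma ip_rsmul_left (x : M) (c : ℝ) (α β : Alt n p) :
    ip g x (c • α) β = c * ip g x α β := by
  rw [alt_rsmul, ip_smul_left, Complex.conj_ofReal]

lemma ip_rsmul_right (x : M) (c : ℝ) (α β : Alt n p) :
    ip g x α (c • β) = c * ip g x α β := by
  rw [alt_rsmul, ip_smul_right]

@[simp] lemma ip_zero_left (x : M) (β : Alt n p) : ip g x 0 β = 0 := by simp [ip]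

@[simp] lemma ip_zero_right (x : M) (β : Alt n p) : ip g x β 0 = 0 := by simp [ip]

/-- The squared pointwise norm. -/
def nsq (x : M) (α : Alt n p) : ℝ :=
  (p.factorial : ℝ)⁻¹ * ∑ I : Fin p → Fin n, ‖α (frame g x ∘ I)‖ ^ 2

lemma ip_self (x : M) (α : Alt n p) : ip g x α α = nsq g x α := by
  simp [ip, nsq, Complex.conj_mul']

lemma nsq_nonneg (x : M) (α : Alt n p) : 0 ≤ nsq g x α := by unfold nsq; positivity

@[simp] lemma nsq_zero (x : M) : nsq g x (0 : Alt n p) = 0 := by simp [nsq]

lemma norm_ip_le (x : M) (α β : Alt n p) : ‖ip g x α β‖ ≤ (nsq g x α + nsq g x β) / 2 := by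
  rw [ip, nsq, nsq, ← mul_add, mul_div_assoc, norm_mul, norm_inv, Complex.norm_natCast,
    ← Finset.sum_add_distrib, Finset.sum_div]
  gcongr
  refine (norm_sum_le _ _).trans (Finset.sum_le_sum fun I _ => ?_)
  rw [norm_mul, Complex.norm_conj]
  nlinarith [sq_nonneg (‖α (frame g x ∘ I)‖ - ‖β (frame g x ∘ I)‖)]

lemma nsq_add_le (x : M) (α β : Alt n p) :
    nsq g x (α + β) ≤ 2 * nsq g x α + 2 * nsq g x β := by
  have h : (nsq g x (α + β) : ℂ) = nsq g x α + ip g x α β + (ip g x β α + nsq g x β) := by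
    rw [← ip_self, ip_add_left, ip_add_right, ip_add_right, ip_self, ip_self]
  have h1 := (Complex.re_le_norm _).trans (norm_ip_le g x α β)
  have h2 := (Complex.re_le_norm _).trans (norm_ip_le g x β α)
  have := congrArg Complex.re h
  simp only [Complex.ofReal_re, Complex.add_re] at this
  linarith

lemma nsq_smul (x : M) (c : ℂ) (α : Alt n p) : nsq g x (c • α) = ‖c‖ ^ 2 * nsq g x α := by
  simp only [nsq, ContinuousAlternatingMap.smul_apply, norm_smul, mul_pow, ← Finset.mul_sum]
  ring

lemma nsq_rsmul (x : M) (c : ℝ) (α : Alt n p) : nsq g x (c • α) = c ^ 2 * nsq g x α := by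
  rw [alt_rsmul, nsq_smul, Complex.norm_real, Real.norm_eq_abs, sq_abs]

lemma norm_apply_sq_le (x : M) (α : Alt n p) (w : Fin p → E n) :
    ‖α w‖ ^ 2 ≤ p.factorial * nsq g x α * ∏ k, gx g x (w k) (w k) := by
  have h1 : α w = ∑ I : Fin p → Fin n,
      (∏ k, gx g x (w k) (frame g x (I k)) : ℝ) * α (frame g x ∘ I) := by
    rw [← alt_expand α (fun k i => gx g x (w k) (frame g x i)) (frame g x)]
    exact congrArg α (funext fun k => frame_expand g x _)
  have h2 : ∏ k, gx g x (w k) (w k) =
      ∑ I : Fin p → Fin n, (∏ k, gx g x (w k) (frame g x (I k))) ^ 2 := by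
    simp only [gx_self_eq g x (w _)]
    rw [Finset.prod_univ_sum]
    simp [Finset.prod_pow]
  have h3 : (p.factorial : ℝ) * nsq g x α = ∑ I : Fin p → Fin n, ‖α (frame g x ∘ I)‖ ^ 2 := by
    rw [nsq, ← mul_assoc, mul_inv_cancel₀ (by positivity), one_mul]
  rw [h1, h2, h3, mul_comm]
  refine le_trans (pow_le_pow_left₀ (norm_nonneg _) (norm_sum_le _ _) 2) ?_
  refine le_trans (le_of_eq ?_) ((Finset.sum_mul_sq_le_sq_mul_sq Finset.univ
    (fun I : Fin p → Fin n => |∏ k, gx g x (w k) (frame g x (I k))|)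
    fun I => ‖α (frame g x ∘ I)‖).trans (le_of_eq ?_))
  · simp only [norm_mul, Complex.norm_real, Real.norm_eq_abs]
  · simp only [sq_abs]

lemma nsq_le_of_forall (x : M) (α : Alt n p) {c : ℝ}
    (h : ∀ w : Fin p → E n, (∀ k, gx g x (w k) (w k) = 1) → ‖α w‖ ^ 2 ≤ c) :
    nsq g x α ≤ n ^ p * c := by
  have h1 : ∑ I : Fin p → Fin n, ‖α (frame g x ∘ I)‖ ^ 2 ≤ n ^ p * c := by
    refine (Finset.sum_le_sum fun I _ => h _ fun k => ?_).trans (by simp)
    simp [frame_spec]
  refine le_trans ?_ h1
  refine mul_le_of_le_one_left (by positivity) (inv_le_one_of_one_le₀ ?_)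
  exact_mod_cast p.factorial_pos

lemma continuousAt_gx_tang {ψ : E n → M} {s : Set (E n)} (hs : IsOpen s)
    (hψ : ContMDiffOn 𝓘(ℝ, E n) 𝓘(ℝ, E n) ∞ ψ s) {z : E n} (hz : z ∈ s) (v w : E n) :
    ContinuousAt (fun y => gx g (ψ y) (tang n ψ y v) (tang n ψ y w)) z := by
  have key : ∀ v : E n, ContinuousAt (fun y => TotalSpace.mk' (E n)
      (E := fun x : M => TangentSpace 𝓘(ℝ, E n) x) (ψ y) (tang n ψ y v)) z := fun v => by
    have h1 := hψ.continuousOn_tangentMapWithin (by simp) hs.uniqueMDiffOn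
    have h2 : Continuous fun y : E n => (⟨y, v⟩ : TangentBundle 𝓘(ℝ, E n) (E n)) :=
      (tangentBundleModelSpaceHomeomorph 𝓘(ℝ, E n)).symm.continuous.comp
        (continuous_id.prodMk continuous_const)
    have h3 := (h1.comp h2.continuousOn (s := s) fun y hy => hy).continuousAt (hs.mem_nhds hz)
    refine h3.congr ?_
    filter_upwards [hs.mem_nhds hz] with y hy
    simp only [Function.comp, tangentMapWithin, tang, mfderivWithin_of_isOpen hs hy]
    rfl
  have hb : ContinuousAt ψ z := hψ.continuousOn.continuousAt (hs.mem_nhds hz)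
  have : ContinuousAt (fun y => TotalSpace.mk' ℝ (E := Bundle.Trivial M ℝ) (ψ y)
      (g.inner (ψ y) (tang n ψ y v) (tang n ψ y w))) z :=
    (g.contMDiff.continuous.continuousAt.comp hb).clm_bundle_apply₂ (F₁ := E n) (F₂ := E n)
      (key v) (key w)
  simp only [← continuousWithinAt_univ, FiberBundle.continuousWithinAt_totalSpace] at this
  exact continuousWithinAt_univ _ _ |>.1 this.2

lemma continuousAt_gram {ψ : E n → M} {s : Set (E n)} (hs : IsOpen s)
    (hψ : ContMDiffOn 𝓘(ℝ, E n) 𝓘(ℝ, E n) ∞ ψ s) {z : E n} (hz : z ∈ s) :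
    ContinuousAt (gram g ψ) z :=
  continuousAt_pi.2 fun _ => continuousAt_pi.2 fun _ => continuousAt_gx_tang g hs hψ hz _ _

omit g in
lemma tang_chart_symm_comp {x y : M} (hy : y ∈ (chartAt (E n) x).source) (v : E n) :
    tang n (chartAt (E n) x).symm (chartAt (E n) x y) (tang n (chartAt (E n) x) y v) = v := by
  set κ := chartAt (E n) x
  have e1 : κ.symm ∘ κ =ᶠ[𝓝 y] id := by
    filter_upwards [κ.open_source.mem_nhds hy] with u hu using κ.left_inv hu
  have := tang_comp ((contMDiffAt_chart_symm (κ.map_source hy)).mdifferentiableAt (by simp))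
    ((contMDiffAt_chart hy).mdifferentiableAt (by simp))
  rw [tang_congr e1, tang_id] at this
  exact (DFunLike.congr_fun this v).symm

omit g in
lemma tang_chart_comp_symm {x : M} {z : E n} (hz : z ∈ (chartAt (E n) x).target) (v : E n) :
    tang n (chartAt (E n) x) ((chartAt (E n) x).symm z) (tang n (chartAt (E n) x).symm z v) = v := by
  set κ := chartAt (E n) x
  have e1 : κ ∘ κ.symm =ᶠ[𝓝 z] id := by
    filter_upwards [κ.open_target.mem_nhds hz] with u hu using κ.right_inv hu
  have := tang_comp ((contMDiffAt_chart (κ.map_target hz)).mdifferentiableAt (by simp))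
    ((contMDiffAt_chart_symm hz).mdifferentiableAt (by simp))
  rw [tang_congr e1, tang_id] at this
  exact (DFunLike.congr_fun this v).symm

lemma continuousAt_ip {η ξ : M → Alt n p} {x : M} (hη : SmoothAt η x) (hξ : SmoothAt ξ x) :
    ContinuousAt (fun y => ip g y (η y) (ξ y)) x := by
  set κ := chartAt (E n) x
  have hx : x ∈ κ.source := mem_chart_source _ x
  have key : ∀ y ∈ κ.source, (gram g κ.symm (κ y)).det ≠ 0 ∧ ip g y (η y) (ξ y) =
      (p.factorial : ℂ)⁻¹ * ∑ K : Fin p → Fin n, ∑ L : Fin p → Fin n,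
        (∏ k, (gram g κ.symm (κ y))⁻¹ (K k) (L k) : ℝ) *
        (conj (pull κ.symm η (κ y) (ee ∘ K)) * pull κ.symm ξ (κ y) (ee ∘ L)) := fun y hy => by
    have := ip_eq_gram g y (tang n κ.symm (κ y)) (fun v => ⟨_, tang_chart_symm_comp hy v⟩)
      (gram g κ.symm (κ y)) (fun i j => by simp [gram, κ.left_inv hy])
    refine ⟨this.1, ?_⟩
    rw [this.2]
    simp only [pull, κ.left_inv hy]
  refine ContinuousAt.congr ?_
    (eventually_of_mem (κ.open_source.mem_nhds hx) fun y hy => (key y hy).2.symm)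
  have hκ : ContinuousAt κ x := κ.continuousAt hx
  have hG : ContinuousAt (fun y => (gram g κ.symm (κ y))⁻¹) x := by
    refine ContinuousAt.comp (f := fun y => gram g κ.symm (κ y)) (continuousAt_matrix_inv _ ?_)
      ((continuousAt_gram g κ.open_target contMDiffOn_chart_symm (κ.map_source hx)).comp hκ)
    rw [Ring.inverse_eq_inv']
    exact continuousAt_inv₀ (key x hx).1
  have hf : ∀ {ζ : M → Alt n p}, SmoothAt ζ x → ∀ v,
      ContinuousAt (fun y => pull κ.symm ζ (κ y) v) x := fun hζ v =>
    (ContinuousAlternatingMap.apply ℝ (E n) ℂ v).continuous.continuousAt.comp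
      (ContinuousAt.comp (g := pull κ.symm _) hζ.continuousAt hκ)
  refine continuousAt_const.mul (tendsto_finsetSum _ fun K _ => tendsto_finsetSum _ fun L _ => ?_)
  refine ContinuousAt.mul (f := fun y => ((∏ k, (gram g κ.symm (κ y))⁻¹ (K k) (L k) : ℝ) : ℂ)) ?_
    (ContinuousAt.mul (Complex.continuous_conj.continuousAt.comp (hf hη _)) (hf hξ _))
  exact Complex.continuous_ofReal.continuousAt.comp (tendsto_finsetProd _ fun k _ =>
    continuousAt_pi.1 (continuousAt_pi.1 hG (K k)) (L k))

lemma continuousAt_nsq {η : M → Alt n p} {x : M} (hη : SmoothAt η x) :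
    ContinuousAt (fun y => nsq g y (η y)) x := by
  have := Complex.continuous_re.continuousAt.comp (continuousAt_ip g hη hη)
  simpa [Function.comp_def, ip_self] using this

end Pool.Agent.MP_d9582c_gt.H34
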