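import Pool.Agent.MP_d9582c_gt.H34.Cone

/-!
Homological algebra of the augmented double complex.
-/

open scoped Manifold ContDiff Topology ENNReal
open MeasureTheory Set Filter

noncomputable section

namespace Pool.Agent.MP_d9582c_gt.H34

universe u v

section Ring

variable {R : Type*} [Ring R] {d δ e Q ν K S ρ : R}

lemma alg_rows (h1 : d * d = 0) (h2 : δ * δ = 0) (h3 : d * δ + δ * d = 0)
    (h6 : e * d = d * e) (h7 : δ * Q + Q * δ = 1) (h8 : Q * e = 0)
    (h9 : (1 + (d * Q + Q * d)) * ν = 1) (h10 : ν * (1 + (d * Q + Q * d)) = 1) :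
    (d + δ) * (Q * ν) + Q * ν * (d + δ) = 1 ∧ Q * ν * e = 0 := by
  have hT : 1 + (d * Q + Q * d) = (d + δ) * Q + Q * (d + δ) := by rw [← h7]; noncomm_ring
  have hD : (d + δ) * (d + δ) = 0 := by
    rw [show (d + δ) * (d + δ) = d * d + δ * δ + (d * δ + δ * d) by noncomm_ring, h1, h2, h3]; simp
  have hc : (d + δ) * (1 + (d * Q + Q * d)) = (1 + (d * Q + Q * d)) * (d + δ) := by
    calc _ = ((d + δ) * Q + Q * (d + δ)) * (d + δ) + (d + δ) * (d + δ) * Q -
          Q * ((d + δ) * (d + δ)) := by rw [hT]; noncomm_ring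
      _ = _ := by rw [← hT, hD]; simp
  have hν : ν * (d + δ) = (d + δ) * ν := by
    calc ν * (d + δ) = ν * ((d + δ) * (1 + (d * Q + Q * d))) * ν := by
          rw [mul_assoc, mul_assoc, h9, mul_one]
      _ = _ := by rw [hc, ← mul_assoc, h10, one_mul]
  have he : (1 + (d * Q + Q * d)) * e = e := by
    rw [add_mul, add_mul, mul_assoc, mul_assoc, ← h6, ← mul_assoc Q, h8]; simp
  refine ⟨?_, ?_⟩
  · rw [mul_assoc Q, hν, ← h9, hT]; noncomm_ring
  · have : ν * e = e := by rw [← he, ← mul_assoc, h10, one_mul, he]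
    rw [mul_assoc, this, h8]

variable {h : R}

lemma alg_s (h5 : e * δ = 0) (h6 : e * d = d * e) (hh : (d + δ) * h + h * (d + δ) = 1) :
    d * (e * h) + e * h * (d + δ) = e := by
  calc _ = e * ((d + δ) * h + h * (d + δ)) - e * δ * h := by
        rw [← mul_assoc d, ← h6]; noncomm_ring
    _ = e := by rw [hh, h5]; simp

lemma alg_sr (h4 : e * e = e) (h5 : e * δ = 0) (h6 : e * d = d * e)
    (hh : (d + δ) * h + h * (d + δ) = 1) (he : h * e = 0) : e * h * (δ * e) = e := by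
  calc _ = (d * (e * h) + e * h * (d + δ)) * e - d * e * (h * e) - e * h * (d * e) := by
        noncomm_ring
    _ = e := by rw [alg_s h5 h6 hh, ← h6, ← mul_assoc (e * h), mul_assoc e h e, he, h4]; simp

lemma alg_dr (h2 : δ * δ = 0) (h3 : d * δ + δ * d = 0) (h6 : e * d = d * e) :
    (d + δ) * (δ * e) = -(δ * e * d) := by
  calc _ = (d * δ + δ * d) * e + δ * δ * e - δ * (d * e) := by noncomm_ring
    _ = _ := by rw [h2, h3, ← h6]; noncomm_ring

lemma alg_weyl (h2 : δ * δ = 0) (h3 : d * δ + δ * d = 0) (h4 : e * e = e) (h5 : e * δ = 0)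
    (h6 : e * d = d * e) (hh : (d + δ) * h + h * (d + δ) = 1) (he : h * e = 0)
    (k1 : d * K + K * d + S = 1 - e) (k2 : e * K = 0) :
    e = e * h * S * (δ * e) + -(e * h * δ * K * (δ * e)) +
      (d * -(e * h * K * (δ * e)) + -(e * h * K * (δ * e)) * d) := by
  have a1 : d * (δ * e) = -(δ * e * d) := by
    rw [← alg_dr h2 h3 h6, add_mul, ← mul_assoc δ δ, h2]; simp
  calc e = e * h * (δ * e) - e * (h * e) * (δ * e) := by rw [alg_sr h4 h5 h6 hh he, he]; simp
    _ = e * h * (d * K + K * d + S) * (δ * e) := by rw [k1]; noncomm_ring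
    _ = (d * (e * h) + e * h * (d + δ)) * K * (δ * e) + e * h * K * (d * (δ * e)) +
        e * h * S * (δ * e) - d * (e * h * K * (δ * e)) - e * h * δ * K * (δ * e) := by
        noncomm_ring
    _ = _ := by rw [alg_s h5 h6 hh, k2, a1]; noncomm_ring

lemma alg_cols (h1 : d * d = 0) (h2 : δ * δ = 0) (h3 : d * δ + δ * d = 0) (h5 : e * δ = 0)
    (h6 : e * d = d * e) (k1 : d * K + K * d + S = 1 - e) (k2 : e * K = 0) (k3 : d * S = 0)
    (k4 : K * S = 0) (k5 : K * δ * S = 0) (k6 : (1 + (δ * K + K * δ)) * ρ = 1)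
    (k7 : ρ * (1 + (δ * K + K * δ)) = 1) :
    S * ρ = 1 - e + K * ρ * δ * e - (d + δ) * (K * ρ) - K * ρ * (d + δ) := by
  have hS : S = 1 - e - (d * K + K * d) := by rw [← k1]; noncomm_ring
  have hSd : S * d = 0 := by
    calc S * d = d * S + (d * e - e * d) + (d * d * K - K * (d * d)) := by rw [hS]; noncomm_ring
      _ = 0 := by rw [k3, h6, h1]; simp
  have hD : (d + δ) * (d + δ) = 0 := by
    rw [show (d + δ) * (d + δ) = d * d + δ * δ + (d * δ + δ * d) by noncomm_ring, h1, h2, h3]; simp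
  have hT : 1 + (δ * K + K * δ) = (d + δ) * K + K * (d + δ) + S + e := by rw [hS]; noncomm_ring
  have r1 : ρ * S = S := by
    calc ρ * S = ρ * (1 + (δ * K + K * δ)) * S - ρ * δ * (K * S) - ρ * (K * δ * S) := by
          noncomm_ring
      _ = S := by rw [k7, k4, k5]; simp
  have r2 : ρ * δ * S = δ * S := by
    calc _ = ρ * (1 + (δ * K + K * δ)) * δ * S - ρ * δ * (K * δ * S) - ρ * K * (δ * δ) * S := by
          noncomm_ring
      _ = _ := by rw [k7, k5, h2]; simp
  have r3 : e * ρ = e := by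
    calc e * ρ = e * ((1 + (δ * K + K * δ)) * ρ) - e * δ * K * ρ - e * K * δ * ρ := by noncomm_ring
      _ = e := by rw [k6, h5, k2]; simp
  have hc : (d + δ) * (1 + (δ * K + K * δ)) - (1 + (δ * K + K * δ)) * (d + δ) =
      δ * S - S * δ + δ * e := by
    calc _ = (d + δ) * (d + δ) * K - K * ((d + δ) * (d + δ)) + d * S - S * d + (d * e - e * d) -
          e * δ + (δ * S - S * δ + δ * e) := by rw [hT]; noncomm_ring
      _ = _ := by rw [hD, k3, hSd, h6, h5]; simp
  have r4 : ρ * (d + δ) = (d + δ) * ρ + (ρ * δ * S - ρ * S * δ + ρ * δ * e) * ρ := by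
    calc ρ * (d + δ) = ρ * (d + δ) * ((1 + (δ * K + K * δ)) * ρ) := by rw [k6, mul_one]
      _ = ρ * (1 + (δ * K + K * δ)) * (d + δ) * ρ + ρ * ((d + δ) * (1 + (δ * K + K * δ)) -
          (1 + (δ * K + K * δ)) * (d + δ)) * ρ := by noncomm_ring
      _ = _ := by rw [k7, hc]; noncomm_ring
  calc S * ρ = ((d + δ) * K + K * (d + δ) + S + e) * ρ - e * ρ - (d + δ) * (K * ρ) -
        K * ((d + δ) * ρ) := by noncomm_ring
    _ = 1 - e - (d + δ) * (K * ρ) - K * (ρ * (d + δ)) + (K * δ * S - K * S * δ) * ρ +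
        K * ρ * δ * (e * ρ) := by
        rw [← hT, k6, r4, r1, r2]; nth_rewrite 1 [r3]; noncomm_ring
    _ = _ := by rw [k4, k5, r3]; noncomm_ring

variable {f k : R}

lemma alg_comm (h1 : d * d = 0) (h2 : δ * δ = 0) (h3 : d * δ + δ * d = 0)
    (h6 : e * d = d * e) (h5 : e * δ = 0)
    (hf : f = 1 - e + k * δ * e - (d + δ) * k - k * (d + δ)) {τ : R} (hτ : e * τ = 0) :
    (d + δ) * f * τ = f * (d + δ) * τ := by
  have hD : (d + δ) * (d + δ) = 0 := by
    rw [show (d + δ) * (d + δ) = d * d + δ * δ + (d * δ + δ * d) by noncomm_ring, h1, h2, h3]; simp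
  have a : e * (d + δ) * τ = 0 := by rw [mul_add, h5, h6, add_zero, mul_assoc, hτ, mul_zero]
  calc _ = f * (d + δ) * τ + (1 - k * δ) * (e * (d + δ) * τ) + (d + δ) * (k * δ - 1) * (e * τ) +
        k * ((d + δ) * (d + δ)) * τ - (d + δ) * (d + δ) * k * τ := by rw [hf]; noncomm_ring
    _ = _ := by rw [a, hτ, hD]; simp

end Ring

variable {n : ℕ} {M : Type u} [TopologicalSpace M] [ChartedSpace (E n) M]
  {G : Type v} [Group G] [MulAction G M] [IsManifold 𝓘(ℝ, E n) ∞ M] [MeasurableSpace M]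
  [BorelSpace M] {X : Geo n G M}

open Geo

lemma Geo.Good.inv {N : Module.End ℂ X.Sec} (h : Good N) (hn : IsNilpotent N) :
    ∃ ν, Good ν ∧ (1 + N) * ν = 1 ∧ ν * (1 + N) = 1 := by
  obtain ⟨k, hk⟩ := hn
  refine ⟨∑ i ∈ Finset.range k, (-N) ^ i, good_sum fun i _ => h.neg.pow i, ?_, ?_⟩
  · have := mul_neg_geom_sum (-N) k
    rwa [neg_pow N, hk, mul_zero, sub_zero, sub_neg_eq_add] at this
  · have := geom_sum_mul_neg (-N) k
    rwa [neg_pow N, hk, mul_zero, sub_zero, sub_neg_eq_add] at this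

end Pool.Agent.MP_d9582c_gt.H34
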