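import Pool.Agent.MP_d9582c_gt.H34.Alg

/-!
From operators on the double complex to operators on `L²` forms.
-/

open scoped Manifold ContDiff Topology ENNReal InnerProductSpace
open MeasureTheory Set Filter UniformSpace

noncomputable section

namespace Pool.Agent.MP_d9582c_gt.H34

universe u v

variable {n p : ℕ} {M : Type u} [TopologicalSpace M] [ChartedSpace (E n) M]
  {G : Type v} [Group G] [MulAction G M] [IsManifold 𝓘(ℝ, E n) ∞ M] [MeasurableSpace M]
  [BorelSpace M] {X : Geo n G M}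

open Geo

/-- Equivariant operators with an explicit bound. -/
def GoodC (T : Module.End ℂ X.Sec) (c : ℝ) : Prop :=
  0 ≤ c ∧ Eqv T ∧ Bd T (ENNReal.ofReal (c ^ 2))

omit [BorelSpace M] in
lemma Geo.Good.eventually {T : Module.End ℂ X.Sec} (h : Good T) : ∀ᶠ c in atTop, GoodC T c := by
  obtain ⟨h1, C, hC, h2⟩ := h
  filter_upwards [eventually_ge_atTop 1, eventually_ge_atTop C.toReal] with c hc hc'
  refine ⟨by linarith, h1, fun D σ hσ => (h2 D σ hσ).trans ?_⟩
  gcongr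
  rw [← ENNReal.ofReal_toReal hC]
  exact ENNReal.ofReal_le_ofReal (by nlinarith)

omit [BorelSpace M] in
lemma GoodC.mul {T T' : Module.End ℂ X.Sec} {c c' : ℝ} (h : GoodC T c) (h' : GoodC T' c') :
    GoodC (T * T') (c * c') :=
  ⟨mul_nonneg h.1 h'.1, h.2.1.mul h'.2.1, by
    rw [mul_pow, ENNReal.ofReal_mul (sq_nonneg _)]; exact h.2.2.mul h'.2.2 h'.2.1⟩

omit [BorelSpace M] in
lemma GoodC.neg {T : Module.End ℂ X.Sec} {c : ℝ} (h : GoodC T c) : GoodC (-T) c :=
  ⟨h.1, h.2.1.neg, h.2.2.neg⟩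

namespace FD

variable (D : FD X)

/-- A global form as an element of the double complex. -/
def inj (p : ℕ) : D.P p →ₗ[ℂ] X.Sec where
  toFun η := X.e0 (Sec.mk (fun s q => (X.Vs s).indicator
      ((Pi.single p η.1 : (q : ℕ) → M → Alt n q) q)) fun s q x =>
    ⟨fun hx => smoothAt_indicator (isOpen_Vs s) hx (by
      rcases eq_or_ne q p with rfl | h
      · rw [Pi.single_eq_same]; exact η.smooth x
      · rw [Pi.single_eq_of_ne h]; exact smoothAt_zero x), fun hx => indicator_of_notMem hx _⟩)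
  map_add' η ξ := by
    rw [← map_add]
    exact congrArg X.e0 (Sec.ext fun s q x hx => by
      simp [indicator_of_mem hx, show (η + ξ).1 = η.1 + ξ.1 from rfl, Pi.single_add])
  map_smul' c η := by
    rw [← map_smul]
    exact congrArg X.e0 (Sec.ext fun s q x hx => by
      rcases eq_or_ne q p with rfl | h
      · simp [indicator_of_mem hx, show (c • η).1 = c • η.1 from rfl]
      · simp [h])

variable {D}

lemma inj_self (η : D.P p) : (D.inj p η).v ∅ p = η.1 := by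
  funext x
  simp [inj, e0_apply, indicator_of_mem (mem_Vs_empty x)]

lemma inj_ne (η : D.P p) {s q} (h : s ≠ ∅ ∨ q ≠ p) : (D.inj p η).v s q = 0 := by
  rcases h with h | h
  · simp [inj, e0_apply, h]
  · by_cases hs : s = ∅ <;> simp [inj, e0_apply, hs, h]

lemma eq_inj {σ : X.Sec} {η : D.P p} (h : σ.v ∅ p = η.1)
    (h' : ∀ s q, s ≠ ∅ ∨ q ≠ p → σ.v s q = 0) : σ = D.inj p η :=
  Sec.ext fun s q x _ => by
    by_cases hs : s ≠ ∅ ∨ q ≠ p
    · rw [h' s q hs, inj_ne η hs]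
    · push Not at hs
      obtain ⟨rfl, rfl⟩ := hs
      rw [h, inj_self]

lemma nrmS_inj (η : D.P p) : nrmS D (D.inj p η) ≤ ‖η‖ₑ ^ 2 :=
  iSup₂_le fun s q => by
    by_cases hs : s ≠ ∅ ∨ q ≠ p
    · simp [inj_ne η hs, nrm]
    · push Not at hs
      obtain ⟨rfl, rfl⟩ := hs
      rw [inj_self, P.enorm_sq]

lemma e0_inj (η : D.P p) : X.e0 (D.inj p η) = D.inj p η :=
  eq_inj (by rw [e0_apply, if_pos rfl, inj_self]) fun s q h => by
    rw [e0_apply]; split_ifs; exacts [inj_ne η h, rfl]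

omit [BorelSpace M] in
lemma dd_empty (σ : X.Sec) (p : ℕ) : (X.dd σ).v ∅ (p + 1) = extD (σ.v ∅ p) :=
  funext fun x => by rw [dd_succ σ p (mem_Vs_empty x)]; simp

lemma dd_inj {η : D.P p} {ξ : D.P (p + 1)} (h : ξ.1 = extD η.1) :
    X.dd (D.inj p η) = D.inj (p + 1) ξ :=
  eq_inj (by rw [dd_empty, inj_self, h]) fun s q hq => funext fun x => by
    by_cases hx : x ∈ X.Vs s
    · cases q with
      | zero => rfl
      | succ q => rw [dd_succ _ _ hx, inj_ne η (by simpa using hq), extD_zero]; simp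
    · exact Sec.zero _ _ hx

variable [Countable G]

lemma trS_inj (γ : G) (η : D.P p) : X.trS γ (D.inj p η) = D.inj p ((D.trOp p γ).pre η) :=
  eq_inj (by rw [trS_apply, inj_self]; rfl) fun s q h => by rw [trS_apply, inj_ne η h]; rfl

lemma invS_inj (η : D.P p) : InvS D (D.inj p η) := fun γ hγ => by
  rw [trS_inj]; exact congrArg _ (Subtype.ext (P.inv η γ hγ))

omit [Countable G] in
lemma e0_eq_sum (σ : X.Sec) (η : ∀ p, D.P p) (h : ∀ p, (η p).1 = σ.v ∅ p) :
    X.e0 σ = ∑ p ∈ Finset.range (n + 1), D.inj p (η p) :=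
  Sec.ext fun s q x _ => by
    rcases lt_or_ge n q with hq | hq
    · exact (alt_eq_zero hq _).trans (alt_eq_zero hq _).symm
    rw [Sec.sum_val, Finset.sum_eq_single q (fun p _ hp => by rw [inj_ne _ (Or.inr hp.symm)]; rfl)
      (by simp; omega), e0_apply]
    split_ifs with hs
    · rw [hs, inj_self, h]
    · rw [inj_ne _ (Or.inl hs)]; rfl

/-- The operator on forms induced by an operator on the double complex. -/
def opP (D : FD X) {T : Module.End ℂ X.Sec} {c : ℝ} (h : GoodC T c) (p p' : ℕ) : Op D p D p' c where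
  T := Sec.comp ∅ p' ∘ₗ T ∘ₗ D.inj p
  c_nonneg := h.1
  smooth _ x := Sec.smooth _ _ (mem_Vs_empty x)
  inv η := (h.2.1.inv (invS_inj η)).inv _ _
  bound η := (le_nrmS D _ _ _).trans ((h.2.2 D _ (invS_inj η)).trans (by
    rw [← P.enorm_sq]; gcongr; exact nrmS_inj η))

lemma opP_val {T : Module.End ℂ X.Sec} {c : ℝ} (h : GoodC T c) (p' : ℕ) (η : D.P p) :
    ((D.opP h p p').pre η).1 = (T (D.inj p η)).v ∅ p' := rfl

lemma equi_opP {T : Module.End ℂ X.Sec} {c : ℝ} (h : GoodC T c) (p p' : ℕ) :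
    Equi (D.rep p) (D.rep p') (D.opP h p p').clm := fun q u => by
  induction u using Completion.induction_on with
  | hp => exact isClosed_eq (by fun_prop) (by fun_prop)
  | ih η =>
    rw [rep_out, Op.clm_coe, Op.clm_coe, rep_out]
    refine P.coe_congr ?_
    rw [opP_val, ← trS_inj, h.2.1]; rfl

lemma htp_of {T h : Module.End ℂ X.Sec} {c : ℝ} (hh : GoodC h c)
    (he : X.e0 = T + (X.dd * h + h * X.dd)) {T' : ∀ p, D.H p →L[ℂ] D.H p}
    (hT : ∀ p (η : D.P p), ∃ ζ : D.P p, T' p η = ζ ∧ ζ.1 = (T (D.inj p η)).v ∅ p) :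
    D.cx.Htp T' fun p => (D.opP hh (p + 1) p).clm := by
  have key : ∀ p (η : D.P p) (ξ : D.P (p + 1)), ξ.1 = extD η.1 → η.1 = (T (D.inj p η)).v ∅ p +
      ((X.dd (h (D.inj p η))).v ∅ p + (h (D.inj (p + 1) ξ)).v ∅ p) := fun p η ξ hξ => by
    rw [← dd_inj hξ]
    conv_lhs => rw [← inj_self η, ← e0_inj η, he]
    rfl
  refine ⟨fun x a hx => Gr_ind (R := fun x a => x = T' 0 x + (D.opP hh 1 0).clm a)
    (isClosed_eq (by fun_prop) (by fun_prop)) (fun η ξ hξ => ?_) hx, fun p x a hx =>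
    Gr_ind (R := fun x a => ((D.opP hh (p + 1) p).clm x,
      x - T' (p + 1) x - (D.opP hh (p + 2) (p + 1)).clm a) ∈ D.Gr p)
    (closed_Gr.preimage (f := fun z : D.H (p + 1) × D.H (p + 2) => ((D.opP hh (p + 1) p).clm z.1,
      z.1 - T' (p + 1) z.1 - (D.opP hh (p + 2) (p + 1)).clm z.2)) (by fun_prop))
    (fun η ξ hξ => ?_) hx⟩
  · obtain ⟨ζ, h1, h2⟩ := hT 0 η
    rw [h1, Op.clm_coe, ← P.coe_add]
    refine P.coe_congr ((key 0 η ξ hξ).trans ?_)
    rw [dd_zero, zero_add, ← h2]; rfl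
  · obtain ⟨ζ, h1, h2⟩ := hT (p + 1) η
    rw [h1, Op.clm_coe, Op.clm_coe, ← P.coe_sub, ← P.coe_sub]
    refine mem_Gr ?_
    change η.1 - ζ.1 - (h (D.inj (p + 2) ξ)).v ∅ (p + 1) = _
    rw [opP_val, ← dd_empty, key _ η ξ hξ, h2]
    abel

end FD

variable [Countable G]

/-- Local bounds give uniform bounds. -/
lemma bd_of_local {T : Module.End ℂ X.Sec} (hT : Eqv T) (h0 : X.e0 * T = 0) {C : ℝ≥0∞} (k : ℕ)
    (h : ∀ (σ : X.Sec) (s : Finset (Fin X.m)) (hs : s.Nonempty) (p : ℕ),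
      ∫⁻ x in X.U (s.min' hs), ENNReal.ofReal (nsq X.g x ((T σ).v s p x)) ∂X.μ ≤
        C * ∫⁻ x in X.U (s.min' hs), ENNReal.ofReal (nsq X.g x (σ.v s (p + k) x)) ∂X.μ) :
    Bd T C := fun D σ hσ => iSup₂_le fun s p => by
  rcases s.eq_empty_or_nonempty with rfl | hs
  · have : (T σ).v ∅ p = 0 := congrFun (congrFun (congrArg Sec.v (LinearMap.congr_fun h0 σ)) ∅) p
    simp [this, FD.nrm]
  refine le_trans ?_ (mul_le_mul_right (le_nrmS D σ s (p + k)) C)
  rw [nrm_eq_tsum (hT.inv hσ) (s.min'_mem hs), nrm_eq_tsum hσ (s.min'_mem hs),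
    ← ENNReal.tsum_mul_left]
  exact ENNReal.tsum_le_tsum fun q => by rw [← hT]; exact h _ s hs p

end Pool.Agent.MP_d9582c_gt.H34
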