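import Pool.Agent.MP_d9582c_gt.H34.Smooth

/-!
The bounded homotopy equivalence with the Čech complex.
-/

open scoped Manifold ContDiff Topology ENNReal InnerProductSpace
open MeasureTheory Set Filter UniformSpace

noncomputable section

namespace Pool.Agent.MP_d9582c_gt.H34

universe u v

section L2

variable {Q : Type*} {r : ℕ}

lemma l2r_enorm_sq (u : L2r Q r) : ‖u‖ₑ ^ 2 = ∑ j, ∑' q, ‖u j q‖ₑ ^ 2 := by
  simp only [enorm_sq_eq]
  rw [PiLp.norm_sq_eq_of_L2, ENNReal.ofReal_sum_of_nonneg fun _ _ => sq_nonneg _]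
  refine Finset.sum_congr rfl fun j _ => ?_
  have h := lp.hasSum_norm (p := 2) (by simp) (u j)
  simp only [ENNReal.toReal_ofNat, Real.rpow_ofNat] at h
  rw [← ENNReal.ofReal_tsum_of_nonneg (fun _ => sq_nonneg _) h.summable, h.tsum_eq]

lemma exists_l2r (w : Fin r → Q → ℂ) (h : ∑ j, ∑' q, ‖w j q‖ₑ ^ 2 ≠ ⊤) :
    ∃ u : L2r Q r, ∀ j q, u j q = w j q := by
  refine ⟨WithLp.toLp 2 fun j => ⟨w j, memℓp_gen ?_⟩, fun _ _ => rfl⟩
  simpa using ENNReal.summable_toReal (ENNReal.sum_ne_top.1 h j (Finset.mem_univ j))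

lemma l2r_ext {u u' : L2r Q r} (h : ∀ j q, u j q = u' j q) : u = u' :=
  PiLp.ext fun j => lp.ext (funext (h j))

lemma continuous_l2r_apply (j : Fin r) (q : Q) : Continuous fun u : L2r Q r => u j q :=
  (lp.lipschitzWith_one_eval 2 q).continuous.comp (by fun_prop)

lemma exists_lin {B Y Z : Type*} [SeminormedAddCommGroup B] [NormedSpace ℂ B]
    [SeminormedAddCommGroup Y] [NormedSpace ℂ Y] [AddCommGroup Z] [Module ℂ Z] {J : Y →ₗ[ℂ] Z}
    (hJ : Function.Injective J) (Θ : B →ₗ[ℂ] Z) {c : ℝ} (hc : 0 ≤ c)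
    (h : ∀ a, ∃ w, J w = Θ a ∧ ‖w‖ₑ ^ 2 ≤ ENNReal.ofReal (c ^ 2) * ‖a‖ₑ ^ 2) :
    ∃ f : B →ₗ[ℂ] Y, (∀ a, J (f a) = Θ a) ∧ ∀ a, ‖f a‖ ≤ c * ‖a‖ := by
  choose f hf hf' using h
  exact ⟨⟨⟨f, fun a b => hJ (by simp [hf])⟩, fun c a => hJ (by simp [hf])⟩, hf,
    fun a => norm_le_of_enorm_sq hc (hf' a)⟩

end L2

variable {n p : ℕ} {M : Type u} [TopologicalSpace M] [ChartedSpace (E n) M]
  {G : Type v} [Group G] [MulAction G M] [IsManifold 𝓘(ℝ, E n) ∞ M] [MeasurableSpace M]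
  [BorelSpace M] {X : Geo n G M} [Countable G]

open Geo FD

omit [BorelSpace M] [Countable G] in
lemma trS_zero_apply (γ : G) (σ : X.Sec) (s x) :
    (X.trS γ σ).v s 0 x ![] = σ.v s 0 (γ⁻¹ • x) ![] :=
  congrArg (σ.v s 0 (γ⁻¹ • x)) (Subsingleton.elim _ _)

omit [MeasurableSpace M] [BorelSpace M] in
lemma nsq_zero_form (g : RMetric n M) (x : M) (α : Alt n 0) :
    ENNReal.ofReal (nsq g x α) = ‖α ![]‖ₑ ^ 2 := by
  rw [enorm_sq_eq, nsq, Fintype.sum_unique, Subsingleton.elim (frame g x ∘ _) ![]]; simp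

omit [BorelSpace M] [Countable G] in
/-- The filtration by the degree of forms. -/
lemma nilpotent_of_lower {T : Module.End ℂ X.Sec}
    (h : ∀ (σ : X.Sec) p, (∀ s, σ.v s (p + 1) = 0) → ∀ s, (T σ).v s p = 0) : IsNilpotent T := by
  have key : ∀ (k : ℕ) (σ : X.Sec) p, n < p + k → ∀ s, ((T ^ k) σ).v s p = 0 := fun k => by
    induction k with
    | zero => exact fun σ p hp s => funext fun x => alt_eq_zero hp _
    | succ k ih =>
      intro σ p hp
      rw [pow_succ']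
      exact h _ p (ih σ (p + 1) (by omega))
  exact ⟨n + 1, LinearMap.ext fun σ => Sec.ext fun s p x _ =>
    congrFun (key (n + 1) σ p (by omega) s) x⟩

omit [BorelSpace M] [Countable G] in
lemma del_eq_zero {σ : X.Sec} (h : ∀ s, σ.v s p = 0) (s) : (X.del σ).v s p = 0 := funext fun x => by
  by_cases hx : x ∈ X.Vs s
  · simp [del_apply σ p hx, h]
  · exact Sec.zero _ _ hx

theorem cech (hcar : CarStmt.{u, v}) (hcone : ConeStmt.{u, v}) (hco : CochainStmt.{u, v})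
    (hl2 : L2Stmt.{v}) : CechStmt.{u, v} := by
  intro n M _ _ G _ _ _ _ _ _ X
  obtain ⟨h, hg, hh, he⟩ := rows hcar X
  obtain ⟨h1, h2, h3, h4, h5, h6, -, gd, ge, -⟩ := hcar n M G X
  obtain ⟨C, K', S', hPC, hK⟩ := hcone n M G X
  obtain ⟨k1, k2, k3, k4, k5, k6⟩ := hK 1 ⟨one_pos, le_rfl⟩
  set K := K' 1
  set S := S' 1
  obtain ⟨r, A, t, ht, pt, I, C', i1, i2, i3, i4, i5, i6, i7⟩ := hco n M G X
  have gK : Good K := ⟨k4, _, ENNReal.ofReal_ne_top,
    bd_of_local k4 k2 1 fun σ s hs p => (k6 σ s hs p).2.1⟩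
  have gS : Good S := good_of_pointwise k5 k3 fun σ s hs p => (k6 σ s hs p).2.2
  have Kz : ∀ (σ : X.Sec) p, (∀ s, σ.v s (p + 1) = 0) → ∀ s, (K σ).v s p = 0 := fun σ p hσ s => by
    rcases s.eq_empty_or_nonempty with rfl | hs
    · exact congrFun (congrFun (congrArg Sec.v (LinearMap.congr_fun k2 σ)) ∅) p
    · exact (k6 σ s hs p).1 (hσ s)
  have K0 : ∀ σ : X.Sec, (∀ s p, σ.v s (p + 1) = 0) → K σ = 0 ∧ K (X.del σ) = 0 := fun σ hσ =>
    ⟨Sec.ext fun s p x _ => congrFun (Kz σ p (hσ · p) s) x,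
      Sec.ext fun s p x _ => congrFun (Kz _ p (del_eq_zero (hσ · p)) s) x⟩
  obtain ⟨ρ, gρ, r1, r2⟩ := ((gd.mul gK).add (gK.mul gd)).inv (nilpotent_of_lower fun σ p hσ s => by
    have a := del_eq_zero (Kz σ p hσ) s
    have b := Kz _ p (del_eq_zero hσ) s
    exact (congrArg₂ (· + ·) a b).trans (add_zero _))
  have dS : X.dd * S = 0 := LinearMap.ext fun σ => by
    rw [Module.End.mul_apply, ← i3 _ (hPC σ)]; exact (i4 _).2
  have hf := alg_cols h1 h2 h3 h5 h6 k1 k2 dS (LinearMap.ext fun σ => (K0 _ (hPC σ).1).1)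
    (LinearMap.ext fun σ => (K0 _ (hPC σ).1).2) r1 r2
  have hs := alg_s h5 h6 hh
  have hr := alg_dr h2 h3 h6
  have er : X.e0 * (X.del * X.e0) = 0 := by rw [← mul_assoc, h5, zero_mul]
  have dSf : (X.dd + X.del) * (S * ρ) = X.del * (S * ρ) := by
    rw [add_mul, ← mul_assoc, dS, zero_mul, zero_add]
  have a1 : X.del * (S * ρ * (X.del * X.e0)) = -(S * ρ * (X.del * X.e0) * X.dd) := by
    rw [← mul_assoc, ← dSf, alg_comm h1 h2 h3 h6 h5 hf er, mul_assoc, hr]; noncomm_ring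
  have a2 : X.e0 = X.e0 * h * (S * ρ * (X.del * X.e0)) +
      (X.dd * -(X.e0 * h * (K * ρ) * (X.del * X.e0)) +
        -(X.e0 * h * (K * ρ) * (X.del * X.e0)) * X.dd) := by
    calc X.e0 = X.e0 * h * (X.del * X.e0) := (alg_sr h4 h5 h6 hh he).symm
      _ = X.e0 * h * (S * ρ * (X.del * X.e0)) + X.e0 * h * (1 - K * ρ * X.del) *
          (X.e0 * (X.del * X.e0)) + (X.dd * (X.e0 * h) + X.e0 * h * (X.dd + X.del)) * K * ρ *
          (X.del * X.e0) - X.dd * (X.e0 * h * (K * ρ) * (X.del * X.e0)) +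
          X.e0 * h * (K * ρ) * ((X.dd + X.del) * (X.del * X.e0)) := by rw [hf]; noncomm_ring
      _ = _ := by rw [er, hs, k2, hr]; noncomm_ring
  have eP : X.e0 * ((1 - X.e0) * h) = 0 := by rw [← mul_assoc, mul_sub, h4]; simp
  have a3 : S * ρ * (X.del * X.e0) * (X.e0 * h) = S * ρ * (1 - X.e0) -
      X.del * (S * (ρ * ((1 - X.e0) * h))) - S * (ρ * ((1 - X.e0) * h)) * (X.dd + X.del) := by
    have b := alg_comm h1 h2 h3 h6 h5 hf eP
    rw [dSf] at b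
    calc _ = S * ρ * (1 - X.e0) * ((X.dd + X.del) * h + h * (X.dd + X.del)) -
          S * ρ * (X.dd + X.del) * ((1 - X.e0) * h) - S * (ρ * ((1 - X.e0) * h)) * (X.dd + X.del) +
          S * ρ * (X.del * (X.e0 * X.e0 - X.e0) + (X.e0 * X.dd - X.dd * X.e0) + X.e0 * X.del) *
            h := by noncomm_ring
      _ = _ := by rw [hh, ← b, h4, h5, h6]; noncomm_ring
  have eI : ∀ c, X.e0 (I c) = 0 := fun c => Sec.ext fun s p x _ => by
    rw [e0_apply]
    split_ifs with hs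
    · cases p with
      | zero => rw [hs, (i4 c).1.2.1]; rfl
      | succ p => rw [(i4 c).1.1]; rfl
    · rfl
  have fI : ∀ c, S (ρ (I c)) = I c := fun c => by
    obtain ⟨b1, b2⟩ := K0 _ (i4 c).1.1
    have b3 := LinearMap.congr_fun r2 (I c)
    have b4 := LinearMap.congr_fun k1 (I c)
    simp [b1, b2, (i4 c).2, eI] at b3 b4
    rw [b3, b4]
  have sI : ∀ c, X.dd ((X.e0 * h) (I c)) = (X.e0 * h) (-X.del (I c)) := fun c => by
    have b := LinearMap.congr_fun hs (I c)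
    simp only [LinearMap.add_apply, Module.End.mul_apply, (i4 c).2, eI, zero_add] at b
    rw [map_neg, ← add_eq_zero_iff_eq_neg]; exact b
  obtain ⟨c, c0, c1, c2, c3, c4⟩ := ((eventually_ge_atTop (1 + |C'| + r * |C|)).and
    ((ge.mul hg).eventually.and ((gρ.mul (gd.mul ge)).eventually.and
      ((gρ.mul (((good_one.add ge.neg)).mul hg)).neg.eventually.and
        (((ge.mul hg).mul (gK.mul gρ)).mul (gd.mul ge)).neg.eventually)))).exists
  rw [← sub_eq_add_neg] at c3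
  have c5 : 1 ≤ c := le_trans (by have := abs_nonneg C; have := abs_nonneg C'; nlinarith) c0
  have c6 : ∀ z : ℝ, z ≤ c → ENNReal.ofReal z ≤ ENNReal.ofReal (c ^ 2) :=
    fun z hz => ENNReal.ofReal_le_ofReal (by nlinarith)
  refine ⟨r, A, c ^ 3, fun D => ?_⟩
  let Iq : L2r (G ⧸ D.N) r →ₗ[ℂ] X.Sec := I ∘ₗ
    { toFun := fun w j y => w j y, map_add' := fun _ _ => rfl, map_smul' := fun _ _ => rfl }
  have Iq_eq : ∀ w, Iq w = I fun j y => w j y := fun _ => rfl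
  have Iq_inj : Function.Injective Iq := fun w w' hw => l2r_ext fun j q => by
    rw [← QuotientGroup.out_eq' q, ← i2 (fun j y => w j y), ← Iq_eq, hw, Iq_eq, i2]
  have Iq_inv : ∀ w, InvS D (Iq w) := fun w γ hγ => by
    rw [Iq_eq, ← i5]
    congr with j y
    rw [QuotientGroup.mk_mul, (QuotientGroup.eq_one_iff _).2 (D.N.inv_mem hγ), one_mul]
  have Iq_le : ∀ w, nrmS D (Iq w) ≤ ENNReal.ofReal (c ^ 2) * ‖w‖ₑ ^ 2 := fun w =>
    (i7 D fun j q => w j q).trans (by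
      rw [l2r_enorm_sq]
      gcongr ?_ * _
      exact c6 _ (by have := abs_nonneg C; have := le_abs_self C'; nlinarith))
  have Iq_A : ∀ w, Iq (rmulMat (quotMat D.N A) w) = -X.del (Iq w) := fun w => by
    rw [Iq_eq, Iq_eq, ← i6]
    simp only [(hl2.2 G r A).1]
  have Iq_tr : ∀ (q : G ⧸ D.N) (w w' : L2r (G ⧸ D.N) r), (∀ i y, w' i y = w i (q⁻¹ * y)) →
      Iq w' = X.trS q.out (Iq w) := fun q w w' hw => by
    rw [Iq_eq, Iq_eq, ← i5]
    simp [hw]
  have ev : ∀ τ, InvS D τ → nrmS D τ ≠ ⊤ → ∃ w, Iq w = S τ ∧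
      ‖w‖ₑ ^ 2 ≤ ENNReal.ofReal (c ^ 2) * nrmS D τ := fun τ hτ hτ' => by
    have b : ∑ j, ∑' q : G ⧸ D.N, ‖(S τ).v (t j) 0 (q.out • pt j) ![]‖ₑ ^ 2 ≤
        ENNReal.ofReal (c ^ 2) * nrmS D τ := by
      refine (Finset.sum_le_card_nsmul _ _ (ENNReal.ofReal |C| * nrmS D τ) fun j _ => ?_).trans ?_
      · refine le_trans ?_ (mul_le_mul_right (le_nrmS D τ (t j) 0) _)
        rw [nrm_eq_tsum hτ ((t j).min'_mem (ht j)), ← ENNReal.tsum_mul_left]
        refine ENNReal.tsum_le_tsum fun q => ?_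
        have := (k6 (X.trS q.out⁻¹ τ) _ (ht j) 0).2.2 _ (i1 j)
        rw [nsq_zero_form, k5, trS_zero_apply, inv_inv, one_pow, div_one] at this
        refine this.trans ?_
        gcongr
        exact le_abs_self C
      · rw [nsmul_eq_mul, ← mul_assoc, ← ENNReal.ofReal_natCast,
          ← ENNReal.ofReal_mul (Nat.cast_nonneg _)]
        gcongr ?_ * _
        exact c6 _ (by have := abs_nonneg C'; simp; linarith)
    obtain ⟨w, hw⟩ := exists_l2r _ (ne_top_of_le_ne_top (by finiteness) b)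
    refine ⟨w, ?_, by simpa only [l2r_enorm_sq, hw] using b⟩
    rw [← i3 _ (hPC τ), Iq_eq]
    congr with j y
    obtain ⟨ν, hν⟩ := QuotientGroup.mk_out_eq_mul D.N y
    rw [hw, hν]
    conv_lhs => rw [← k5.inv hτ _ (D.normal.conj_mem _ ν.2 y), trS_zero_apply]
    simp [mul_smul]
  have cc : ENNReal.ofReal (c ^ 2) * ENNReal.ofReal (c ^ 2) ≤ ENNReal.ofReal ((c ^ 3) ^ 2) ∧
      ENNReal.ofReal (c ^ 2) * (ENNReal.ofReal (c ^ 2) * ENNReal.ofReal (c ^ 2)) =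
        ENNReal.ofReal ((c ^ 3) ^ 2) := by
    simp only [← ENNReal.ofReal_mul (sq_nonneg _)]
    exact ⟨ENNReal.ofReal_le_ofReal (by
      rw [← pow_add, ← pow_mul]; exact pow_le_pow_right₀ c5 (by norm_num)), by ring_nf⟩
  have c7 : 0 ≤ c ^ 3 := by positivity
  have := fun p => exists_lin Iq_inj (S ∘ₗ (ρ * (X.del * X.e0)) ∘ₗ D.inj p) c7 fun η => by
    have b := (c2.2.2 D _ (invS_inj η)).trans (mul_le_mul_right (nrmS_inj η) _)
    obtain ⟨w, hw, hw'⟩ := ev _ (c2.2.1.inv (invS_inj η)) (ne_top_of_le_ne_top (by finiteness) b)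
    exact ⟨w, hw, hw'.trans ((mul_le_mul_right b _).trans (by rw [← mul_assoc]; gcongr; exact cc.1))⟩
  choose f hf1 hf2 using this
  obtain ⟨k, hk1, hk2⟩ := exists_lin Iq_inj (S ∘ₗ (-(ρ * ((1 - X.e0) * h))) ∘ₗ Iq) c7 fun w => by
    have b := (c3.2.2 D _ (Iq_inv w)).trans (mul_le_mul_right (Iq_le w) _)
    obtain ⟨w', hw, hw'⟩ := ev _ (c3.2.1.inv (Iq_inv w)) (ne_top_of_le_ne_top (by finiteness) b)
    exact ⟨w', hw, hw'.trans ((mul_le_mul_right b _).trans (by rw [← cc.2]; simp [mul_assoc]))⟩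
  have := fun p => exists_lin (J := (P.val : D.P p →ₗ[ℂ] _)) Subtype.val_injective
    (Sec.comp ∅ p ∘ₗ (X.e0 * h) ∘ₗ Iq) c7 fun w => by
      have b := (le_nrmS D _ ∅ p).trans
        ((c1.2.2 D _ (Iq_inv w)).trans (mul_le_mul_right (Iq_le w) _))
      refine ⟨P.mk _ (fun x => Sec.smooth _ _ (mem_Vs_empty x)) ((c1.2.1.inv (Iq_inv w)).inv ∅ p)
        (ne_top_of_le_ne_top (by finiteness) b), rfl, ?_⟩
      rw [P.enorm_sq]
      exact b.trans (by rw [← mul_assoc]; gcongr; exact cc.1)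
  choose g hg1 hg2 using this
  replace hg1 : ∀ p w, (g p w).1 = ((X.e0 * h) (Iq w)).v ∅ p := hg1
  replace hf1 : ∀ p η, Iq (f p η) = (S * ρ * (X.del * X.e0)) (D.inj p η) := hf1
  have gd' : ∀ p w, (g (p + 1) (rmulMat (quotMat D.N A) w)).1 = extD (g p w).1 := fun p w => by
    rw [hg1, hg1, Iq_A, ← dd_empty, Iq_eq, sI]
  obtain ⟨F, hF, hF'⟩ : ∃ F : ∀ p, D.H p →L[ℂ] L2r (G ⧸ D.N) r,
      (∀ p (η : D.P p), F p η = f p η) ∧ ∀ p, ‖F p‖ ≤ c ^ 3 :=
    ⟨fun p => cext (f p) _ (hf2 p), fun _ _ => cext_coe .., fun _ => norm_cext_le _ c7 _⟩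
  obtain ⟨Γ, hΓ, hΓ'⟩ : ∃ Γ : ∀ p, L2r (G ⧸ D.N) r →L[ℂ] D.H p,
      (∀ p w, Γ p w = g p w) ∧ ∀ p, ‖Γ p‖ ≤ c ^ 3 :=
    ⟨fun p => Completion.toComplL ∘L (g p).mkContinuous _ (hg2 p), fun _ _ => rfl, fun p =>
      ContinuousLinearMap.opNorm_le_bound _ c7 fun w => (Completion.norm_coe _).trans_le (hg2 p w)⟩
  have t1 : ∀ w, w = ∑ p ∈ Finset.range (n + 1), F p (Γ p w) + k (rmulMat (quotMat D.N A) w) +
      rmulMat (quotMat D.N A) (k w) := fun w => Iq_inj <| by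
    have b := LinearMap.congr_fun a3 (Iq w)
    have b' : X.e0 ((X.e0 * h) (Iq w)) = (X.e0 * h) (Iq w) := by
      rw [← Module.End.mul_apply, ← mul_assoc, h4]
    rw [Module.End.mul_apply, ← b', e0_eq_sum _ (fun p => g p w) (hg1 · w), map_sum] at b
    simp only [map_add, map_sum, hΓ, hF, hf1, b, hk1, Iq_A, LinearMap.comp_apply]
    simp [Iq_eq, eI, fI, (i4 _).2]
    abel
  have t2 : ∀ p q x i y, F p (D.rep p q x) i y = F p x i (q⁻¹ * y) := fun p q x i y => by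
    induction x using Completion.induction_on with
    | hp =>
      exact isClosed_eq ((continuous_l2r_apply i y).comp ((F p).cont.comp (D.rep p q).continuous))
        ((continuous_l2r_apply i _).comp (F p).cont)
    | ih η =>
      rw [rep_out, hF, hF, ← QuotientGroup.out_eq' y, ← i2 (fun j y => f p _ j y),
        ← Iq_eq, hf1, ← trS_inj, ((k5.mul gρ.1).mul (gd.mul ge).1), ← hf1, Iq_eq, ← i5, i2]
      simp
  refine ⟨F, Γ, fun p => (D.opP c4 (p + 1) p).clm, k.mkContinuous _ hk2,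
    htp_of c4 a2 fun p η => ⟨g p (f p η), (congrArg (Γ p) (hF p η)).trans (hΓ p _), by rw [hg1, hf1]; rfl⟩,
    fun w => Iq_inj ?_, fun p x a hx => Gr_ind (R := fun x a => rmulMat (quotMat D.N A) (F p x) =
      F (p + 1) a) (isClosed_eq (by fun_prop) (by fun_prop)) (fun η ξ hξ => Iq_inj ?_) hx,
    fun p w => ?_, fun w => (hΓ 0 _).trans ?_, t1, fun p => ⟨hF' p, hΓ' p,
      (Op.norm_clm_le _).trans (le_self_pow₀ c5 three_ne_zero)⟩,
    LinearMap.mkContinuous_norm_le _ c7 _, t2, fun p q w w' hw => ?_⟩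
  · rw [Iq_A, Iq_A, map_neg, neg_neg, map_zero]; exact LinearMap.congr_fun h2 _
  · rw [hF, hF, Iq_A, hf1, hf1, ← dd_inj hξ, neg_eq_iff_eq_neg]
    exact LinearMap.congr_fun a1 _
  · change (Γ p w, Γ (p + 1) _) ∈ D.Gr p
    rw [hΓ, hΓ]
    exact mem_Gr (gd' p w)
  · refine (P.coe_congr (ξ := 0) ?_).trans Completion.coe_zero
    rw [hg1, Iq_A, Iq_eq, ← sI]; rfl
  · change Γ p w' = D.rep p q (Γ p w)
    rw [hΓ, hΓ, rep_out]
    refine P.coe_congr ?_
    rw [hg1, Iq_tr q w w' hw, c1.2.1, trS_apply, ← hg1]; rfl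

end Pool.Agent.MP_d9582c_gt.H34
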