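import Pool.Agent.MP_d9582c_gt.H34.Stmts4

/-!
The augmented Čech-de Rham double complex of the invariant cover.
-/

open scoped Manifold ContDiff Topology ENNReal Pointwise InnerProductSpace
open MeasureTheory Set Filter

noncomputable section

namespace Pool.Agent.MP_d9582c_gt.H34

universe u v

variable {n : ℕ} {M : Type u} [TopologicalSpace M] [ChartedSpace (E n) M]
  {G : Type v} [Group G] [MulAction G M] [IsManifold 𝓘(ℝ, E n) ∞ M] [MeasurableSpace M]

@[simp] lemma alt_smul_zero {p : ℕ} (c : ℂ) : c • (0 : Alt n p) = 0 := by ext; simp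

@[simp] lemma alt_rsmul_zero {p : ℕ} (c : ℝ) : c • (0 : Alt n p) = 0 := by ext; simp

omit [IsManifold 𝓘(ℝ, E n) ∞ M] [MeasurableSpace M] in
lemma smoothAt_indicator {p : ℕ} {W : Set M} (hW : IsOpen W) {η : M → Alt n p} {x : M}
    (hx : x ∈ W) (h : SmoothAt η x) : SmoothAt (W.indicator η) x :=
  h.congr (by filter_upwards [hW.mem_nhds hx] with y hy using indicator_of_mem hy _)

omit [IsManifold 𝓘(ℝ, E n) ∞ M] [MeasurableSpace M] in
lemma extD_indicator {p : ℕ} {W : Set M} (hW : IsOpen W) (η : M → Alt n p) {x : M}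
    (hx : x ∈ W) : extD (W.indicator η) x = extD η x :=
  extD_congr (by filter_upwards [hW.mem_nhds hx] with y hy using indicator_of_mem hy _)

namespace Geo

variable (X : Geo n G M)

/-- Intersections of the invariant open sets. -/
def Vs (s : Finset (Fin X.m)) : Set M := {x | ∀ a ∈ s, x ∈ X.V a}

/-- Families of forms that are smooth on the intersections and vanish outside. -/
def SecS : Submodule ℂ (Finset (Fin X.m) → (p : ℕ) → M → Alt n p) where
  carrier := {σ | ∀ s p x, (x ∈ X.Vs s → SmoothAt (σ s p) x) ∧ (x ∉ X.Vs s → σ s p x = 0)}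
  add_mem' h h' s p x := ⟨fun hx => ((h s p x).1 hx).add ((h' s p x).1 hx), fun hx => by
    simp [(h s p x).2 hx, (h' s p x).2 hx]⟩
  zero_mem' _ _ x := ⟨fun _ => smoothAt_zero x, fun _ => rfl⟩
  smul_mem' c _ h s p x := ⟨fun hx => ((h s p x).1 hx).smul c, fun hx => by simp [(h s p x).2 hx]⟩

/-- The type of these families. -/
def Sec : Type _ := X.SecS

instance : AddCommGroup X.Sec := inferInstanceAs (AddCommGroup X.SecS)

instance : Module ℂ X.Sec := inferInstanceAs (Module ℂ X.SecS)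

variable {X} {s : Finset (Fin X.m)} {x : M} {p : ℕ}

/-- The underlying family. -/
def Sec.v (σ : X.Sec) : Finset (Fin X.m) → (p : ℕ) → M → Alt n p := Subtype.val σ

/-- Constructor. -/
def Sec.mk (σ : Finset (Fin X.m) → (p : ℕ) → M → Alt n p)
    (h : ∀ s p x, (x ∈ X.Vs s → SmoothAt (σ s p) x) ∧ (x ∉ X.Vs s → σ s p x = 0)) : X.Sec := ⟨σ, h⟩

@[simp] lemma Sec.mk_v (σ h) : (Sec.mk (X := X) σ h).v = σ := rfl

@[simp] lemma Sec.add_val (σ τ : X.Sec) (s p x) : (σ + τ).v s p x = σ.v s p x + τ.v s p x := rfl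

@[simp] lemma Sec.sub_val (σ τ : X.Sec) (s p x) : (σ - τ).v s p x = σ.v s p x - τ.v s p x := rfl

@[simp] lemma Sec.neg_val (σ : X.Sec) (s p x) : (-σ).v s p x = -σ.v s p x := rfl

@[simp] lemma Sec.smul_val (c : ℂ) (σ : X.Sec) (s p x) : (c • σ).v s p x = c • σ.v s p x := rfl

@[simp] lemma Sec.zero_val (s p x) : (0 : X.Sec).v s p x = 0 := rfl

/-- A component of a family. -/
def Sec.comp (s : Finset (Fin X.m)) (p : ℕ) : X.Sec →ₗ[ℂ] M → Alt n p where
  toFun σ := σ.v s p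
  map_add' _ _ := rfl
  map_smul' _ _ := rfl

lemma Sec.sum_val {ι : Type*} (t : Finset ι) (σ : ι → X.Sec) (s p x) :
    (∑ i ∈ t, σ i).v s p x = ∑ i ∈ t, (σ i).v s p x :=
  (congrFun (map_sum (Sec.comp s p) σ t) x).trans (Finset.sum_apply _ _ _)

lemma isOpen_Vs (s : Finset (Fin X.m)) : IsOpen (X.Vs s) := by
  have : X.Vs s = ⋂ a ∈ s, X.V a := by ext; simp [Vs]
  rw [this]; exact isOpen_biInter_finset fun a _ => isOpen_V a

lemma smul_mem_Vs {γ : G} : γ • x ∈ X.Vs s ↔ x ∈ X.Vs s := by simp only [Vs, mem_ofPred, smul_mem_V]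

lemma Vs_mono {s t : Finset (Fin X.m)} (h : s ⊆ t) : X.Vs t ⊆ X.Vs s := fun _ hx a ha => hx a (h ha)

lemma mem_Vs_empty (x : M) : x ∈ X.Vs ∅ := fun _ h => absurd h (Finset.notMem_empty _)

lemma Sec.smooth (σ : X.Sec) (p : ℕ) (hx : x ∈ X.Vs s) : SmoothAt (σ.v s p) x := (σ.2 s p x).1 hx

lemma Sec.zero (σ : X.Sec) (p : ℕ) (hx : x ∉ X.Vs s) : σ.v s p x = 0 := (σ.2 s p x).2 hx

lemma Sec.eventually_smooth (σ : X.Sec) (p : ℕ) (hx : x ∈ X.Vs s) :
    ∀ᶠ y in 𝓝 x, SmoothAt (σ.v s p) y := by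
  filter_upwards [(isOpen_Vs s).mem_nhds hx] with y hy using Sec.smooth σ p hy

lemma Sec.ext {σ τ : X.Sec} (h : ∀ s p, ∀ x ∈ X.Vs s, σ.v s p x = τ.v s p x) : σ = τ :=
  Subtype.ext (funext fun s => funext fun p => funext fun x => by
    by_cases hx : x ∈ X.Vs s
    · exact h s p x hx
    · exact (Sec.zero σ p hx).trans (Sec.zero τ p hx).symm)

variable (X)

/-- Translation. -/
def trS (γ : G) : Module.End ℂ X.Sec where
  toFun σ := Sec.mk (fun s p => tr γ (σ.v s p)) fun _ p _ =>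
    ⟨fun hx => X.smoothAt_tr γ (Sec.smooth σ p (smul_mem_Vs.2 hx)),
      fun hx => tr_apply_eq_zero γ (Sec.zero σ p (mt smul_mem_Vs.1 hx))⟩
  map_add' _ _ := rfl
  map_smul' _ _ := rfl

/-- The exterior derivative with a sign, on families. -/
def ddRaw (σ : X.Sec) (s : Finset (Fin X.m)) : (p : ℕ) → M → Alt n p
  | 0 => 0
  | p + 1 => (X.Vs s).indicator ((-1 : ℂ) ^ s.card • extD (σ.v s p))

lemma ddRaw_succ (σ : X.Sec) (p : ℕ) (hx : x ∈ X.Vs s) :
    X.ddRaw σ s (p + 1) x = (-1 : ℂ) ^ s.card • extD (σ.v s p) x := indicator_of_mem hx _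

lemma ddRaw_mem (σ : X.Sec) : X.ddRaw σ ∈ X.SecS := fun s p x => by
  cases p with
  | zero => exact ⟨fun _ => smoothAt_zero x, fun _ => rfl⟩
  | succ p => exact ⟨fun hx => smoothAt_indicator (isOpen_Vs s) hx
      ((smoothAt_extD (Sec.eventually_smooth σ p hx)).smul _), fun hx => indicator_of_notMem hx _⟩

/-- The vertical differential. -/
def dd : Module.End ℂ X.Sec where
  toFun σ := Sec.mk (X.ddRaw σ) (X.ddRaw_mem σ)
  map_add' σ τ := Sec.ext fun s p x hx => by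
    cases p with
    | zero => exact (add_zero _).symm
    | succ p =>
      change X.ddRaw (σ + τ) s (p + 1) x = X.ddRaw σ s (p + 1) x + X.ddRaw τ s (p + 1) x
      rw [X.ddRaw_succ _ _ hx, X.ddRaw_succ _ _ hx, X.ddRaw_succ _ _ hx,
        show (σ + τ).v s p = σ.v s p + τ.v s p from rfl,
        extD_add (Sec.smooth σ p hx) (Sec.smooth τ p hx), smul_add]
  map_smul' c σ := Sec.ext fun s p x hx => by
    cases p with
    | zero => exact (alt_smul_zero c).symm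
    | succ p =>
      change X.ddRaw (c • σ) s (p + 1) x = c • X.ddRaw σ s (p + 1) x
      rw [X.ddRaw_succ _ _ hx, X.ddRaw_succ _ _ hx, smul_comm, ← extD_smul (Sec.smooth σ p hx)]
      rfl

/-- The sign of `a` in `s`. -/
def sgn {m : ℕ} (a : Fin m) (s : Finset (Fin m)) : ℂ := (-1) ^ (s.filter (· < a)).card

/-- The Čech differential. -/
def del : Module.End ℂ X.Sec where
  toFun σ := Sec.mk
    (fun s p => (X.Vs s).indicator fun x => ∑ a ∈ s, sgn a s • σ.v (s.erase a) p x) fun s p _ => ⟨fun hx => smoothAt_indicator (isOpen_Vs s) hx (smoothAt_sum fun a _ =>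
      (Sec.smooth σ p (Vs_mono (s.erase_subset a) hx)).smul _),
      fun hx => indicator_of_notMem hx _⟩
  map_add' σ τ := Sec.ext fun s p x hx => by
    simp [indicator_of_mem hx, Finset.sum_add_distrib]
  map_smul' c σ := Sec.ext fun s p x hx => by
    simp [indicator_of_mem hx, Finset.smul_sum, smul_comm c]

/-- The projection to the global forms. -/
def e0 : Module.End ℂ X.Sec where
  toFun σ := Sec.mk (fun s => if s = ∅ then σ.v s else 0) fun s p x => by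
    split_ifs
    · exact σ.2 s p x
    · exact ⟨fun _ => smoothAt_zero x, fun _ => rfl⟩
  map_add' σ τ := Sec.ext fun s p x _ => by by_cases h : s = ∅ <;> simp [h]
  map_smul' c σ := Sec.ext fun s p x _ => by by_cases h : s = ∅ <;> simp [h]

variable {X}

lemma trS_apply (γ : G) (σ : X.Sec) (s p) : (X.trS γ σ).v s p = tr γ (σ.v s p) := rfl

lemma dd_zero (σ : X.Sec) (s) : (X.dd σ).v s 0 = 0 := rfl

lemma dd_succ (σ : X.Sec) (p : ℕ) (hx : x ∈ X.Vs s) :
    (X.dd σ).v s (p + 1) x = (-1 : ℂ) ^ s.card • extD (σ.v s p) x := X.ddRaw_succ σ p hx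

lemma del_apply (σ : X.Sec) (p : ℕ) (hx : x ∈ X.Vs s) :
    (X.del σ).v s p x = ∑ a ∈ s, sgn a s • σ.v (s.erase a) p x :=
  indicator_of_mem hx fun x => ∑ a ∈ s, sgn a s • σ.v (s.erase a) p x

lemma e0_apply (σ : X.Sec) (s) : (X.e0 σ).v s = if s = ∅ then σ.v s else 0 := rfl

/-- Piecewise constant functions: Čech cochains. -/
def PC (τ : X.Sec) : Prop :=
  (∀ s p, τ.v s (p + 1) = 0) ∧ τ.v ∅ 0 = 0 ∧ ∀ s, ∀ x ∈ X.Vs s, ∀ y ∈ X.Vs s,
    (∀ a ∈ s, X.idx a x = X.idx a y) → τ.v s 0 x ![] = τ.v s 0 y ![]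

/-- The squared norm of a family. -/
def nrmS (D : FD X) (σ : X.Sec) : ℝ≥0∞ := ⨆ s, ⨆ p, D.nrm (σ.v s p)

/-- Invariant families. -/
def InvS (D : FD X) (σ : X.Sec) : Prop := ∀ γ ∈ D.N, X.trS γ σ = σ

/-- Equivariant operators. -/
def Eqv (T : Module.End ℂ X.Sec) : Prop := ∀ (γ : G) σ, T (X.trS γ σ) = X.trS γ (T σ)

/-- Uniform bounds. -/
def Bd (T : Module.End ℂ X.Sec) (C : ℝ≥0∞) : Prop :=
  ∀ (D : FD X) σ, InvS D σ → nrmS D (T σ) ≤ C * nrmS D σ

/-- Equivariant and uniformly bounded operators. -/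
def Good (T : Module.End ℂ X.Sec) : Prop := Eqv T ∧ ∃ C ≠ ⊤, Bd T C

lemma le_nrmS (D : FD X) (σ : X.Sec) (s p) : D.nrm (σ.v s p) ≤ nrmS D σ :=
  le_iSup₂ (f := fun s p => D.nrm (σ.v s p)) s p

lemma InvS.inv {D : FD X} {σ : X.Sec} (h : InvS D σ) (s p) : D.Inv (σ.v s p) :=
  fun γ hγ => congrFun (congrFun (congrArg Sec.v (h γ hγ)) s) p

lemma Eqv.inv {T : Module.End ℂ X.Sec} (hT : Eqv T) {D : FD X} {σ : X.Sec} (h : InvS D σ) :
    InvS D (T σ) := fun γ hγ => by rw [← hT, h γ hγ]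

lemma Eqv.mul {T T' : Module.End ℂ X.Sec} (h : Eqv T) (h' : Eqv T') : Eqv (T * T') :=
  fun γ σ => by rw [Module.End.mul_apply, h', h]; rfl

lemma Eqv.add {T T' : Module.End ℂ X.Sec} (h : Eqv T) (h' : Eqv T') : Eqv (T + T') :=
  fun γ σ => by simp [h γ σ, h' γ σ]

lemma Eqv.neg {T : Module.End ℂ X.Sec} (h : Eqv T) : Eqv (-T) := fun γ σ => by simp [h γ σ]

lemma Bd.mul {T T' : Module.End ℂ X.Sec} {C C' : ℝ≥0∞} (h : Bd T C) (h' : Bd T' C')
    (he : Eqv T') : Bd (T * T') (C * C') := fun D σ hσ =>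
  (h D _ (he.inv hσ)).trans (by rw [mul_assoc]; gcongr; exact h' D σ hσ)

lemma nrmS_neg (D : FD X) (σ : X.Sec) : nrmS D (-σ) = nrmS D σ := by
  refine iSup_congr fun s => iSup_congr fun p => lintegral_congr fun x => ?_
  rw [show (-σ).v s p x = (-1 : ℝ) • σ.v s p x by rw [alt_neg_rsmul, one_smul]; rfl, nsq_rsmul]
  simp

lemma Bd.neg {T : Module.End ℂ X.Sec} {C : ℝ≥0∞} (h : Bd T C) : Bd (-T) C := fun D σ hσ => by
  rw [LinearMap.neg_apply, nrmS_neg]; exact h D σ hσ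

lemma Good.mul {T T' : Module.End ℂ X.Sec} (h : Good T) (h' : Good T') : Good (T * T') := by
  obtain ⟨h1, C, hC, h2⟩ := h
  obtain ⟨h1', C', hC', h2'⟩ := h'
  exact ⟨h1.mul h1', C * C', ENNReal.mul_ne_top hC hC', h2.mul h2' h1'⟩

lemma Good.neg {T : Module.End ℂ X.Sec} (h : Good T) : Good (-T) :=
  ⟨h.1.neg, h.2.imp fun _ h => ⟨h.1, h.2.neg⟩⟩

lemma good_one : Good (1 : Module.End ℂ X.Sec) :=
  ⟨fun _ _ => rfl, 1, ENNReal.one_ne_top, fun _ _ _ => (one_mul _).ge⟩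

lemma good_zero : Good (0 : Module.End ℂ X.Sec) :=
  ⟨fun _ _ => by simp, 0, ENNReal.zero_ne_top, fun _ _ _ => by simp [nrmS, FD.nrm]⟩

lemma Good.pow {T : Module.End ℂ X.Sec} (h : Good T) (k : ℕ) : Good (T ^ k) := by
  induction k with
  | zero => exact good_one
  | succ k ih => rw [pow_succ]; exact ih.mul h

variable [BorelSpace M]

lemma Sec.measurable (σ : X.Sec) (s p) :
    Measurable fun x => ENNReal.ofReal (nsq X.g x (σ.v s p x)) := by
  classical
  have : (fun x => nsq X.g x (σ.v s p x)) =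
      (X.Vs s).piecewise (fun x => nsq X.g x (σ.v s p x)) 0 := funext fun x => by
    by_cases hx : x ∈ X.Vs s
    · simp [hx]
    · simp [hx, Sec.zero σ p hx]
  refine Measurable.ennreal_ofReal ?_
  rw [this]
  exact ContinuousOn.measurable_piecewise
    (fun x hx => (continuousAt_nsq X.g (Sec.smooth σ p hx)).continuousWithinAt) continuousOn_const
    (isOpen_Vs s).measurableSet

lemma nrmS_add_le (D : FD X) (σ τ : X.Sec) : nrmS D (σ + τ) ≤ 2 * nrmS D σ + 2 * nrmS D τ := by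
  refine iSup₂_le fun s p => le_trans ?_
    (add_le_add (mul_le_mul_right (le_nrmS D σ s p) 2) (mul_le_mul_right (le_nrmS D τ s p) 2))
  rw [FD.nrm, FD.nrm, FD.nrm, ← lintegral_const_mul' _ _ ENNReal.ofNat_ne_top,
    ← lintegral_const_mul' _ _ ENNReal.ofNat_ne_top,
    ← lintegral_add_left ((Sec.measurable σ s p).const_mul 2)]
  refine lintegral_mono fun x => (ENNReal.ofReal_le_ofReal
    (nsq_add_le X.g x (σ.v s p x) (τ.v s p x))).trans ?_
  refine ENNReal.ofReal_add_le.trans (le_of_eq ?_)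
  rw [ENNReal.ofReal_mul zero_le_two, ENNReal.ofReal_mul zero_le_two, ENNReal.ofReal_ofNat]

lemma Good.add {T T' : Module.End ℂ X.Sec} (h : Good T) (h' : Good T') : Good (T + T') := by
  obtain ⟨h1, C, hC, h2⟩ := h
  obtain ⟨h1', C', hC', h2'⟩ := h'
  refine ⟨h1.add h1', 2 * C + 2 * C', by finiteness, fun D σ hσ => (nrmS_add_le D _ _).trans ?_⟩
  rw [add_mul, mul_assoc, mul_assoc]
  gcongr
  exacts [h2 D σ hσ, h2' D σ hσ]

lemma good_sum {ι : Type*} {t : Finset ι} {T : ι → Module.End ℂ X.Sec} (h : ∀ i ∈ t, Good (T i)) :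
    Good (∑ i ∈ t, T i) := Finset.sum_induction _ _ (fun _ _ => Good.add) good_zero h

/-- Unfolding of the norm of an invariant family over a piece of the cover. -/
lemma nrm_eq_tsum [Countable G] {D : FD X} {σ : X.Sec} (h : InvS D σ) {a : Fin X.m} (ha : a ∈ s)
    (p : ℕ) : D.nrm (σ.v s p) = ∑' q : G ⧸ D.N, ∫⁻ x in X.U a,
      ENNReal.ofReal (nsq X.g x ((X.trS q.out⁻¹ σ).v s p x)) ∂X.μ := by
  simp only [trS_apply, X.nsq_tr, inv_inv]
  exact D.lintegral_V a (f := fun x => ENNReal.ofReal (nsq X.g x (σ.v s p x)))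
    (fun γ hγ x => by rw [(h.inv s p).nsq hγ])
    fun x hx => by rw [Sec.zero σ p fun h => hx (h a ha), nsq_zero, ENNReal.ofReal_zero]

end Geo

open Geo

/-- The relations between the two differentials and the contraction of the rows. -/
def CarStmt : Prop :=
  ∀ (n : ℕ) (M : Type u) [TopologicalSpace M] [ChartedSpace (E n) M] (G : Type v) [Group G]
    [MulAction G M] [IsManifold 𝓘(ℝ, E n) ∞ M] [MeasurableSpace M] [BorelSpace M] [Countable G]
    (X : Geo n G M), X.dd * X.dd = 0 ∧ X.del * X.del = 0 ∧ X.dd * X.del + X.del * X.dd = 0 ∧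
      X.e0 * X.e0 = X.e0 ∧ X.e0 * X.del = 0 ∧ X.e0 * X.dd = X.dd * X.e0 ∧
      Eqv X.dd ∧ Good X.del ∧ Good X.e0 ∧ ∃ Q : Module.End ℂ X.Sec,
        X.del * Q + Q * X.del = 1 ∧ Q * X.e0 = 0 ∧ Good Q ∧ Good (X.dd * Q + Q * X.dd) ∧
          IsNilpotent (X.dd * Q + Q * X.dd)

/-- The contraction of the columns at scale `δ`. -/
def ConeStmt : Prop :=
  ∀ (n : ℕ) (M : Type u) [TopologicalSpace M] [ChartedSpace (E n) M] (G : Type v) [Group G]
    [MulAction G M] [IsManifold 𝓘(ℝ, E n) ∞ M] [MeasurableSpace M] [BorelSpace M] [Countable G]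
    (X : Geo n G M), ∃ (C : ℝ) (K S : ℝ → Module.End ℂ X.Sec), (∀ σ, PC (S 1 σ)) ∧
      ∀ δ ∈ Ioc (0 : ℝ) 1, X.dd * K δ + K δ * X.dd + S δ = 1 - X.e0 ∧ X.e0 * K δ = 0 ∧
        X.e0 * S δ = 0 ∧ Eqv (K δ) ∧ Eqv (S δ) ∧
        ∀ (σ : X.Sec) (s : Finset (Fin X.m)) (hs : s.Nonempty) (p : ℕ),
          (σ.v s (p + 1) = 0 → (K δ σ).v s p = 0) ∧
          ∫⁻ x in X.U (s.min' hs), ENNReal.ofReal (nsq X.g x ((K δ σ).v s p x)) ∂X.μ ≤
            ENNReal.ofReal (C * δ ^ 2) *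
              ∫⁻ x in X.U (s.min' hs), ENNReal.ofReal (nsq X.g x (σ.v s (p + 1) x)) ∂X.μ ∧
          ∀ x ∈ X.U (s.min' hs), ENNReal.ofReal (nsq X.g x ((S δ σ).v s p x)) ≤
            ENNReal.ofReal (C / δ ^ n) *
              ∫⁻ y in X.U (s.min' hs), ENNReal.ofReal (nsq X.g y (σ.v s p y)) ∂X.μ

/-- Čech cochains as functions on finitely many copies of the group. -/
def CochainStmt : Prop :=
  ∀ (n : ℕ) (M : Type u) [TopologicalSpace M] [ChartedSpace (E n) M] (G : Type v) [Group G]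
    [MulAction G M] [IsManifold 𝓘(ℝ, E n) ∞ M] [MeasurableSpace M] [BorelSpace M] [Countable G]
    (X : Geo n G M), ∃ (r : ℕ) (A : Matrix (Fin r) (Fin r) (MonoidAlgebra ℚ G))
      (t : Fin r → Finset (Fin X.m)) (ht : ∀ j, (t j).Nonempty) (pt : Fin r → M)
      (I : (Fin r → G → ℂ) →ₗ[ℂ] X.Sec) (C : ℝ), (∀ j, pt j ∈ X.U ((t j).min' (ht j))) ∧
      (∀ c j y, (I c).v (t j) 0 (y • pt j) ![] = c j y) ∧
      (∀ τ, PC τ → I (fun j y => τ.v (t j) 0 (y • pt j) ![]) = τ) ∧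
      (∀ c, PC (I c) ∧ X.dd (I c) = 0) ∧
      (∀ c (γ : G), I (fun j y => c j (γ⁻¹ * y)) = X.trS γ (I c)) ∧
      (∀ c, I (fun j y => ∑ i, (A i j).coeff.sum fun x a => (a : ℂ) * c i (y * x⁻¹)) =
        -X.del (I c)) ∧
      ∀ (D : FD X) (w : Fin r → G ⧸ D.N → ℂ),
        nrmS D (I fun j y => w j y) ≤ ENNReal.ofReal C * ∑ j, ∑' q, ‖w j q‖ₑ ^ 2

end Pool.Agent.MP_d9582c_gt.H34
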