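import Pool.Agent.MP_d9582c_gt.H34.Op

/-!
Fuglede-Kadison determinants on the concrete Hilbert space `L²(Q)^r`.
-/

open scoped InnerProductSpace ENNReal CompactlySupported Topology
open MeasureTheory Set Filter

noncomputable section

namespace Pool.Agent.MP_d9582c_gt.H34

section Det

variable {Q : Type*} [Group Q]

/-- The Hilbert space `L²(Q)`. -/
abbrev L2 (Q : Type*) := lp (fun _ : Q => ℂ) 2

/-- The Hilbert space `L²(Q)^r`. -/
abbrev L2r (Q : Type*) (r : ℕ) := PiLp 2 fun _ : Fin r => L2 Q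

/-- Composition with a permutation as an operator on `L²(Q)`. -/
def compEquiv {Q : Type*} (e : Q ≃ Q) : L2 Q →L[ℂ] L2 Q :=
  LinearMap.mkContinuous
    { toFun := fun u => ⟨fun y => u (e y), memℓp_gen
        ((e.summable_iff (f := fun y => ‖u y‖ ^ (2 : ℝ≥0∞).toReal)).2
          ((lp.memℓp u).summable (by simp)))⟩
      map_add' := fun _ _ => rfl
      map_smul' := fun _ _ => rfl } 1
    fun u => by
      rw [one_mul, lp.norm_eq_tsum_rpow (by simp), lp.norm_eq_tsum_rpow (by simp) u,
        ← e.tsum_eq fun y => ‖u y‖ ^ (2 : ℝ≥0∞).toReal]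
      rfl

/-- Right multiplication by an element of the rational group ring on `L²(Q)`:
`(u * x) y = u (y * x⁻¹)` for a group element `x`. -/
def rmul (a : MonoidAlgebra ℚ Q) : L2 Q →L[ℂ] L2 Q :=
  a.coeff.sum fun x c => (c : ℂ) • compEquiv (Equiv.mulRight x⁻¹)

/-- Right multiplication by a matrix: `(u A) j = ∑ i, (u i) * A i j`. -/
def rmulMat {r s : ℕ} (A : Matrix (Fin r) (Fin s) (MonoidAlgebra ℚ Q)) :
    L2r Q r →L[ℂ] L2r Q s :=
  (PiLp.continuousLinearEquiv 2 ℂ fun _ : Fin s => L2 Q).symm.toContinuousLinearMap ∘L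
    ContinuousLinearMap.pi fun j => ∑ i, rmul (A i j) ∘L PiLp.proj 2 (fun _ : Fin r => L2 Q) i

open Classical in
/-- The standard basis of `L²(Q)^r` over the group von Neumann algebra. -/
def stdVec (Q : Type*) [Group Q] (r : ℕ) (i : Fin r) : L2r Q r :=
  PiLp.single 2 i (lp.single 2 1 1)

/-- The spectral measure of `r_A* r_A` for the von Neumann trace; the spectral density function
of `r_A` at `l` is the measure of the interval from `0` to `l ^ 2`. -/
def matMeasure {r s : ℕ} (A : Matrix (Fin r) (Fin s) (MonoidAlgebra ℚ Q)) : Measure ℝ :=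
  specMeasure (ContinuousLinearMap.adjoint (rmulMat A) ∘L rmulMat A) (stdVec Q r)

open Classical in
/-- The Fuglede-Kadison determinant of right multiplication by `A`. -/
def fkDet {r s : ℕ} (A : Matrix (Fin r) (Fin s) (MonoidAlgebra ℚ Q)) : ℝ :=
  if IntegrableOn Real.log (Ioi 0) (matMeasure A) then
    Real.exp (2⁻¹ * ∫ x in Ioi 0, Real.log x ∂(matMeasure A)) else 0

/-- The Approximation Conjecture for Fuglede-Kadison determinants for the group `G`. -/
def DetApprox (G : Type*) [Group G] : Prop :=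
  ∀ (N : ℕ → Subgroup G) [∀ i, (N i).Normal], IsChain N →
    ∀ (r s : ℕ) (A : Matrix (Fin r) (Fin s) (MonoidAlgebra ℚ G)),
      Tendsto (fun i => fkDet (quotMat (N i) A)) atTop (𝓝 (fkDet A))

end Det

end Pool.Agent.MP_d9582c_gt.H34
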