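import Pool.Agent.MP_d9582c_gt.H34.Ip
import Pool.Agent.MP_d9582c_gt.H34.DefsA

/-!
The `L²` de Rham complex of the quotient of `M` by a normal subgroup `N` of `G` and its analytic
`L²`-torsion over `G / N`.  Forms on the quotient are identified with `N`-invariant forms on `M`
and integrals over the quotient with integrals over a fundamental domain `F` of `N`.
-/

open scoped Manifold ContDiff ComplexConjugate InnerProductSpace ENNReal Topology
open MeasureTheory Set Filter UniformSpace

noncomputable section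

namespace Pool.Agent.MP_d9582c_gt.H34

variable {n : ℕ} {M : Type*} [TopologicalSpace M] [ChartedSpace (E n) M]
  [IsManifold 𝓘(ℝ, E n) ∞ M] [MeasurableSpace M] [BorelSpace M]
  {G : Type*} [Group G] [MulAction G M]
  (g : RMetric n M) (μ : Measure M) (N : Subgroup G) (F : Set M)

lemma integrableOn_ip {p : ℕ} {η ξ : M → Alt n p} (hη : ∀ x, SmoothAt η x)
    (hξ : ∀ x, SmoothAt ξ x) (iη : IntegrableOn (fun x => ip g x (η x) (η x)) F μ)
    (iξ : IntegrableOn (fun x => ip g x (ξ x) (ξ x)) F μ) :
    IntegrableOn (fun x => ip g x (η x) (ξ x)) F μ := by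
  refine Integrable.mono' ((iη.norm.add iξ.norm).div_const 2)
    (continuous_iff_continuousAt.2 fun x => continuousAt_ip g (hη x) (hξ x)).aestronglyMeasurable
    (Eventually.of_forall fun x => (norm_ip_le g x _ _).trans (le_of_eq ?_))
  simp [ip_self, abs_of_nonneg (nsq_nonneg g x _)]

/-- Smooth `N`-invariant `p`-forms that are square integrable over `F`. -/
def l2Forms (p : ℕ) : Submodule ℂ (M → Alt n p) where
  carrier := {η | (∀ x, SmoothAt η x) ∧ (∀ γ ∈ N, pull (fun x : M => γ • x) η = η) ∧
    IntegrableOn (fun x => ip g x (η x) (η x)) F μ}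
  add_mem' {η ξ} hη hξ := ⟨fun x => (hη.1 x).add (hξ.1 x),
    fun γ hγ => by rw [pull_add, hη.2.1 γ hγ, hξ.2.1 γ hγ], by
      simp only [Pi.add_apply, ip_add_left, ip_add_right]
      exact (hη.2.2.add (integrableOn_ip g μ F hξ.1 hη.1 hξ.2.2 hη.2.2)).add
        ((integrableOn_ip g μ F hη.1 hξ.1 hη.2.2 hξ.2.2).add hξ.2.2)⟩
  zero_mem' := ⟨smoothAt_zero, fun _ _ => rfl, by simp⟩
  smul_mem' c η hη := ⟨fun x => (hη.1 x).smul c, fun γ hγ => by rw [pull_smul, hη.2.1 γ hγ], by
      simp only [Pi.smul_apply, ip_smul_left, ip_smul_right]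
      exact (hη.2.2.const_mul _).const_mul _⟩

/-- The space of smooth square integrable forms, to be equipped with the `L²` scalar product. -/
def Pre (p : ℕ) : Type _ := l2Forms g μ N F p

instance (p : ℕ) : AddCommGroup (Pre g μ N F p) :=
  inferInstanceAs (AddCommGroup (l2Forms g μ N F p))

instance (p : ℕ) : Module ℂ (Pre g μ N F p) := inferInstanceAs (Module ℂ (l2Forms g μ N F p))

/-- The `L²` scalar product. -/
@[instance_reducible]
def preCore (p : ℕ) : PreInnerProductSpace.Core ℂ (Pre g μ N F p) where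
  inner η ξ := ∫ x in F, ip g x (η.1 x) (ξ.1 x) ∂μ
  conj_inner_symm η ξ := by simp only [← integral_conj, ip_conj]
  re_inner_nonneg η := by
    simp only [ip_self, integral_complex_ofReal]
    exact integral_nonneg fun x => nsq_nonneg g x _
  add_left η ξ ζ := by
    rw [← integral_add (integrableOn_ip g μ F η.2.1 ζ.2.1 η.2.2.2 ζ.2.2.2)
      (integrableOn_ip g μ F ξ.2.1 ζ.2.1 ξ.2.2.2 ζ.2.2.2)]
    exact integral_congr_ae (Eventually.of_forall fun x => ip_add_left g x _ _ _)
  smul_left η ξ c := by
    rw [← integral_const_mul]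
    exact integral_congr_ae (Eventually.of_forall fun x => ip_smul_left g x _ _ _)

instance (p : ℕ) : SeminormedAddCommGroup (Pre g μ N F p) :=
  InnerProductSpace.Core.toSeminormedAddCommGroup (c := preCore g μ N F p)

instance (p : ℕ) : InnerProductSpace ℂ (Pre g μ N F p) :=
  InnerProductSpace.ofCore (preCore g μ N F p)

/-- The Hilbert space of `L²` forms of degree `p`. -/
abbrev HL (p : ℕ) := Completion (Pre g μ N F p)

/-- The graph of the closure of the exterior derivative, defined on the smooth square integrable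
forms with square integrable derivative. -/
def graphD (p : ℕ) : Submodule ℂ (HL g μ N F p × HL g μ N F (p + 1)) :=
  (Submodule.span ℂ {z | ∃ (η : Pre g μ N F p) (ξ : Pre g μ N F (p + 1)),
    ξ.1 = extD η.1 ∧ z = ((η : HL g μ N F p), (ξ : HL g μ N F (p + 1)))}).topologicalClosure

/-- The graph of the codifferential, the Hilbert space adjoint of `d`; zero in degree `0`. -/
def coGraph : (p : ℕ) → Submodule ℂ (HL g μ N F p × HL g μ N F (p - 1))
  | 0 => Submodule.prod ⊤ ⊥
  | p + 1 => (graphD g μ N F p).adjoint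

/-- The graph of `T = (d, d*)` on `p`-forms; the Hodge Laplacian is `T* T = d* d + d d*`. -/
def lapGraph (p : ℕ) := pairGraph (graphD g μ N F p) (coGraph g μ N F p)

open Classical in
/-- The action of `γ` on `L²` forms, by pullback along `γ⁻¹`. -/
def act (p : ℕ) (γ : G) : HL g μ N F p → HL g μ N F p :=
  Completion.map fun η : Pre g μ N F p =>
    if h : pull (fun x : M => γ⁻¹ • x) η.1 ∈ l2Forms g μ N F p then (⟨_, h⟩ : Pre g μ N F p) else 0

/-- The von Neumann trace over `G / N` of an operator on `L²` forms. -/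
def trL2 (p : ℕ) (T : HL g μ N F p →L[ℂ] HL g μ N F p) : ℝ≥0∞ :=
  vnTrace (fun q : G ⧸ N => act g μ N F p q.out) T

/-- The trace of the heat operator on `p`-forms minus the `L²`-Betti number. -/
def theta (p : ℕ) (t : ℝ) : ℝ :=
  (trL2 g μ N F p (heat (lapGraph g μ N F p) t)).toReal -
    (trL2 g μ N F p (kerProj (lapGraph g μ N F p))).toReal

/-- `ρ` is the analytic `L²`-torsion of the quotient of `M` by `N` over the group `G / N`. -/
def IsTorsion (ε ρ : ℝ) : Prop := IsTorsionOf n (theta g μ N F) ε ρ

end Pool.Agent.MP_d9582c_gt.H34
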