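import Mathlib

/-!
Differential forms, Riemannian inner product of forms and Riemannian volume on a smooth manifold
modelled on Euclidean space.  The tangent space at a point is, as in Mathlib, the model space
`E n` (identified through the preferred chart at the point).
-/

open scoped Manifold ContDiff ComplexConjugate
open MeasureTheory

noncomputable section

namespace Pool.Agent.MP_d9582c_gt.H34

/-- Euclidean space of dimension `n`. -/
abbrev E (n : ℕ) := EuclideanSpace ℝ (Fin n)

/-- Complex valued alternating `p`-forms on a tangent space. -/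
abbrev Alt (n p : ℕ) := E n [⋀^Fin p]→L[ℝ] ℂ

variable {n p : ℕ} {X M : Type*} [TopologicalSpace X] [ChartedSpace (E n) X]
  [TopologicalSpace M] [ChartedSpace (E n) M]

variable (n) in
/-- The tangent map of `ψ` at `x`. -/
def tang (ψ : X → M) (x : X) : E n →L[ℝ] E n := mfderiv 𝓘(ℝ, E n) 𝓘(ℝ, E n) ψ x

/-- Pullback of a `p`-form. -/
def pull (ψ : X → M) (η : M → Alt n p) (x : X) : Alt n p :=
  (η (ψ x)).compContinuousLinearMap (tang n ψ x)

/-- A form is smooth at `x` if its expression in the chart at `x` is smooth. -/
def SmoothAt (η : M → Alt n p) (x : M) : Prop :=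
  ContDiffAt ℝ ∞ (pull (chartAt (E n) x).symm η) (chartAt (E n) x x)

/-- The exterior derivative, computed in the chart at `x`. -/
def extD (η : M → Alt n p) (x : M) : Alt n (p + 1) :=
  (extDeriv (pull (chartAt (E n) x).symm η) (chartAt (E n) x x)).compContinuousLinearMap
    (tang n (chartAt (E n) x) x)

variable [IsManifold 𝓘(ℝ, E n) ∞ M]

variable (n M) in
/-- Smooth Riemannian metrics on `M`. -/
abbrev RMetric :=
  Bundle.ContMDiffRiemannianMetric 𝓘(ℝ, E n) ∞ (E n) fun x : M => TangentSpace 𝓘(ℝ, E n) x

/-- The scalar product of two tangent vectors at `x`. -/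
def gx (g : RMetric n M) (x : M) (v w : E n) : ℝ := g.inner x v w

/-- An orthonormal basis of the tangent space at `x`. -/
def frame (g : RMetric n M) (x : M) : Fin n → E n :=
  Classical.epsilon fun e => ∀ i j, gx g x (e i) (e j) = if i = j then 1 else 0

/-- The Hermitian scalar product of two `p`-forms at `x`. -/
def ip (g : RMetric n M) (x : M) (α β : Alt n p) : ℂ :=
  (p.factorial : ℂ)⁻¹ * ∑ I : Fin p → Fin n, conj (α (frame g x ∘ I)) * β (frame g x ∘ I)

/-- The Gram matrix of the metric in a local parametrization `ψ`. -/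
def gram (g : RMetric n M) (ψ : E n → M) (z : E n) : Matrix (Fin n) (Fin n) ℝ :=
  Matrix.of fun i j => gx g (ψ z) (tang n ψ z (EuclideanSpace.single i 1))
    (tang n ψ z (EuclideanSpace.single j 1))

/-- `μ` is the Riemannian volume: in every chart it has density `√(det g)`. -/
def IsVolume [MeasurableSpace M] (g : RMetric n M) (μ : Measure M) : Prop :=
  ∀ (x : M) (A : Set M), MeasurableSet A → A ⊆ (chartAt (E n) x).source →
    μ A = ∫⁻ z in chartAt (E n) x '' A,
      ENNReal.ofReal √(gram g (chartAt (E n) x).symm z).det

end Pool.Agent.MP_d9582c_gt.H34
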