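import Pool.Agent.MP_d9582c_gt.H34.Defs0

/-!
Basic calculus of forms on a manifold: pullback, smoothness, exterior derivative.
-/

open scoped Manifold ContDiff ComplexConjugate Topology
open MeasureTheory Set Filter

noncomputable section

namespace Pool.Agent.MP_d9582c_gt.H34

variable {n p : ℕ}

/-- The standard basis vector. -/
abbrev ee (i : Fin n) : E n := EuclideanSpace.single i 1

lemma alt_ext {α β : Alt n p} (h : ∀ I : Fin p → Fin n, α (ee ∘ I) = β (ee ∘ I)) : α = β := by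
  have : α.toContinuousMultilinearMap.toMultilinearMap =
      β.toContinuousMultilinearMap.toMultilinearMap := by
    refine Module.Basis.ext_multilinear (fun _ => (EuclideanSpace.basisFun (Fin n) ℝ).toBasis) ?_
    intro I
    have := h I
    simpa [Function.comp_def] using this
  ext v
  exact DFunLike.congr_fun this v

/-- Coordinates of an alternating form. -/
def coordL (n p : ℕ) : Alt n p →L[ℝ] ((Fin p → Fin n) → ℂ) :=
  ContinuousLinearMap.pi fun I => ContinuousAlternatingMap.apply ℝ (E n) ℂ (ee ∘ I)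

lemma coordL_inj : Function.Injective (coordL n p) := fun _ _ h =>
  alt_ext fun I => congrFun h I

instance : FiniteDimensional ℝ (Alt n p) :=
  Module.Finite.of_injective (coordL n p).toLinearMap coordL_inj

lemma exists_coord_inv (n p : ℕ) :
    ∃ L : ((Fin p → Fin n) → ℂ) →L[ℝ] Alt n p, ∀ α, L (coordL n p α) = α := by
  obtain ⟨L, hL⟩ := (coordL n p).toLinearMap.exists_leftInverse_of_injective
    (LinearMap.ker_eq_bot.2 coordL_inj)
  exact ⟨LinearMap.toContinuousLinearMap L, fun α => DFunLike.congr_fun hL α⟩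

section
variable {F : Type*} [NormedAddCommGroup F] [NormedSpace ℝ F] {k : ℕ∞ω}

lemma contDiffAt_alt {f : F → Alt n p} {z : F}
    (h : ∀ I : Fin p → Fin n, ContDiffAt ℝ k (fun w => f w (ee ∘ I)) z) : ContDiffAt ℝ k f z := by
  obtain ⟨L, hL⟩ := exists_coord_inv n p
  have : f = L ∘ fun w => coordL n p (f w) := funext fun w => (hL _).symm
  rw [this]
  exact L.contDiff.contDiffAt.comp z (contDiffAt_pi.2 h)

lemma ContDiffAt.alt_apply {f : F → Alt n p} {v : F → Fin p → E n} {z : F}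
    (hf : ContDiffAt ℝ k f z) (hv : ∀ i, ContDiffAt ℝ k (fun w => v w i) z) :
    ContDiffAt ℝ k (fun w => f w (v w)) z := by
  have h := (ContinuousLinearMap.analyticAt_uncurry_of_multilinear
    (f := (ContinuousAlternatingMap.toContinuousMultilinearMapCLM ℝ :
      Alt n p →L[ℝ] ContinuousMultilinearMap ℝ (fun _ : Fin p => E n) ℂ))
    (x := (f z, v z))).contDiffAt (n := k)
  exact ContDiffAt.comp (f := fun w => (f w, v w)) z h (hf.prodMk (contDiffAt_pi.2 hv))

lemma ContDiffAt.alt_comp {f : F → Alt n p} {L : F → E n →L[ℝ] E n} {z : F}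
    (hf : ContDiffAt ℝ k f z) (hL : ContDiffAt ℝ k L z) :
    ContDiffAt ℝ k (fun w => (f w).compContinuousLinearMap (L w)) z :=
  contDiffAt_alt fun I => ContDiffAt.alt_apply (v := fun w i => L w (ee (I i))) hf
    fun _ => hL.clm_apply contDiffAt_const

end

section tang
variable {X Y Z : Type*} [TopologicalSpace X] [ChartedSpace (E n) X]
  [TopologicalSpace Y] [ChartedSpace (E n) Y] [TopologicalSpace Z] [ChartedSpace (E n) Z]

lemma tang_eq_fderiv (f : E n → E n) (z : E n) : tang n f z = fderiv ℝ f z := mfderiv_eq_fderiv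

lemma tang_congr {f g : X → Y} {x : X} (h : f =ᶠ[𝓝 x] g) : tang n f x = tang n g x :=
  h.mfderiv_eq

lemma tang_comp {f : Y → Z} {g : X → Y} {x : X}
    (hf : MDifferentiableAt 𝓘(ℝ, E n) 𝓘(ℝ, E n) f (g x))
    (hg : MDifferentiableAt 𝓘(ℝ, E n) 𝓘(ℝ, E n) g x) :
    tang n (f ∘ g) x = (tang n f (g x)).comp (tang n g x) := mfderiv_comp x hf hg

lemma tang_id (x : X) : tang n (id : X → X) x = ContinuousLinearMap.id ℝ (E n) := mfderiv_id

lemma pull_congr {f g : X → Y} {x : X} (h : f =ᶠ[𝓝 x] g) (η : Y → Alt n p) :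
    pull f η x = pull g η x := by
  simp only [pull, tang_congr h, h.eq_of_nhds]

lemma pull_comp {f : Y → Z} {g : X → Y} {x : X} (η : Z → Alt n p)
    (hf : MDifferentiableAt 𝓘(ℝ, E n) 𝓘(ℝ, E n) f (g x))
    (hg : MDifferentiableAt 𝓘(ℝ, E n) 𝓘(ℝ, E n) g x) :
    pull (f ∘ g) η x = pull g (pull f η) x := by
  simp only [pull, tang_comp hf hg]
  rfl

lemma pull_id (η : X → Alt n p) : pull id η = η := by
  funext x
  simp only [pull, tang_id]
  rfl

lemma pull_add (f : X → Y) (η ξ : Y → Alt n p) : pull f (η + ξ) = pull f η + pull f ξ := rfl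

lemma pull_smul (f : X → Y) (c : ℂ) (η : Y → Alt n p) : pull f (c • η) = c • pull f η := rfl

lemma pull_zero (f : X → Y) : pull f (0 : Y → Alt n p) = 0 := rfl

lemma pull_fun_smul (f : X → Y) (c : Y → ℝ) (η : Y → Alt n p) :
    pull f (fun y => c y • η y) = fun x => c (f x) • pull f η x := rfl

lemma pull_eventuallyEq {f : X → Y} {x : X} (hf : ContinuousAt f x) {η ξ : Y → Alt n p}
    (h : η =ᶠ[𝓝 (f x)] ξ) : pull f η =ᶠ[𝓝 x] pull f ξ := by
  filter_upwards [hf.eventually h] with y hy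
  simp only [pull, hy]

end tang

variable {M : Type*} [TopologicalSpace M] [ChartedSpace (E n) M]

lemma continuousAt_chart_symm (x : M) :
    ContinuousAt (chartAt (E n) x).symm (chartAt (E n) x x) :=
  (chartAt (E n) x).continuousAt_symm (mem_chart_target _ x)

lemma chart_symm_self (x : M) : (chartAt (E n) x).symm (chartAt (E n) x x) = x :=
  (chartAt (E n) x).left_inv (mem_chart_source _ x)

lemma pull_chart_eventuallyEq {η ξ : M → Alt n p} {x : M} (h : η =ᶠ[𝓝 x] ξ) :
    pull (chartAt (E n) x).symm η =ᶠ[𝓝 (chartAt (E n) x x)] pull (chartAt (E n) x).symm ξ :=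
  pull_eventuallyEq (continuousAt_chart_symm x) (by rwa [chart_symm_self])

lemma SmoothAt.congr {η ξ : M → Alt n p} {x : M} (hη : SmoothAt η x) (h : ξ =ᶠ[𝓝 x] η) :
    SmoothAt ξ x := hη.congr_of_eventuallyEq (pull_chart_eventuallyEq h)

lemma extD_congr {η ξ : M → Alt n p} {x : M} (h : η =ᶠ[𝓝 x] ξ) : extD η x = extD ξ x := by
  simp only [extD, (pull_chart_eventuallyEq h).extDeriv_eq]

lemma smoothAt_zero (x : M) : SmoothAt (0 : M → Alt n p) x := contDiffAt_const (c := 0)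

lemma SmoothAt.add {η ξ : M → Alt n p} {x : M} (hη : SmoothAt η x) (hξ : SmoothAt ξ x) :
    SmoothAt (η + ξ) x := ContDiffAt.add hη hξ

lemma SmoothAt.smul {η : M → Alt n p} {x : M} (hη : SmoothAt η x) (c : ℂ) :
    SmoothAt (c • η) x := ContDiffAt.const_smul c hη

lemma extD_zero (x : M) : extD (0 : M → Alt n p) x = 0 := by
  simp only [extD, pull_zero, extDeriv]
  rw [show fderiv ℝ (0 : E n → Alt n p) (chartAt (E n) x x) = 0 from fderiv_const_apply _]
  rw [← ContinuousAlternatingMap.alternatizeUncurryFinCLM_apply, map_zero]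
  rfl

lemma extD_add {η ξ : M → Alt n p} {x : M} (hη : SmoothAt η x) (hξ : SmoothAt ξ x) :
    extD (η + ξ) x = extD η x + extD ξ x := by
  simp only [extD, pull_add]
  rw [extDeriv_add (hη.differentiableAt (by simp)) (hξ.differentiableAt (by simp))]
  rfl

lemma extDeriv_csmul {η : E n → Alt n p} {z : E n} (hη : DifferentiableAt ℝ η z) (c : ℂ) :
    extDeriv (c • η) z = c • extDeriv η z := by
  simp only [extDeriv]
  rw [fderiv_const_smul hη, ContinuousAlternatingMap.alternatizeUncurryFin_smul]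

lemma extD_smul {η : M → Alt n p} {x : M} (hη : SmoothAt η x) (c : ℂ) :
    extD (c • η) x = c • extD η x := by
  simp only [extD, pull_smul]
  rw [extDeriv_csmul (hη.differentiableAt (by simp))]
  rfl

variable [IsManifold 𝓘(ℝ, E n) ∞ M]

lemma contMDiffAt_chart {x y : M} (hy : y ∈ (chartAt (E n) x).source) :
    ContMDiffAt 𝓘(ℝ, E n) 𝓘(ℝ, E n) ∞ (chartAt (E n) x) y :=
  contMDiffOn_chart.contMDiffAt ((chartAt (E n) x).open_source.mem_nhds hy)

lemma contMDiffAt_chart_symm {x : M} {z : E n} (hz : z ∈ (chartAt (E n) x).target) :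
    ContMDiffAt 𝓘(ℝ, E n) 𝓘(ℝ, E n) ∞ (chartAt (E n) x).symm z :=
  contMDiffOn_chart_symm.contMDiffAt ((chartAt (E n) x).open_target.mem_nhds hz)

/-- Expression of a pullback through the chart at the image point. -/
lemma pull_eventuallyEq_chart {ψ : E n → M} {z : E n}
    (hψ : ContMDiffAt 𝓘(ℝ, E n) 𝓘(ℝ, E n) ∞ ψ z) (η : M → Alt n p) :
    pull ψ η =ᶠ[𝓝 z] fun w => (pull (chartAt (E n) (ψ z)).symm η
      (((chartAt (E n) (ψ z)) ∘ ψ) w)).compContinuousLinearMap
        (fderiv ℝ ((chartAt (E n) (ψ z)) ∘ ψ) w) := by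
  set κ := chartAt (E n) (ψ z)
  have h1 : ∀ᶠ w in 𝓝 z, ψ w ∈ κ.source :=
    hψ.continuousAt.preimage_mem_nhds (chart_source_mem_nhds _ _)
  have h2 : ∀ᶠ w in 𝓝 z, ContMDiffAt 𝓘(ℝ, E n) 𝓘(ℝ, E n) 1 ψ w :=
    (contMDiffAt_iff_contMDiffAt_nhds (by simp)).1 (hψ.of_le (by simp))
  filter_upwards [h1.eventually_nhds, h2] with w hw hw2
  have e1 : ψ =ᶠ[𝓝 w] κ.symm ∘ (κ ∘ ψ) := by
    filter_upwards [hw] with u hu using (κ.left_inv hu).symm
  rw [pull_congr e1, pull_comp, ← tang_eq_fderiv]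
  · rfl
  · exact (contMDiffAt_chart_symm (κ.map_source hw.self_of_nhds)).mdifferentiableAt (by simp)
  · exact ((contMDiffAt_chart hw.self_of_nhds).mdifferentiableAt (by simp)).comp w
      (hw2.mdifferentiableAt (by simp))

lemma contDiffAt_chart_comp {ψ : E n → M} {z : E n}
    (hψ : ContMDiffAt 𝓘(ℝ, E n) 𝓘(ℝ, E n) ∞ ψ z) :
    ContDiffAt ℝ ∞ ((chartAt (E n) (ψ z)) ∘ ψ) z :=
  ((contMDiffAt_chart (mem_chart_source _ _)).comp z hψ).contDiffAt

lemma SmoothAt.contDiffAt_pull {ψ : E n → M} {z : E n}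
    (hψ : ContMDiffAt 𝓘(ℝ, E n) 𝓘(ℝ, E n) ∞ ψ z) {η : M → Alt n p} (hη : SmoothAt η (ψ z)) :
    ContDiffAt ℝ ∞ (pull ψ η) z := by
  refine ContDiffAt.congr_of_eventuallyEq ?_ (pull_eventuallyEq_chart hψ η)
  have h := contDiffAt_chart_comp hψ
  exact ContDiffAt.alt_comp (ContDiffAt.comp (g := pull (chartAt (E n) (ψ z)).symm η) z hη h)
    (h.fderiv_right (m := ∞) (by simp))

lemma tang_chart_comp {ψ : E n → M} {z : E n}
    (hψ : ContMDiffAt 𝓘(ℝ, E n) 𝓘(ℝ, E n) ∞ ψ z) :
    fderiv ℝ ((chartAt (E n) (ψ z)) ∘ ψ) z =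
      (tang n (chartAt (E n) (ψ z)) (ψ z)).comp (tang n ψ z) := by
  rw [← tang_eq_fderiv, tang_comp ((contMDiffAt_chart (mem_chart_source _ _)).mdifferentiableAt
    (by simp)) (hψ.mdifferentiableAt (by simp))]

lemma SmoothAt.extDeriv_pull {ψ : E n → M} {z : E n}
    (hψ : ContMDiffAt 𝓘(ℝ, E n) 𝓘(ℝ, E n) ∞ ψ z) {η : M → Alt n p} (hη : SmoothAt η (ψ z)) :
    extDeriv (pull ψ η) z = pull ψ (extD η) z := by
  rw [(pull_eventuallyEq_chart hψ η).extDeriv_eq,
    extDeriv_pullback (r := ∞) (f := (chartAt (E n) (ψ z)) ∘ ψ) (hη.differentiableAt (by simp))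
      (contDiffAt_chart_comp hψ) (by simp; decide), tang_chart_comp hψ]
  rfl

end Pool.Agent.MP_d9582c_gt.H34
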