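import Pool.Agent.MP_d9582c_gt.H34.Forms2

/-!
The geometric data, translation of forms, the local index of a point, unfolding of integrals.
-/

open scoped Manifold ContDiff ComplexConjugate Topology ENNReal Pointwise
open MeasureTheory Set Filter

noncomputable section

namespace Pool.Agent.MP_d9582c_gt.H34

universe u v

/-- All geometric data used in the proof. -/
structure Geo (n : ℕ) (G : Type v) (M : Type u) [Group G] [MulAction G M] [TopologicalSpace M]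
    [ChartedSpace (E n) M] [IsManifold 𝓘(ℝ, E n) ∞ M] [MeasurableSpace M] extends Cover n G M where
  g : RMetric n M
  μ : Measure M
  act_smooth : ∀ γ : G, ContMDiff 𝓘(ℝ, E n) 𝓘(ℝ, E n) ∞ fun x : M => γ • x
  iso : ∀ (γ : G) x v w,
    gx g (γ • x) (tang n (fun x : M => γ • x) x v) (tang n (fun x : M => γ • x) x w) = gx g x v w
  mp : ∀ γ : G, MeasurePreserving (fun x : M => γ • x) μ μ
  cμ : ℝ
  vol_cmp : ∀ a, ∀ A : Set M, MeasurableSet A → A ⊆ Cl a → ∀ f : E n → ℝ≥0∞,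
    AEMeasurable f (volume.restrict (chartAt (E n) (ctr a) '' A)) →
    ∫⁻ x in A, f (chartAt (E n) (ctr a) x) ∂μ ≤
        ENNReal.ofReal cμ * ∫⁻ z in chartAt (E n) (ctr a) '' A, f z ∧
      ∫⁻ z in chartAt (E n) (ctr a) '' A, f z ≤
        ENNReal.ofReal cμ * ∫⁻ x in A, f (chartAt (E n) (ctr a) x) ∂μ
  μ_fin : ∀ a, μ (U a) ≠ ⊤
  cN : ℝ
  nsq_cmp : ∀ p a, ∀ x ∈ Cl a, ∀ α : Alt n p,
    nsq g x (α.compContinuousLinearMap (tang n (chartAt (E n) (ctr a)) x)) ≤ cN * ‖α‖ ^ 2 ∧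
    ‖α‖ ^ 2 ≤ cN * nsq g x (α.compContinuousLinearMap (tang n (chartAt (E n) (ctr a)) x))
  cφ : ℝ
  cφ_nonneg : 0 ≤ cφ
  dφ_le : ∀ a x v, dfun n (φ a) x v ^ 2 ≤ cφ * gx g x v v
  S : Finset G
  one_mem : 1 ∈ S
  inv_mem : ∀ γ ∈ S, γ⁻¹ ∈ S
  adj : ∀ a b (γ : G) x, x ∈ U a → γ⁻¹ • x ∈ U b → γ ∈ S
  φ_ev : ∀ a x, (∀ γ : G, γ⁻¹ • x ∉ U a) → φ a =ᶠ[𝓝 x] 0

variable {n p : ℕ} {M : Type u} [TopologicalSpace M] [ChartedSpace (E n) M]
  {G : Type v} [Group G] [MulAction G M]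

/-- Translation of a form by a group element. -/
def tr (γ : G) (η : M → Alt n p) : M → Alt n p := pull (fun x : M => γ⁻¹ • x) η

lemma tr_add (γ : G) (η ξ : M → Alt n p) : tr γ (η + ξ) = tr γ η + tr γ ξ := rfl

lemma tr_smul (γ : G) (c : ℂ) (η : M → Alt n p) : tr γ (c • η) = c • tr γ η := rfl

lemma tr_one (η : M → Alt n p) : tr (1 : G) η = η := by
  simp only [tr, inv_one, one_smul]; exact pull_id η

lemma tr_apply (γ : G) (η : M → Alt n p) (x : M) :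
    tr γ η x = (η (γ⁻¹ • x)).compContinuousLinearMap (tang n (fun x : M => γ⁻¹ • x) x) := rfl

lemma tr_apply_congr (γ : G) {η ξ : M → Alt n p} {x : M} (h : η (γ⁻¹ • x) = ξ (γ⁻¹ • x)) :
    tr γ η x = tr γ ξ x := by rw [tr_apply, h]; rfl

lemma tr_apply_eq_zero (γ : G) {η : M → Alt n p} {x : M} (h : η (γ⁻¹ • x) = 0) :
    tr γ η x = 0 := by rw [tr_apply, h]; rfl

variable [IsManifold 𝓘(ℝ, E n) ∞ M] [MeasurableSpace M] (X : Geo n G M)

namespace Geo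

include X

lemma continuous_smul (γ : G) : Continuous fun x : M => γ • x := (X.act_smooth γ).continuous

lemma mdiff_smul (γ : G) (x : M) :
    MDifferentiableAt 𝓘(ℝ, E n) 𝓘(ℝ, E n) (fun x : M => γ • x) x :=
  (X.act_smooth γ x).mdifferentiableAt (by simp)

lemma tr_mul (γ γ' : G) (η : M → Alt n p) : tr (γ * γ') η = tr γ (tr γ' η) := by
  funext x
  rw [tr, tr, tr, ← pull_comp η (X.mdiff_smul _ _) (X.mdiff_smul _ _)]
  simp only [mul_inv_rev, mul_smul, Function.comp_def]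

lemma smoothAt_tr (γ : G) {η : M → Alt n p} {x : M} (h : SmoothAt η (γ⁻¹ • x)) :
    SmoothAt (tr γ η) x := SmoothAt.pull (X.act_smooth γ⁻¹ x) h

lemma extD_tr (γ : G) {η : M → Alt n p} {x : M} (h : SmoothAt η (γ⁻¹ • x)) :
    extD (tr γ η) x = tr γ (extD η) x := SmoothAt.extD_pull (X.act_smooth γ⁻¹ x) h

lemma ip_tr (γ : G) (η ξ : M → Alt n p) (x : M) :
    ip X.g x (tr γ η x) (tr γ ξ x) = ip X.g (γ⁻¹ • x) (η (γ⁻¹ • x)) (ξ (γ⁻¹ • x)) :=
  ip_comp X.g X.g x _ _ (X.iso γ⁻¹ x) _ _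

lemma nsq_tr (γ : G) (η : M → Alt n p) (x : M) :
    nsq X.g x (tr γ η x) = nsq X.g (γ⁻¹ • x) (η (γ⁻¹ • x)) := by
  have := X.ip_tr γ η η x
  rwa [ip_self, ip_self, Complex.ofReal_inj] at this

lemma dfun_smul {c : M → ℝ} (γ : G) {x : M}
    (hc : MDifferentiableAt 𝓘(ℝ, E n) 𝓘(ℝ, ℝ) c (γ • x)) :
    dfun n (fun y => c (γ • y)) x = (dfun n c (γ • x)).comp (tang n (fun x : M => γ • x) x) :=
  dfun_comp (f := fun x : M => γ • x) hc (X.mdiff_smul γ x)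

lemma tr_wedge {c : M → ℝ} (γ : G) (η : M → Alt n p) {x : M}
    (hc : MDifferentiableAt 𝓘(ℝ, E n) 𝓘(ℝ, ℝ) c (γ⁻¹ • x)) :
    tr γ (fun y => wedge (dfun n c y) (η y)) x =
      wedge (dfun n (fun y => c (γ⁻¹ • y)) x) (tr γ η x) := by
  rw [tr_apply, wedge_comp, X.dfun_smul _ hc, tr_apply]

/-- The saturation of `U a`. -/
def V (a : Fin X.m) : Set M := {x | ∃ γ : G, γ⁻¹ • x ∈ X.U a}

/-- The group element that moves `U a` to `x`. -/
def idx (a : Fin X.m) (x : M) : G := Classical.epsilon fun γ : G => γ⁻¹ • x ∈ X.U a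

variable {X} {a b : Fin X.m} {x : M} {γ : G}

lemma idx_spec (h : x ∈ X.V a) : (X.idx a x)⁻¹ • x ∈ X.U a := Classical.epsilon_spec h

lemma idx_eq (h : γ⁻¹ • x ∈ X.U a) : X.idx a x = γ := by
  have h1 := idx_spec ⟨γ, h⟩
  have := X.disj a (γ⁻¹ * X.idx a x) _ h1 (by simpa [mul_smul] using h)
  exact (inv_mul_eq_one.1 this).symm

lemma smul_mem_V : γ • x ∈ X.V a ↔ x ∈ X.V a :=
  ⟨fun ⟨δ, h⟩ => ⟨γ⁻¹ * δ, by simpa [mul_smul] using h⟩,
    fun ⟨δ, h⟩ => ⟨γ * δ, by simpa [mul_smul] using h⟩⟩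

lemma idx_smul (h : x ∈ X.V a) (γ : G) : X.idx a (γ • x) = γ * X.idx a x :=
  idx_eq (by simpa [mul_smul] using idx_spec h)

lemma isOpen_tr (γ : G) (a : Fin X.m) : IsOpen {x : M | γ⁻¹ • x ∈ X.U a} :=
  (X.isOpen_U a).preimage (X.continuous_smul γ⁻¹)

lemma isOpen_V (a : Fin X.m) : IsOpen (X.V a) := by
  rw [V, ofPred_exists]; exact isOpen_iUnion fun γ => isOpen_tr γ a

lemma idx_eventually (h : x ∈ X.V a) : ∀ᶠ y in 𝓝 x, y ∈ X.V a ∧ X.idx a y = X.idx a x := by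
  filter_upwards [(isOpen_tr _ a).mem_nhds (idx_spec h)] with y hy using ⟨⟨_, hy⟩, idx_eq hy⟩

lemma idx_adj (ha : x ∈ X.V a) (hb : x ∈ X.V b) : (X.idx a x)⁻¹ * X.idx b x ∈ X.S :=
  X.adj a b _ _ (idx_spec ha) (by simpa [mul_smul] using idx_spec hb)

lemma φ_eventually (h : x ∉ X.V a) : X.φ a =ᶠ[𝓝 x] 0 := X.φ_ev a x fun γ hγ => h ⟨γ, hγ⟩

lemma φ_eq_zero (h : x ∉ X.V a) : X.φ a x = 0 := (φ_eventually h).eq_of_nhds

lemma exists_V (x : M) : ∃ a, x ∈ X.V a := by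
  by_contra h
  push Not at h
  have := X.sum_sq x
  simp [φ_eq_zero (h _)] at this

lemma φ_sq_le (a : Fin X.m) (x : M) : X.φ a x ^ 2 ≤ 1 :=
  (Finset.single_le_sum (f := fun a => X.φ a x ^ 2) (fun _ _ => sq_nonneg _)
    (Finset.mem_univ a)).trans (X.sum_sq x).le

lemma mdiff_φ (a : Fin X.m) (x : M) : MDifferentiableAt 𝓘(ℝ, E n) 𝓘(ℝ, ℝ) (X.φ a) x :=
  (X.smooth a x).mdifferentiableAt (by simp)

lemma smooth_φ_sq (a : Fin X.m) : ContMDiff 𝓘(ℝ, E n) 𝓘(ℝ, ℝ) ∞ fun x => X.φ a x ^ 2 :=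
  (X.smooth a).pow 2

lemma dfun_φ_sq (a : Fin X.m) (x : M) :
    dfun n (fun x => X.φ a x ^ 2) x = (2 * X.φ a x) • dfun n (X.φ a) x :=
  dfun_real_comp (F := fun t => t ^ 2) (by simpa using hasDerivAt_pow 2 (X.φ a x)) (mdiff_φ a x)

lemma dfun_φ_sq_le (a : Fin X.m) (x : M) (v : E n) :
    dfun n (fun x => X.φ a x ^ 2) x v ^ 2 ≤ 4 * X.cφ * gx X.g x v v := by
  rw [dfun_φ_sq, smul_apply, smul_eq_mul, mul_pow, mul_pow]
  nlinarith [X.dφ_le a x v, φ_sq_le a x, sq_nonneg (dfun n (X.φ a) x v), sq_nonneg (X.φ a x)]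

lemma sum_dfun_φ_sq (x : M) : ∑ a, dfun n (fun x => X.φ a x ^ 2) x = 0 := by
  rw [← dfun_sum fun a _ => (smooth_φ_sq a x).mdifferentiableAt (by simp), funext X.sum_sq,
    dfun_const]

lemma dfun_φ_sq_eq_zero (h : x ∉ X.V a) : dfun n (fun x => X.φ a x ^ 2) x = 0 := by
  rw [dfun_φ_sq, φ_eq_zero h, mul_zero, zero_smul]

/-- Smoothness of a family of forms selected by the local index and cut off. -/
lemma glue_smooth {c : M → ℝ} (hc : ContMDiff 𝓘(ℝ, E n) 𝓘(ℝ, ℝ) ∞ c)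
    (h0 : x ∉ X.V a → c =ᶠ[𝓝 x] 0) {θ : G → M → Alt n p}
    (hθ : x ∈ X.V a → SmoothAt (θ (X.idx a x)) x) :
    SmoothAt (fun y => c y • θ (X.idx a y) y) x ∧
      extD (fun y => c y • θ (X.idx a y) y) x =
        c x • extD (θ (X.idx a x)) x + wedge (dfun n c x) (θ (X.idx a x) x) := by
  by_cases h : x ∈ X.V a
  · have e : (fun y => c y • θ (X.idx a y) y) =ᶠ[𝓝 x] fun y => c y • θ (X.idx a x) y := by
      filter_upwards [idx_eventually h] with y hy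
      rw [hy.2]
    exact ⟨((hθ h).fun_smul (hc x)).congr e, by rw [extD_congr e, extD_fun_smul (hc x) (hθ h)]⟩
  · have e : (fun y => c y • θ (X.idx a y) y) =ᶠ[𝓝 x] 0 := by
      filter_upwards [h0 h] with y hy
      rw [show c y = 0 from hy, alt_zero_rsmul]; rfl
    refine ⟨(smoothAt_zero x).congr e, ?_⟩
    rw [extD_congr e, extD_zero, show c x = 0 from (h0 h).eq_of_nhds, dfun_congr (h0 h),
      show dfun n (0 : M → ℝ) x = 0 from dfun_const 0 x, alt_zero_rsmul, wedge_zero_left, add_zero]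

/-- Smoothness of a function selected by the local index and cut off. -/
lemma glue_fun {c : M → ℝ} (hc : ContMDiff 𝓘(ℝ, E n) 𝓘(ℝ, ℝ) ∞ c)
    (h0 : ∀ x ∉ X.V a, c =ᶠ[𝓝 x] 0) (k : G → ℝ) :
    ContMDiff 𝓘(ℝ, E n) 𝓘(ℝ, ℝ) ∞ (fun y => k (X.idx a y) * c y) ∧
      ∀ x, dfun n (fun y => k (X.idx a y) * c y) x = k (X.idx a x) • dfun n c x := by
  have key : ∀ x, (fun y => k (X.idx a y) * c y) =ᶠ[𝓝 x] fun y => k (X.idx a x) * c y := fun x => by
    by_cases h : x ∈ X.V a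
    · filter_upwards [idx_eventually h] with y hy
      rw [hy.2]
    · filter_upwards [h0 x h] with y hy
      simp [hy]
  exact ⟨fun x => (contMDiffAt_const.mul (hc x)).congr_of_eventuallyEq (key x), fun x => by
    rw [dfun_congr (key x), dfun_const_mul _ ((hc x).mdifferentiableAt (by simp))]⟩

lemma φ_sq_eventually (h : x ∉ X.V a) : (fun y => X.φ a y ^ 2) =ᶠ[𝓝 x] 0 := by
  filter_upwards [φ_eventually h] with y hy
  simp [hy]

variable (X)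

lemma measConst : MeasurableConstSMul G M := ⟨fun γ => (X.mp γ).measurable⟩

lemma smulInv : SMulInvariantMeasure G M X.μ :=
  ⟨fun γ _ hs => (X.mp γ).measure_preimage hs.nullMeasurableSet⟩

variable [Countable G] {N : Subgroup G} {F : Set M} (hF : IsFundamentalDomain N F X.μ)
include hF

lemma fd_replace {W : Set M} (hW : MeasurableSet W)
    (hd : ∀ γ ∈ N, ∀ x ∈ W, γ • x ∈ W → γ = 1) :
    IsFundamentalDomain N (W ∪ (F \ {x | ∃ γ : N, γ • x ∈ W})) X.μ := by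
  have := X.measConst
  have := X.smulInv
  have hm : MeasurableSet {x | ∃ γ : N, γ • x ∈ W} := by
    rw [ofPred_exists]
    exact MeasurableSet.iUnion fun γ => (X.mp γ).measurable hW
  refine IsFundamentalDomain.mk''
    (hW.nullMeasurableSet.union (hF.nullMeasurableSet.diff hm.nullMeasurableSet)) ?_
    (fun γ hγ => ?_) fun γ => (X.mp γ).quasiMeasurePreserving
  · filter_upwards [hF.ae_covers] with x ⟨γ, hγ⟩
    by_cases h : ∃ δ : N, δ • γ • x ∈ W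
    · obtain ⟨δ, hδ⟩ := h
      exact ⟨δ * γ, Or.inl (by rwa [mul_smul])⟩
    · exact ⟨γ, Or.inr ⟨hγ, h⟩⟩
  · refine measure_mono_null (fun x hx => ?_) (hF.aedisjoint hγ)
    obtain ⟨⟨y, hy, rfl⟩, hx⟩ := hx
    rcases hy with hy | hy <;> rcases hx with hx | hx
    · exact absurd (Subtype.ext (hd γ γ.2 y hy hx)) hγ
    · exact absurd ⟨γ⁻¹, by simpa using hy⟩ hx.2
    · exact absurd ⟨γ, hx⟩ hy.2
    · exact ⟨⟨y, hy.1, rfl⟩, by simpa using hx.1⟩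

lemma lintegral_unfold {W : Set M} (hW : MeasurableSet W)
    (hd : ∀ γ ∈ N, ∀ x ∈ W, γ • x ∈ W → γ = 1) {f : M → ℝ≥0∞}
    (hf : ∀ γ ∈ N, ∀ x, f (γ • x) = f x) (h0 : ∀ x, (∀ γ ∈ N, γ • x ∉ W) → f x = 0) :
    ∫⁻ x in F, f x ∂X.μ = ∫⁻ x in W, f x ∂X.μ := by
  have := X.measConst
  have := X.smulInv
  have h := X.fd_replace hF hW hd
  rw [hF.setLIntegral_eq h f fun γ x => hf γ γ.2 x]
  refine le_antisymm ((lintegral_union_le _ _ _).trans (le_of_eq ?_))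
    (lintegral_mono_set subset_union_left)
  have hm : MeasurableSet {x | ∃ γ : N, γ • x ∈ W} := by
    rw [ofPred_exists]
    exact MeasurableSet.iUnion fun γ => (X.mp γ).measurable hW
  rw [le_antisymm ((lintegral_mono_set (sdiff_subset_compl _ _)).trans
    (setLIntegral_eq_zero hm.compl fun x hx => h0 x fun γ hγ h => hx ⟨⟨γ, hγ⟩, h⟩).le) zero_le,
    add_zero]

lemma integral_unfold {W : Set M} (hW : MeasurableSet W)
    (hd : ∀ γ ∈ N, ∀ x ∈ W, γ • x ∈ W → γ = 1) {f : M → ℂ}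
    (hf : ∀ γ ∈ N, ∀ x, f (γ • x) = f x) (h0 : ∀ x, (∀ γ ∈ N, γ • x ∉ W) → f x = 0) :
    ∫ x in F, f x ∂X.μ = ∫ x in W, f x ∂X.μ := by
  have := X.measConst
  have := X.smulInv
  have h := X.fd_replace hF hW hd
  rw [hF.setIntegral_eq h fun γ x => hf γ γ.2 x]
  refine setIntegral_eq_of_subset_of_ae_sdiff_eq_zero h.nullMeasurableSet subset_union_left
    (Eventually.of_forall fun x hx => h0 x fun γ hγ h => ?_)
  exact (hx.1.resolve_left hx.2).2 ⟨⟨γ, hγ⟩, h⟩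

lemma lintegral_le_fd {W : Set M} (hW : MeasurableSet W)
    (hd : ∀ γ ∈ N, ∀ x ∈ W, γ • x ∈ W → γ = 1) {f : M → ℝ≥0∞}
    (hf : ∀ γ ∈ N, ∀ x, f (γ • x) = f x) : ∫⁻ x in W, f x ∂X.μ ≤ ∫⁻ x in F, f x ∂X.μ := by
  have := X.measConst
  have := X.smulInv
  rw [hF.setLIntegral_eq (X.fd_replace hF hW hd) f fun γ x => hf γ γ.2 x]
  exact lintegral_mono_set subset_union_left

end Geo

end Pool.Agent.MP_d9582c_gt.H34
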