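import Pool.Agent.MP_d9582c_gt.H34.Rel

/-!
Frames for unitary representations and Hilbert-Schmidt sums.
-/

open scoped InnerProductSpace ENNReal Topology
open Set Filter ContinuousLinearMap

noncomputable section

namespace Pool.Agent.MP_d9582c_gt.H34

variable {Q : Type*} [Group Q] {H H' H'' : Type*}
  [NormedAddCommGroup H] [InnerProductSpace ℂ H] [NormedAddCommGroup H'] [InnerProductSpace ℂ H']
  [NormedAddCommGroup H''] [InnerProductSpace ℂ H''] {ι κ : Type*}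

/-- Unitary representations. -/
abbrev URep (Q H : Type*) [Group Q] [NormedAddCommGroup H] [InnerProductSpace ℂ H] :=
  Q →* (H ≃ₗᵢ[ℂ] H)

/-- The orbits of `v` form a Bessel family with bound `c`. -/
def IsBessel (U : URep Q H) (v : ι → H) (c : ℝ≥0∞) : Prop :=
  ∀ u, ∑' j, ∑' q, ‖⟪U q (v j), u⟫_ℂ‖ₑ ^ 2 ≤ c * ‖u‖ₑ ^ 2

/-- The orbits of `v` form a Parseval frame. -/
def IsFrame (U : URep Q H) (v : ι → H) : Prop :=
  ∀ u, ∑' j, ∑' q, ‖⟪U q (v j), u⟫_ℂ‖ₑ ^ 2 = ‖u‖ₑ ^ 2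

/-- Squared Hilbert-Schmidt norm along a family. -/
def hs (v : ι → H) (X : H →L[ℂ] H') : ℝ≥0∞ := ∑' j, ‖X (v j)‖ₑ ^ 2

/-- Equivariant operators. -/
def Equi (U : URep Q H) (U' : URep Q H') (X : H →L[ℂ] H') : Prop := ∀ q u, X (U q u) = U' q (X u)

variable {U : URep Q H} {U' : URep Q H'} {U'' : URep Q H''}

lemma IsFrame.isBessel {v : ι → H} (h : IsFrame U v) : IsBessel U v 1 := fun u => by
  rw [h u, one_mul]

lemma inner_rep (U : URep Q H) (q : Q) (u v : H) : ⟪U q u, v⟫_ℂ = ⟪u, U q⁻¹ v⟫_ℂ := by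
  rw [map_inv, LinearIsometryEquiv.coe_inv, LinearIsometryEquiv.inner_map_eq_flip]

lemma Equi.comp {X : H →L[ℂ] H'} {Y : H' →L[ℂ] H''} (hY : Equi U' U'' Y) (hX : Equi U U' X) :
    Equi U U'' (Y ∘L X) := fun q u => by
  rw [comp_apply, hX, hY]; rfl

lemma Equi.add {X Y : H →L[ℂ] H'} (hX : Equi U U' X) (hY : Equi U U' Y) :
    Equi U U' (X + Y) := fun q u => by
  simp [hX q u, hY q u]

lemma Equi.sub {X Y : H →L[ℂ] H'} (hX : Equi U U' X) (hY : Equi U U' Y) :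
    Equi U U' (X - Y) := fun q u => by
  simp [hX q u, hY q u]

lemma equi_id : Equi U U (ContinuousLinearMap.id ℂ H) := fun _ _ => rfl

omit [InnerProductSpace ℂ H] [InnerProductSpace ℂ H'] in
lemma enorm_sq_le {a : H} {b : H'} {c : ℝ} (h : ‖a‖ ^ 2 ≤ c * ‖b‖ ^ 2) :
    ‖a‖ₑ ^ 2 ≤ ENNReal.ofReal c * ‖b‖ₑ ^ 2 := by
  rw [← ofReal_norm, ← ofReal_norm, ← ENNReal.ofReal_pow (norm_nonneg _),
    ← ENNReal.ofReal_pow (norm_nonneg _), mul_comm, ← ENNReal.ofReal_mul (sq_nonneg _), mul_comm]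
  exact ENNReal.ofReal_le_ofReal h

lemma hs_le_of_forall (v : ι → H) {X : H →L[ℂ] H'} {Y : H →L[ℂ] H''} {c : ℝ}
    (h : ∀ u, ‖X u‖ ^ 2 ≤ c * ‖Y u‖ ^ 2) : hs v X ≤ ENNReal.ofReal c * hs v Y := by
  rw [hs, hs, ← ENNReal.tsum_mul_left]
  exact ENNReal.tsum_le_tsum fun j => enorm_sq_le (h _)

omit [InnerProductSpace ℂ H] in
lemma enorm_sq_eq (a : H) : ‖a‖ₑ ^ 2 = ENNReal.ofReal (‖a‖ ^ 2) := by
  rw [← ofReal_norm, ENNReal.ofReal_pow (norm_nonneg _)]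

lemma hs_le_add_of_forall {H₃ : Type*} [NormedAddCommGroup H₃] [InnerProductSpace ℂ H₃]
    (v : ι → H) {X : H →L[ℂ] H'} {Y : H →L[ℂ] H''} {Z : H →L[ℂ] H₃} {c d : ℝ} (hc : 0 ≤ c)
    (hd : 0 ≤ d) (h : ∀ u, ‖X u‖ ^ 2 ≤ c * ‖Y u‖ ^ 2 + d * ‖Z u‖ ^ 2) :
    hs v X ≤ ENNReal.ofReal c * hs v Y + ENNReal.ofReal d * hs v Z := by
  rw [hs, hs, hs, ← ENNReal.tsum_mul_left, ← ENNReal.tsum_mul_left, ← ENNReal.tsum_add]
  refine ENNReal.tsum_le_tsum fun j => ?_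
  rw [enorm_sq_eq, enorm_sq_eq, enorm_sq_eq, ← ENNReal.ofReal_mul hc, ← ENNReal.ofReal_mul hd,
    ← ENNReal.ofReal_add (by positivity) (by positivity)]
  exact ENNReal.ofReal_le_ofReal (h _)

lemma hs_eq_add_of_forall {H₃ : Type*} [NormedAddCommGroup H₃] [InnerProductSpace ℂ H₃]
    (v : ι → H) {X : H →L[ℂ] H'} {Y : H →L[ℂ] H''} {Z : H →L[ℂ] H₃}
    (h : ∀ u, ‖X u‖ ^ 2 = ‖Y u‖ ^ 2 + ‖Z u‖ ^ 2) : hs v X = hs v Y + hs v Z := by
  rw [hs, hs, hs, ← ENNReal.tsum_add]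
  refine tsum_congr fun j => ?_
  rw [enorm_sq_eq, enorm_sq_eq, enorm_sq_eq, h, ENNReal.ofReal_add (by positivity) (by positivity)]

variable [CompleteSpace H] [CompleteSpace H'] [CompleteSpace H'']

lemma Equi.adjoint {X : H →L[ℂ] H'} (hX : Equi U U' X) : Equi U' U (adjoint X) := fun q u => by
  refine ext_inner_left ℂ fun w => ?_
  rw [adjoint_inner_right, ← inv_inv q, ← inner_rep U' q⁻¹, ← inner_rep U q⁻¹, ← hX,
    adjoint_inner_right]

lemma Equi.cfc {T : H →L[ℂ] H} (hT : Equi U U T) (φ : ℝ → ℝ) : Equi U U (cfc φ T) :=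
  fun q u => cfc_comm_apply (V := (U q).toContinuousLinearEquiv.toContinuousLinearMap) (hT q) φ u

omit [CompleteSpace H] in
lemma equi_starProjection (S : Submodule ℂ H) [S.HasOrthogonalProjection]
    (h : ∀ q, ∀ u ∈ S, U q u ∈ S) : Equi U U S.starProjection := fun q u => by
  refine Submodule.eq_starProjection_of_mem_of_inner_eq_zero
    (h q _ (S.starProjection_apply_mem u)) fun w hw => ?_
  rw [← map_sub, inner_rep, S.starProjection_inner_eq_zero _ _ (h _ _ hw)]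

/-- The trace property for a Bessel family against a frame. -/
lemma hs_le_adjoint {v : ι → H} {c : ℝ≥0∞} (hv : IsBessel U v c) {w : κ → H'} (hw : IsFrame U' w)
    {X : H →L[ℂ] H'} (hX : Equi U U' X) : hs v X ≤ c * hs w (adjoint X) := by
  unfold hs
  simp only [← hw (X _)]
  rw [ENNReal.tsum_comm, ← ENNReal.tsum_mul_left]
  refine ENNReal.tsum_le_tsum fun k => le_trans (le_of_eq (tsum_congr fun j => ?_)) (hv _)
  rw [← (Equiv.inv Q).tsum_eq]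
  refine tsum_congr fun q => ?_
  rw [Equiv.inv_apply, inner_rep U', inv_inv, ← hX, ← adjoint_inner_left, ← inner_conj_symm,
    RCLike.enorm_conj]

lemma hs_adjoint {v : ι → H} (hv : IsFrame U v) {w : κ → H'} (hw : IsFrame U' w)
    {X : H →L[ℂ] H'} (hX : Equi U U' X) : hs v X = hs w (adjoint X) := by
  refine le_antisymm ?_ ?_
  · simpa using hs_le_adjoint hv.isBessel hw hX
  · simpa using hs_le_adjoint hw.isBessel hv hX.adjoint

lemma IsBessel.map {v : ι → H} {c : ℝ≥0∞} (hv : IsBessel U v c) {X : H →L[ℂ] H'}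
    (hX : Equi U U' X) : IsBessel U' (fun j => X (v j)) (c * ‖X‖ₑ ^ 2) := fun u => by
  simp only [← hX _ _, ← adjoint_inner_right]
  refine (hv _).trans ?_
  rw [mul_assoc, ← mul_pow]
  gcongr
  refine (le_opENorm _ _).trans (le_of_eq ?_)
  rw [LinearIsometryEquiv.enorm_map]

/-- Ideal property of the trace. -/
lemma hs_comp_le {v : ι → H} (hv : IsFrame U v) {w : κ → H'} (hw : IsFrame U' w)
    {X : H →L[ℂ] H'} (hX : Equi U U' X) {Y : H' →L[ℂ] H'} (hY : Equi U' U' Y) :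
    hs v (Y ∘L X) ≤ ‖X‖ₑ ^ 2 * hs w Y := by
  have := hs_le_adjoint (hv.isBessel.map hX) hw hY
  rwa [one_mul, ← hs_adjoint hw hw hY] at this

lemma vnTrace_eq {v : ι → H} (hv : IsFrame U v) {X : H →L[ℂ] H} (hX : Equi U U X)
    {T : H →L[ℂ] H} (hT : ∀ u, (⟪u, T u⟫_ℂ).re = ‖X u‖ ^ 2) :
    vnTrace (fun q => U q) T = hs v X := by
  refine le_antisymm (iSup_le fun m => iSup_le fun w => iSup_le fun hw => ?_) ?_
  · have hb : IsBessel U w 1 := fun u => by rw [tsum_fintype, one_mul]; exact hw u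
    have := hs_le_adjoint hb hv hX
    rw [one_mul, ← hs_adjoint hv hv hX, hs, tsum_fintype] at this
    simpa only [hT, ← enorm_sq_eq] using this
  · rw [hs, ENNReal.tsum_eq_iSup_sum]
    refine iSup_le fun s => le_iSup_of_le s.card <|
      le_iSup_of_le (fun j => v (s.equivFin.symm j)) <| le_iSup_of_le (fun u => ?_) (le_of_eq ?_)
    · rw [← hv u, s.equivFin.symm.sum_comp fun j : s => ∑' q, ‖⟪U q (v j), u⟫_ℂ‖ₑ ^ 2,
        Finset.sum_coe_sort s fun j => ∑' q, ‖⟪U q (v j), u⟫_ℂ‖ₑ ^ 2]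
      exact ENNReal.sum_le_tsum s
    · simp only [hT, ← enorm_sq_eq]
      rw [s.equivFin.symm.sum_comp fun j : s => ‖X (v j)‖ₑ ^ 2,
        Finset.sum_coe_sort s fun j => ‖X (v j)‖ₑ ^ 2]

omit [CompleteSpace H] in
lemma HilbertBasis.tsum_enorm_sq (e : HilbertBasis ι ℂ H) (u : H) :
    ∑' k, ‖⟪e k, u⟫_ℂ‖ₑ ^ 2 = ‖u‖ₑ ^ 2 := by
  have h := lp.hasSum_norm (p := 2) (by simp) (e.repr u)
  simp only [e.repr_apply_apply, LinearIsometryEquiv.norm_map, ENNReal.toReal_ofNat,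
    Real.rpow_ofNat] at h
  simp only [enorm_sq_eq]
  rw [← ENNReal.ofReal_tsum_of_nonneg (fun _ => sq_nonneg _) h.summable, h.tsum_eq]

/-- A frame from a localization operator. -/
lemma isFrame_of_local (e : HilbertBasis ι ℂ H') {Φ : H →L[ℂ] H'}
    (h : ∀ u, ∑' q, ‖Φ (U q⁻¹ u)‖ₑ ^ 2 = ‖u‖ₑ ^ 2) :
    IsFrame U fun k => adjoint Φ (e k) := fun u => by
  rw [ENNReal.tsum_comm, ← h u]
  refine tsum_congr fun q => ?_
  simp only [inner_rep, adjoint_inner_left]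
  exact HilbertBasis.tsum_enorm_sq e _

end Pool.Agent.MP_d9582c_gt.H34
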