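import Mathlib

/-!
Operator theoretic definitions: heat operators of closed operators given by their graphs,
von Neumann traces, spectral measures and the formula for the analytic torsion.
-/

open scoped InnerProductSpace ENNReal CompactlySupported Topology
open MeasureTheory Set Filter

noncomputable section

namespace Pool.Agent.MP_d9582c_gt.H34

section Graph

variable {H K K' : Type*} [NormedAddCommGroup H] [InnerProductSpace ℂ H] [CompleteSpace H]
  [NormedAddCommGroup K] [InnerProductSpace ℂ K] [CompleteSpace K]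
  [NormedAddCommGroup K'] [InnerProductSpace ℂ K'] [CompleteSpace K']

/-- The graph of the operator `u ↦ (S u, S' u)` from the graphs of `S` and `S'`. -/
def pairGraph (Γ : Submodule ℂ (H × K)) (Γ' : Submodule ℂ (H × K')) :
    Submodule ℂ (H × WithLp 2 (K × K')) where
  carrier := {z | (z.1, z.2.fst) ∈ Γ ∧ (z.1, z.2.snd) ∈ Γ'}
  add_mem' ha hb := ⟨Γ.add_mem ha.1 hb.1, Γ'.add_mem ha.2 hb.2⟩
  zero_mem' := ⟨Γ.zero_mem, Γ'.zero_mem⟩
  smul_mem' c _ ha := ⟨Γ.smul_mem c ha.1, Γ'.smul_mem c ha.2⟩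

/-- The orthogonal projection of the Hilbert sum of `H` and `K` onto the (closed) graph `Γ`. -/
def graphProj (Γ : Submodule ℂ (H × K)) : WithLp 2 (H × K) →L[ℂ] WithLp 2 (H × K) :=
  (Γ.comap (WithLp.linearEquiv 2 ℂ (H × K)).toLinearMap).topologicalClosure.starProjection

/-- For the graph `Γ` of a closed densely defined operator `T`, the bounded operator
`(1 + T* T)⁻¹`: the upper left corner of the projection onto the graph (von Neumann). -/
def resolv (Γ : Submodule ℂ (H × K)) : H →L[ℂ] H :=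
  WithLp.fstL 2 ℂ H K ∘L graphProj Γ ∘L
    (WithLp.prodContinuousLinearEquiv 2 ℂ H K).symm.toContinuousLinearMap ∘L
      ContinuousLinearMap.inl ℂ H K

/-- The function turning `(1 + y)⁻¹` into `exp (-t y)`. -/
def heatFn (t x : ℝ) : ℝ := if x ≤ 0 then 0 else Real.exp (-t * (x⁻¹ - 1))

/-- The heat operator `exp (-t T* T)` of the operator `T` with graph `Γ`. -/
def heat (Γ : Submodule ℂ (H × K)) (t : ℝ) : H →L[ℂ] H := cfc (heatFn t) (resolv Γ)

/-- The orthogonal projection onto the kernel of the operator `T` with graph `Γ`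
(which is the kernel of `T* T`). -/
def kerProj (Γ : Submodule ℂ (H × K)) : H →L[ℂ] H :=
  (Γ.comap (LinearMap.inl ℂ H K)).topologicalClosure.starProjection

/-- The von Neumann trace of a positive equivariant operator `T` on a Hilbert module `H` over the
group von Neumann algebra of `Q`, the group acting by `U`: the supremum of `∑ j, ⟪v j, T (v j)⟫`
over the finite families `v` whose orbits form a Bessel family with bound one. -/
def vnTrace {Q : Type*} (U : Q → H → H) (T : H →L[ℂ] H) : ℝ≥0∞ :=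
  ⨆ (m : ℕ) (v : Fin m → H) (_ : ∀ u, ∑ j, ∑' q, ‖⟪U q (v j), u⟫_ℂ‖ₑ ^ 2 ≤ ‖u‖ₑ ^ 2),
    ∑ j, ENNReal.ofReal (⟪v j, T (v j)⟫_ℂ).re

/-- The functional `f ↦ ∑ j, ⟪v j, f(T) (v j)⟫`. -/
def specFunctional {ι : Type*} [Fintype ι] (T : H →L[ℂ] H) (v : ι → H) :
    C_c(ℝ, ℝ) →ₚ[ℝ] ℝ :=
  PositiveLinearMap.mk₀
    { toFun := fun f => ∑ j, (⟪v j, cfc (f : ℝ → ℝ) T (v j)⟫_ℂ).re
      map_add' := fun f f' => by
        rw [← Finset.sum_add_distrib]
        refine Finset.sum_congr rfl fun j _ => ?_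
        rw [show ((f + f' : C_c(ℝ, ℝ)) : ℝ → ℝ) = fun x => f x + f' x from rfl,
          cfc_add T f f' (by fun_prop) (by fun_prop)]
        simp
      map_smul' := fun c f => by
        rw [RingHom.id_apply, smul_eq_mul, Finset.mul_sum]
        refine Finset.sum_congr rfl fun j _ => ?_
        rw [show ((c • f : C_c(ℝ, ℝ)) : ℝ → ℝ) = fun x => c • f x from rfl,
          cfc_smul c f T (by fun_prop)]
        simp [← Complex.coe_smul] }
    fun f hf => Finset.sum_nonneg fun j _ =>
      ((ContinuousLinearMap.nonneg_iff_isPositive (cfc (f : ℝ → ℝ) T)).1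
        (cfc_nonneg fun x _ => hf x)).re_inner_nonneg_right (v j)

/-- The spectral measure of a self-adjoint operator `T` for the trace `∑ j, ⟪v j, · (v j)⟫`. -/
def specMeasure {ι : Type*} [Fintype ι] (T : H →L[ℂ] H) (v : ι → H) : Measure ℝ :=
  RealRMK.rieszMeasure (specFunctional T v)

end Graph

/-- The image of a matrix over the group ring of `G` in the group ring of `G / N`. -/
def quotMat {G : Type*} [Group G] (N : Subgroup G) [N.Normal] {r s : ℕ}
    (A : Matrix (Fin r) (Fin s) (MonoidAlgebra ℚ G)) :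
    Matrix (Fin r) (Fin s) (MonoidAlgebra ℚ (G ⧸ N)) :=
  A.map (MonoidAlgebra.mapDomainRingHom ℚ (QuotientGroup.mk' N))

/-- A chain of subgroups starting at the whole group, descending, with trivial intersection. -/
def IsChain {G : Type*} [Group G] (N : ℕ → Subgroup G) : Prop :=
  N 0 = ⊤ ∧ Antitone N ∧ ⨅ i, N i = ⊥

/-- `ρ` is the analytic torsion built from the functions `θ p`, `0 ≤ p ≤ n`: the Mellin
transforms over `(0, ε]` divided by `Γ(s)` converge for large real part of `s` and continue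
meromorphically, holomorphically at `0`, the integrals over `(ε, ∞)` converge, and `ρ` is given
by the usual alternating sum. -/
def IsTorsionOf (n : ℕ) (θ : ℕ → ℝ → ℝ) (ε ρ : ℝ) : Prop :=
  ∃ (ζ : ℕ → ℂ → ℂ) (c : ℝ),
    (∀ p ≤ n, MeromorphicOn (ζ p) univ ∧ AnalyticAt ℂ (ζ p) 0 ∧
      (∀ s : ℂ, c < s.re → IntegrableOn (fun t : ℝ => (t : ℂ) ^ (s - 1) * θ p t) (Ioc 0 ε) ∧
        ζ p s = (Complex.Gamma s)⁻¹ * ∫ t in Ioc 0 ε, (t : ℂ) ^ (s - 1) * θ p t) ∧
      IntegrableOn (fun t => θ p t / t) (Ioi ε)) ∧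
    (ρ : ℂ) = 2⁻¹ * ∑ p ∈ Finset.range (n + 1),
      (-1) ^ p * p * (deriv (ζ p) 0 + (∫ t in Ioi ε, θ p t / t : ℝ))

end Pool.Agent.MP_d9582c_gt.H34
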