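import Pool.Agent.MP_d9582c_gt.H34.DefsA

/-!
Functional calculus for closed linear relations.
-/

open scoped InnerProductSpace ENNReal Topology
open Set Filter ContinuousLinearMap

noncomputable section

namespace Pool.Agent.MP_d9582c_gt.H34

variable {H K : Type*} [NormedAddCommGroup H] [InnerProductSpace ℂ H] [CompleteSpace H]
  [NormedAddCommGroup K] [InnerProductSpace ℂ K] [CompleteSpace K]

section QF
variable (T : H →L[ℂ] H)

/-- The quadratic form of a function of an operator. -/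
def qf (φ : ℝ → ℝ) (u : H) : ℝ := (⟪u, cfc φ T u⟫_ℂ).re

lemma cfc_sa (φ : ℝ → ℝ) : IsSelfAdjoint (cfc φ T) := cfc_predicate φ T

lemma inner_cfc (φ : ℝ → ℝ) (u v : H) : ⟪cfc φ T u, v⟫_ℂ = ⟪u, cfc φ T v⟫_ℂ :=
  (cfc_sa T φ).isSymmetric u v

variable {T} {φ ψ : ℝ → ℝ}

lemma cfc_cfc (hφ : Continuous φ) (hψ : Continuous ψ) (u : H) :
    cfc φ T (cfc ψ T u) = cfc (fun x => φ x * ψ x) T u := by
  rw [cfc_mul φ ψ T hφ.continuousOn hψ.continuousOn]; rfl

lemma norm_cfc_sq (hφ : Continuous φ) (u : H) :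
    ‖cfc φ T u‖ ^ 2 = qf T (fun x => φ x ^ 2) u := by
  rw [@norm_sq_eq_re_inner ℂ, inner_cfc, cfc_cfc hφ hφ]
  simp only [sq]; rfl

lemma qf_mono (hφ : Continuous φ) (hψ : Continuous ψ) (h : ∀ x ∈ spectrum ℝ T, φ x ≤ ψ x)
    (u : H) : qf T φ u ≤ qf T ψ u := by
  have := (((ContinuousLinearMap.le_def _ _).1
    (cfc_mono h hφ.continuousOn hψ.continuousOn)).re_inner_nonneg_right u)
  simpa [qf, inner_sub_right] using this

lemma qf_add (hφ : Continuous φ) (hψ : Continuous ψ) (u : H) :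
    qf T (fun x => φ x + ψ x) u = qf T φ u + qf T ψ u := by
  rw [qf, cfc_add T φ ψ hφ.continuousOn hψ.continuousOn]
  simp [qf]

lemma qf_const_mul (hφ : Continuous φ) (c : ℝ) (u : H) :
    qf T (fun x => c * φ x) u = c * qf T φ u := by
  rw [qf, cfc_const_mul c φ T hφ.continuousOn]
  simp [qf, ← Complex.coe_smul]

lemma qf_cfc (hφ : Continuous φ) (hψ : Continuous ψ) (u : H) :
    qf T φ (cfc ψ T u) = qf T (fun x => ψ x * (φ x * ψ x)) u := by
  rw [qf, inner_cfc, cfc_cfc hφ hψ, cfc_cfc hψ (hφ.fun_mul hψ)]; rfl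

lemma qf_one (hT : IsSelfAdjoint T) (u : H) : qf T (fun _ => 1) u = ‖u‖ ^ 2 := by
  rw [qf, cfc_const_one ℝ T, @norm_sq_eq_re_inner ℂ]; rfl

lemma cfc_id_apply (hT : IsSelfAdjoint T) (u : H) : cfc (fun x : ℝ => x) T u = T u := by
  rw [cfc_id' ℝ T]

/-- Comparison of norms of functions of an operator. -/
lemma norm_cfc_sq_le (hφ : Continuous φ) (hψ : Continuous ψ) {c : ℝ}
    (h : ∀ x ∈ spectrum ℝ T, φ x ^ 2 ≤ c * ψ x ^ 2) (u : H) :
    ‖cfc φ T u‖ ^ 2 ≤ c * ‖cfc ψ T u‖ ^ 2 := by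
  rw [norm_cfc_sq hφ, norm_cfc_sq hψ, ← qf_const_mul (by fun_prop)]
  exact qf_mono (by fun_prop) (by fun_prop) h u

lemma norm_cfc_sq_le_add {χ : ℝ → ℝ} (hφ : Continuous φ) (hψ : Continuous ψ)
    (hχ : Continuous χ) {c d : ℝ}
    (h : ∀ x ∈ spectrum ℝ T, φ x ^ 2 ≤ c * ψ x ^ 2 + d * χ x ^ 2) (u : H) :
    ‖cfc φ T u‖ ^ 2 ≤ c * ‖cfc ψ T u‖ ^ 2 + d * ‖cfc χ T u‖ ^ 2 := by
  rw [norm_cfc_sq hφ, norm_cfc_sq hψ, norm_cfc_sq hχ, ← qf_const_mul (by fun_prop),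
    ← qf_const_mul (by fun_prop), ← qf_add (by fun_prop) (by fun_prop)]
  exact qf_mono (by fun_prop) (by fun_prop) h u

lemma norm_cfc_le_one (h : ∀ x ∈ spectrum ℝ T, |φ x| ≤ 1) : ‖cfc φ T‖ ≤ 1 :=
  norm_cfc_le zero_le_one h

lemma cfc_comm_apply {V : H →L[ℂ] H} (h : ∀ u, T (V u) = V (T u)) (φ : ℝ → ℝ) (u : H) :
    cfc φ T (V u) = V (cfc φ T u) :=
  DFunLike.congr_fun (Commute.cfc_real (a := T) (b := V) (ContinuousLinearMap.ext h) φ) u

end QF

variable (Γ : Submodule ℂ (H × K))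

/-- The lower left corner of the projection onto the graph, `T (1 + T* T)⁻¹`. -/
def cores : H →L[ℂ] K :=
  WithLp.sndL 2 ℂ H K ∘L graphProj Γ ∘L
    (WithLp.prodContinuousLinearEquiv 2 ℂ H K).symm.toContinuousLinearMap ∘L inl ℂ H K

variable {Γ} (hΓ : IsClosed (Γ : Set (H × K)))
include hΓ

omit [CompleteSpace H] [CompleteSpace K] in
lemma mem_graphClosure (z : WithLp 2 (H × K)) :
    z ∈ (Γ.comap (WithLp.linearEquiv 2 ℂ (H × K)).toLinearMap).topologicalClosure ↔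
      z.ofLp ∈ Γ := by
  rw [IsClosed.submodule_topologicalClosure_eq]
  · rfl
  · exact hΓ.preimage (WithLp.prod_continuous_ofLp 2 H K)

lemma resolv_mem (u : H) : (resolv Γ u, cores Γ u) ∈ Γ :=
  (mem_graphClosure hΓ _).1 (Submodule.starProjection_apply_mem _ (WithLp.toLp 2 (u, 0)))

lemma inner_resolv {v : H} {a : K} (h : (v, a) ∈ Γ) (u : H) :
    ⟪v, u - resolv Γ u⟫_ℂ = ⟪a, cores Γ u⟫_ℂ := by
  have := Submodule.starProjection_inner_eq_zero (WithLp.toLp 2 (u, (0 : K)))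
    (WithLp.toLp 2 (v, a)) ((mem_graphClosure hΓ _).2 h)
  rw [inner_eq_zero_symm, WithLp.prod_inner_apply] at this
  have e : ⟪v, u - resolv Γ u⟫_ℂ + ⟪a, 0 - cores Γ u⟫_ℂ = 0 := this
  rw [zero_sub, inner_neg_right] at e
  linear_combination e

omit [CompleteSpace K] [CompleteSpace H] hΓ in
lemma resolv_unique_aux {x : H} {y : K} (h : ⟪x, x⟫_ℂ + ⟪y, y⟫_ℂ = 0) :
    x = 0 ∧ y = 0 := by
  have := congrArg Complex.re h
  simp only [inner_self_eq_norm_sq_to_K, Complex.add_re, Complex.zero_re] at this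
  norm_cast at this
  simp only [Complex.coe_algebraMap, Complex.ofReal_re] at this
  constructor <;> rw [← norm_eq_zero] <;> nlinarith [sq_nonneg ‖x‖, sq_nonneg ‖y‖]

lemma resolv_unique {u w : H} {b : K} (hw : (w, b) ∈ Γ)
    (h : ∀ v a, (v, a) ∈ Γ → ⟪v, u - w⟫_ℂ = ⟪a, b⟫_ℂ) : resolv Γ u = w ∧ cores Γ u = b := by
  have hm : (resolv Γ u - w, cores Γ u - b) ∈ Γ := Γ.sub_mem (resolv_mem hΓ u) hw
  have h1 := h _ _ hm
  have h2 := inner_resolv hΓ hm u
  have := resolv_unique_aux (x := resolv Γ u - w) (y := cores Γ u - b) (by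
    simp only [inner_sub_right] at h1 h2 ⊢
    linear_combination h1 - h2)
  exact ⟨sub_eq_zero.1 this.1, sub_eq_zero.1 this.2⟩

lemma inner_resolv' (u v : H) :
    ⟪resolv Γ v, u⟫_ℂ = ⟪resolv Γ v, resolv Γ u⟫_ℂ + ⟪cores Γ v, cores Γ u⟫_ℂ := by
  rw [← inner_resolv hΓ (resolv_mem hΓ v) u, inner_sub_right]; ring

lemma resolv_sa : IsSelfAdjoint (resolv Γ) := by
  refine ContinuousLinearMap.isSelfAdjoint_iff_isSymmetric.2 fun u v => ?_
  change ⟪resolv Γ u, v⟫_ℂ = ⟪u, resolv Γ v⟫_ℂ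
  rw [← inner_conj_symm u, inner_resolv' hΓ u v, inner_resolv' hΓ v u, map_add, inner_conj_symm,
    inner_conj_symm]

lemma re_inner_resolv (u : H) :
    (⟪resolv Γ u, u⟫_ℂ).re = ‖resolv Γ u‖ ^ 2 + ‖cores Γ u‖ ^ 2 := by
  rw [inner_resolv' hΓ, Complex.add_re, @norm_sq_eq_re_inner ℂ, @norm_sq_eq_re_inner ℂ]; rfl

lemma norm_resolv_le (u : H) : ‖resolv Γ u‖ ≤ ‖u‖ := by
  have h1 := re_inner_resolv hΓ u
  have h2 := (Complex.re_le_norm _).trans (norm_inner_le_norm (𝕜 := ℂ) (resolv Γ u) u)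
  by_contra h
  nlinarith [norm_nonneg u, sq_nonneg ‖cores Γ u‖, not_le.1 h]

lemma spectrum_resolv {x : ℝ} (hx : x ∈ spectrum ℝ (resolv Γ)) : x ∈ Icc (0 : ℝ) 1 := by
  have h0 : 0 ≤ resolv Γ := (nonneg_iff_isPositive _).2 ⟨(resolv_sa hΓ).isSymmetric, fun u => by
    change 0 ≤ (⟪resolv Γ u, u⟫_ℂ).re
    rw [re_inner_resolv hΓ]; positivity⟩
  refine ⟨spectrum_nonneg_of_nonneg h0 hx, ?_⟩
  rcases subsingleton_or_nontrivial H with h | h
  · simp at hx
  have := spectrum.norm_le_norm_of_mem hx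
  exact (le_abs_self x).trans (this.trans (opNorm_le_bound _ zero_le_one fun u => by
    simpa using norm_resolv_le hΓ u))

lemma norm_cores_sq (u : H) : ‖cores Γ u‖ ^ 2 = qf (resolv Γ) (fun x => x - x ^ 2) u := by
  have h1 := re_inner_resolv hΓ u
  have h2 := norm_cfc_sq (T := resolv Γ) continuous_id' u
  rw [cfc_id_apply (resolv_sa hΓ)] at h2
  have h3 : qf (resolv Γ) (fun x => x) u = (⟪resolv Γ u, u⟫_ℂ).re := by
    rw [qf, ← inner_cfc, cfc_id_apply (resolv_sa hΓ)]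
  have h4 := qf_add (T := resolv Γ) (φ := fun x => x - x ^ 2) (ψ := fun x => x ^ 2)
    (by fun_prop) (by fun_prop) u
  simp only [sub_add_cancel] at h4
  linarith

/-- Functions of the form `x * ψ x` map into the domain. -/
lemma cfc_mem {ψ : ℝ → ℝ} (hψ : Continuous ψ) (u : H) :
    (cfc (fun x => x * ψ x) (resolv Γ) u, cores Γ (cfc ψ (resolv Γ) u)) ∈ Γ := by
  rw [← cfc_cfc continuous_id' hψ, cfc_id_apply (resolv_sa hΓ)]
  exact resolv_mem hΓ _

/-- Vectors in a low energy band have small derivative. -/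
lemma band {α : ℝ → ℝ} (hα : Continuous α) {l : ℝ} (hl : 0 ≤ l)
    (h0 : ∀ x ≤ (1 + l)⁻¹, α x = 0) (u : H) :
    ∃ k, (cfc α (resolv Γ) u, k) ∈ Γ ∧ ‖k‖ ^ 2 ≤ l * ‖cfc α (resolv Γ) u‖ ^ 2 := by
  have hp : 0 < (1 + l)⁻¹ := by positivity
  have hψ : Continuous fun x => α x / max x (1 + l)⁻¹ :=
    hα.div (by fun_prop) fun x => (hp.trans_le (le_max_right _ _)).ne'
  have e : ∀ x, x * (α x / max x (1 + l)⁻¹) = α x := fun x => by
    rcases le_total x (1 + l)⁻¹ with h | h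
    · simp [h0 x h]
    · rw [max_eq_left h, mul_div_cancel₀ _ (hp.trans_le h).ne']
  have hm := cfc_mem hΓ hψ u
  simp only [e] at hm
  refine ⟨_, hm, ?_⟩
  rw [norm_cores_sq hΓ, qf_cfc (by fun_prop) hψ, norm_cfc_sq hα, ← qf_const_mul (by fun_prop)]
  refine qf_mono (by fun_prop) (by fun_prop) (fun x _ => ?_) u
  rcases le_total x (1 + l)⁻¹ with h | h
  · simp [h0 x h]
  · have hx := hp.trans_le h
    rw [max_eq_left h]
    have h1 : 1 ≤ x * (1 + l) := by rwa [inv_le_iff_one_le_mul₀' (by positivity), mul_comm] at h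
    have : α x / x * ((x - x ^ 2) * (α x / x)) = (1 - x) / x * α x ^ 2 := by field_simp
    rw [this]
    gcongr
    rw [div_le_iff₀ hx]; linarith

/-- Vectors with small derivative are concentrated at low energy. -/
lemma tail {α : ℝ → ℝ} (hα : Continuous α) {l : ℝ} (hl : 0 < l)
    (h1 : ∀ x, (1 + l)⁻¹ ≤ x → α x = 1) {w : H} {k : K} (hw : (w, k) ∈ Γ) :
    l * ‖w - cfc α (resolv Γ) w‖ ^ 2 ≤ ‖cfc (fun x => 1 - α x) (resolv Γ)‖ ^ 2 * ‖k‖ ^ 2 := by
  set R := resolv Γ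
  have hR := resolv_sa hΓ
  have hp : (1 + l)⁻¹ < 1 := inv_lt_one_of_one_lt₀ (by linarith)
  have hd : ∀ x, 0 < 1 - min x (1 + l)⁻¹ := fun x => by linarith [min_le_right x (1 + l)⁻¹]
  set β : ℝ → ℝ := fun x => 1 - α x with hβd
  have hβ : Continuous β := by fun_prop
  set ψ : ℝ → ℝ := fun x => β x ^ 2 / (1 - min x (1 + l)⁻¹) with hψd
  have hψ : Continuous ψ := (hβ.pow 2).div (by fun_prop) fun x => (hd x).ne'
  have e : ∀ x, (1 - x) * ψ x = β x ^ 2 := fun x => by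
    rcases le_total x (1 + l)⁻¹ with h | h
    · have := hd x
      simp only [hψd, min_eq_left h] at this ⊢
      field_simp
    · simp [hψd, hβd, h1 x h]
  have e1 : w - cfc α R w = cfc β R w := by
    rw [hβd, cfc_sub _ _ R continuousOn_const hα.continuousOn, cfc_const_one ℝ R]; rfl
  have e2 : cfc ψ R w - R (cfc ψ R w) = cfc (fun x => β x ^ 2) R w := by
    simp only [← e]
    rw [← cfc_cfc (by fun_prop) hψ, cfc_sub _ _ R continuousOn_const (continuousOn_id' _),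
      cfc_const_one ℝ R, cfc_id' ℝ R]; rfl
  have h2 := inner_resolv hΓ hw (cfc ψ R w)
  rw [e2] at h2
  have h3 : ‖cfc β R w‖ ^ 2 ≤ ‖k‖ * ‖cores Γ (cfc ψ R w)‖ := by
    rw [norm_cfc_sq hβ, qf, h2]
    exact (Complex.re_le_norm _).trans (norm_inner_le_norm _ _)
  have h4 : l * ‖cores Γ (cfc ψ R w)‖ ^ 2 ≤ ‖cfc β R (cfc β R w)‖ ^ 2 := by
    rw [norm_cores_sq hΓ, qf_cfc (by fun_prop) hψ, cfc_cfc hβ hβ, norm_cfc_sq (hβ.fun_mul hβ),
      ← qf_const_mul (by fun_prop)]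
    refine qf_mono (by fun_prop) (by fun_prop) (fun x hx => ?_) w
    rcases le_total x (1 + l)⁻¹ with h | h
    · have h5 := hd x
      simp only [hψd, min_eq_left h] at h5 ⊢
      have h6 : x * (1 + l) ≤ 1 := by rwa [← one_div, le_div_iff₀ (by positivity)] at h
      have : l * (β x ^ 2 / (1 - x) * ((x - x ^ 2) * (β x ^ 2 / (1 - x)))) =
          l * x / (1 - x) * (β x * β x) ^ 2 := by field_simp
      rw [this]
      refine mul_le_of_le_one_left (sq_nonneg _) ?_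
      rw [div_le_one h5]; linarith
    · simp [hψd, hβd, h1 x h]
  have h5 : ‖cfc β R (cfc β R w)‖ ^ 2 ≤ ‖cfc β R‖ ^ 2 * ‖cfc β R w‖ ^ 2 := by
    rw [← mul_pow]; gcongr; exact le_opNorm _ _
  rw [e1]
  rcases (norm_nonneg (cfc β R w)).eq_or_lt with h | h
  · rw [← h]; simp; positivity
  have h6 : (‖cfc β R w‖ ^ 2) ^ 2 ≤ ‖k‖ ^ 2 * ‖cores Γ (cfc ψ R w)‖ ^ 2 := by
    rw [← mul_pow]; gcongr
  refine le_of_mul_le_mul_right ?_ (pow_pos h 2)
  nlinarith [sq_nonneg ‖k‖, mul_le_mul_of_nonneg_left h6 hl.le,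
    mul_le_mul_of_nonneg_left (h4.trans h5) (sq_nonneg ‖k‖)]

/-- Operators preserving the graph together with their adjoints commute with the resolvent. -/
lemma resolv_comm {V : H →L[ℂ] H} {V' : K →L[ℂ] K}
    (h : ∀ u a, (u, a) ∈ Γ → (V u, V' a) ∈ Γ)
    (h' : ∀ u a, (u, a) ∈ Γ → (adjoint V u, adjoint V' a) ∈ Γ) (u : H) :
    resolv Γ (V u) = V (resolv Γ u) :=
  (resolv_unique hΓ (h _ _ (resolv_mem hΓ u)) fun v a hv => by
    rw [← map_sub, ← adjoint_inner_left, ← adjoint_inner_left, inner_resolv hΓ (h' _ _ hv)]).1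

lemma resolv_of_ker {u : H} (hu : (u, (0 : K)) ∈ Γ) : resolv Γ u = u :=
  (resolv_unique hΓ hu fun v a _ => by simp).1

omit [CompleteSpace H] [CompleteSpace K] in
lemma mem_kerClosure (u : H) :
    u ∈ (Γ.comap (LinearMap.inl ℂ H K)).topologicalClosure ↔ (u, (0 : K)) ∈ Γ := by
  rw [IsClosed.submodule_topologicalClosure_eq]
  · rfl
  · exact hΓ.preimage (f := fun u : H => (u, (0 : K))) (by fun_prop)

omit [CompleteSpace K] in
lemma kerProj_mem (u : H) : (kerProj Γ u, (0 : K)) ∈ Γ :=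
  (mem_kerClosure hΓ _).1 (Submodule.starProjection_apply_mem _ u)

omit [CompleteSpace K] in
lemma inner_sub_kerProj {v : H} (hv : (v, (0 : K)) ∈ Γ) (u : H) : ⟪u - kerProj Γ u, v⟫_ℂ = 0 :=
  Submodule.starProjection_inner_eq_zero u v ((mem_kerClosure hΓ _).2 hv)

omit hΓ

lemma heatFn_eq {t : ℝ} (ht : 0 < t) (x : ℝ) :
    heatFn t x = Real.exp t * expNegInvGlue (x / t) := by
  unfold heatFn expNegInvGlue
  by_cases h : x ≤ 0
  · simp [h, div_nonpos_of_nonpos_of_nonneg h ht.le]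
  · rw [if_neg h, if_neg (not_le.2 (div_pos (not_le.1 h) ht)), ← Real.exp_add]
    congr 1
    rw [inv_div]; ring

lemma continuous_heatFn {t : ℝ} (ht : 0 < t) : Continuous (heatFn t) := by
  rw [funext (heatFn_eq ht)]
  exact continuous_const.mul ((expNegInvGlue.contDiff (n := 0)).continuous.comp (by fun_prop))

lemma heatFn_add (s t x : ℝ) : heatFn (s + t) x = heatFn s x * heatFn t x := by
  unfold heatFn
  split_ifs
  · simp
  · rw [← Real.exp_add]; ring_nf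

lemma heatFn_nonneg (t x : ℝ) : 0 ≤ heatFn t x := by
  unfold heatFn; split_ifs <;> positivity

lemma heatFn_le_one {t x : ℝ} (ht : 0 ≤ t) (hx : x ≤ 1) : heatFn t x ≤ 1 := by
  unfold heatFn
  split_ifs with h
  · exact zero_le_one
  · rw [Real.exp_le_one_iff]
    have := (one_le_inv₀ (not_le.1 h)).2 hx
    nlinarith

lemma heatFn_one (t : ℝ) : heatFn t 1 = 1 := by simp [heatFn]

lemma heat_add (Γ : Submodule ℂ (H × K)) {s t : ℝ} (hs : 0 < s) (ht : 0 < t) (u : H) :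
    heat Γ (s + t) u = heat Γ s (heat Γ t u) := by
  rw [heat, heat, heat, cfc_cfc (continuous_heatFn hs) (continuous_heatFn ht),
    funext (heatFn_add s t)]

lemma heat_sa (Γ : Submodule ℂ (H × K)) (t : ℝ) : IsSelfAdjoint (heat Γ t) := cfc_sa _ _

include hΓ in
lemma norm_heat_le {t : ℝ} (ht : 0 ≤ t) : ‖heat Γ t‖ ≤ 1 :=
  norm_cfc_le_one fun x hx => by
    rw [abs_of_nonneg (heatFn_nonneg t x)]
    exact heatFn_le_one ht (spectrum_resolv hΓ hx).2

end Pool.Agent.MP_d9582c_gt.H34
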