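import Pool.Agent.MP_d9582c_gt.H34.Asm

/-!
Smoothing operators with a Hilbert-Schmidt bound.
-/

open scoped Manifold ContDiff Topology ENNReal InnerProductSpace
open MeasureTheory Set Filter UniformSpace

noncomputable section

namespace Pool.Agent.MP_d9582c_gt.H34

universe u v

variable {n p : ℕ} {M : Type u} [TopologicalSpace M] [ChartedSpace (E n) M]
  {G : Type v} [Group G] [MulAction G M] [IsManifold 𝓘(ℝ, E n) ∞ M] [MeasurableSpace M]
  [BorelSpace M] {X : Geo n G M} [Countable G]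

open Geo FD

lemma rows (hcar : CarStmt.{u, v}) (X : Geo n G M) : ∃ h : Module.End ℂ X.Sec, Good h ∧
    (X.dd + X.del) * h + h * (X.dd + X.del) = 1 ∧ h * X.e0 = 0 := by
  obtain ⟨h1, h2, h3, -, -, h6, -, -, -, Q, h7, h8, hQ, hN, hn⟩ := hcar n M G X
  obtain ⟨ν, hν, h9, h10⟩ := hN.inv hn
  exact ⟨Q * ν, hQ.mul hν, alg_rows h1 h2 h3 h6 h7 h8 h9 h10⟩

omit [MeasurableSpace M] [BorelSpace M] in
lemma exists_nsq_eq (g : RMetric n M) (x : M) : ∃ ℓ : (Fin p → Fin n) → Alt n p →ₗ[ℂ] ℂ,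
    ∀ α, ENNReal.ofReal (nsq g x α) = ∑ I, ‖ℓ I α‖ₑ ^ 2 := by
  refine ⟨fun I => ⟨⟨fun α => (√(p.factorial : ℝ)⁻¹ : ℝ) * α (frame g x ∘ I), fun _ _ => by
    simp [mul_add]⟩, fun _ _ => by simp [mul_left_comm]⟩, fun α => ?_⟩
  simp only [enorm_sq_eq, LinearMap.coe_mk, AddHom.coe_mk, norm_mul, Complex.norm_real, mul_pow,
    Real.norm_eq_abs, sq_abs]
  rw [← ENNReal.ofReal_sum_of_nonneg fun _ _ => by positivity, Real.sq_sqrt (by positivity), nsq,
    Finset.mul_sum]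

lemma bessel_fun {D : FD X} {k : ℕ} {w : Fin k → D.P p}
    (hw : IsBessel (D.rep p) (fun j => (w j : D.H p)) 4) (ℓ : D.P p →ₗ[ℂ] ℂ) {B : ℝ≥0∞}
    (hB : B ≠ ⊤) (h : ∀ η, ‖ℓ η‖ₑ ^ 2 ≤ B * ‖η‖ₑ ^ 2) :
    ∑' j, ∑' q : G ⧸ D.N, ‖ℓ ((D.trOp p q.out⁻¹).pre (w j))‖ₑ ^ 2 ≤ 4 * B := by
  have e : B = ENNReal.ofReal (√B.toReal ^ 2) := by
    rw [Real.sq_sqrt ENNReal.toReal_nonneg, ENNReal.ofReal_toReal hB]
  have h' : ∀ η, ‖ℓ η‖ ≤ √B.toReal * ‖η‖ := fun η =>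
    norm_le_of_enorm_sq (Real.sqrt_nonneg _) (e ▸ h η)
  set z := (InnerProductSpace.toDual ℂ (D.H p)).symm (cext ℓ _ h')
  calc _ = ∑' j, ∑' q, ‖⟪D.rep p q (w j), z⟫_ℂ‖ₑ ^ 2 := by
        refine tsum_congr fun j => ((Equiv.inv _).tsum_eq _).symm.trans (tsum_congr fun q => ?_)
        rw [← ofReal_norm (⟪_, _⟫_ℂ), norm_inner_symm, ofReal_norm,
          InnerProductSpace.toDual_symm_apply, ← cext_coe ℓ _ h', ← rep_coe]
        simp
    _ ≤ 4 * ‖z‖ₑ ^ 2 := hw z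
    _ ≤ _ := by
      gcongr
      rw [enorm_sq_eq, e, LinearIsometryEquiv.norm_map]
      exact ENNReal.ofReal_le_ofReal (pow_le_pow_left₀ (norm_nonneg _)
        (norm_cext_le ℓ (Real.sqrt_nonneg _) h') 2)

lemma hs_piece {D : FD X} {k : ℕ} {w : Fin k → D.P p}
    (hw : IsBessel (D.rep p) (fun j => (w j : D.H p)) 4) {T : Module.End ℂ X.Sec} (hT : Eqv T)
    {s : Finset (Fin X.m)} {a : Fin X.m} (ha : a ∈ s) (q : ℕ) {B : ℝ≥0∞} (hB : B ≠ ⊤)
    (h : ∀ η : D.P p, ∀ x ∈ X.U a,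
      ENNReal.ofReal (nsq X.g x ((T (D.inj p η)).v s q x)) ≤ B * ‖η‖ₑ ^ 2) :
    ∑' j, D.nrm ((T (D.inj p (w j))).v s q) ≤ n ^ q * (4 * B) * X.μ (X.U a) := by
  simp only [fun j => nrm_eq_tsum (hT.inv (invS_inj (w j))) ha q, ← hT _ _, trS_inj]
  simp only [← fun j => lintegral_tsum (μ := X.μ.restrict (X.U a)) fun γ : G ⧸ D.N =>
    (Sec.measurable (T (D.inj p ((D.trOp p γ.out⁻¹).pre (w j)))) s q).aemeasurable]
  rw [← lintegral_tsum fun j => (Measurable.tsum fun γ : G ⧸ D.N =>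
    Sec.measurable (T (D.inj p ((D.trOp p γ.out⁻¹).pre (w j)))) s q).aemeasurable,
    ← setLIntegral_const]
  refine setLIntegral_mono' (X.isOpen_U a).measurableSet fun x hx => ?_
  obtain ⟨ℓ, hℓ⟩ := exists_nsq_eq (p := q) X.g x
  simp only [hℓ, Summable.tsum_finsetSum fun _ _ => ENNReal.summable]
  refine (Finset.sum_le_card_nsmul _ _ (4 * B) fun I _ => bessel_fun hw
    (ℓ I ∘ₗ LinearMap.proj x ∘ₗ Sec.comp s q ∘ₗ T ∘ₗ D.inj p) hB fun η => ?_).trans (by simp)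
  refine le_trans ?_ (h η x hx)
  rw [hℓ]
  exact Finset.single_le_sum (f := fun I => ‖ℓ I _‖ₑ ^ 2) (fun _ _ => zero_le) (Finset.mem_univ I)

omit [BorelSpace M] [Countable G] in
lemma nrmS_le_sum (D : FD X) (σ : X.Sec) :
    nrmS D σ ≤ ∑ s, ∑ q ∈ Finset.range (n + 1), D.nrm (σ.v s q) := iSup₂_le fun s q => by
  rcases lt_or_ge n q with hq | hq
  · simp [nrm, fun x => alt_eq_zero hq (σ.v s q x)]
  · exact (Finset.single_le_sum (f := fun q => D.nrm (σ.v s q)) (fun _ _ => zero_le)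
      (Finset.mem_range.2 (by omega))).trans (Finset.single_le_sum
        (f := fun s => ∑ q ∈ Finset.range (n + 1), D.nrm (σ.v s q)) (fun _ _ => zero_le)
        (Finset.mem_univ s))

lemma local_le_nrmS {D : FD X} {σ : X.Sec} (hσ : InvS D σ) (a : Fin X.m) (s q) :
    ∫⁻ y in X.U a, ENNReal.ofReal (nsq X.g y (σ.v s q y)) ∂X.μ ≤ nrmS D σ :=
  (X.lintegral_le_fd D.fd (X.isOpen_U a).measurableSet (fun γ _ x hx hx' => X.disj a γ x hx hx')
    fun γ hγ x => by rw [(hσ.inv s q).nsq hγ]).trans (le_nrmS D σ s q)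

omit [BorelSpace M] [Countable G] in
lemma vol_le (a : Fin X.m) : X.μ (X.U a) ≤ ∑ b, X.μ (X.U b) :=
  Finset.single_le_sum (f := fun b => X.μ (X.U b)) (fun _ _ => zero_le) (Finset.mem_univ a)

omit [BorelSpace M] [Countable G] in
lemma vol_ne_top : ∑ b, X.μ (X.U b) ≠ ⊤ := ENNReal.sum_ne_top.2 fun b _ => X.μ_fin b

lemma good_of_pointwise {S : Module.End ℂ X.Sec} (hS : Eqv S) (h0 : X.e0 * S = 0) {C : ℝ}
    (h : ∀ (σ : X.Sec) (s : Finset (Fin X.m)) (hs : s.Nonempty) (p : ℕ), ∀ x ∈ X.U (s.min' hs),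
      ENNReal.ofReal (nsq X.g x ((S σ).v s p x)) ≤ ENNReal.ofReal C *
        ∫⁻ y in X.U (s.min' hs), ENNReal.ofReal (nsq X.g y (σ.v s p y)) ∂X.μ) : Good S :=
  ⟨hS, (∑ b, X.μ (X.U b)) * ENNReal.ofReal C, ENNReal.mul_ne_top vol_ne_top ENNReal.ofReal_ne_top,
    bd_of_local hS h0 0 fun σ s hs p =>
      (setLIntegral_mono' (X.isOpen_U _).measurableSet (h σ s hs p)).trans (by
        rw [setLIntegral_const, mul_comm, ← mul_assoc]
        gcongr
        exacts [vol_le _, le_rfl])⟩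

theorem smoothing (hcar : CarStmt.{u, v}) (hcone : ConeStmt.{u, v}) : SmoothingStmt.{u, v} := by
  intro n M _ _ G _ _ _ _ _ _ X
  obtain ⟨h, hg, hh, he⟩ := rows hcar X
  obtain ⟨-, h2, h3, h4, h5, h6, -, gd, ge, -⟩ := hcar n M G X
  obtain ⟨C, K, S, -, hK⟩ := hcone n M G X
  obtain ⟨c, c1, c2, c3⟩ := ((ge.mul hg).eventually.and
    (((ge.mul hg).mul gd).eventually.and (gd.mul ge).eventually)).exists
  set Z : ℝ≥0∞ := ENNReal.ofReal (c ^ 2) * ∑ _ : Finset (Fin X.m), ∑ q ∈ Finset.range (n + 1),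
    n ^ q * (4 * ENNReal.ofReal (c ^ 2)) * ∑ b, X.μ (X.U b) with hZ
  have hZ' : Z ≠ ⊤ := ENNReal.mul_ne_top ENNReal.ofReal_ne_top (ENNReal.sum_ne_top.2 fun _ _ =>
    ENNReal.sum_ne_top.2 fun _ _ => ENNReal.mul_ne_top (by finiteness) vol_ne_top)
  refine ⟨max (c * √|C| * c) (Z.toReal * |C|), fun D δ hδ => ?_⟩
  obtain ⟨k1, k2, k3, k4, k5, k6⟩ := hK δ hδ
  have gK : GoodC (K δ) (√|C| * δ) := ⟨mul_nonneg (Real.sqrt_nonneg _) hδ.1.le, k4,
    bd_of_local k4 k2 1 fun σ s hs p => (k6 σ s hs p).2.1.trans (by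
      rw [mul_pow, Real.sq_sqrt (abs_nonneg _)]; gcongr; exact le_abs_self C)⟩
  obtain ⟨c', gS⟩ := (good_of_pointwise k5 k3 fun σ s hs p => (k6 σ s hs p).2.2).eventually.exists
  have g1 := (c1.mul gS).mul c3
  have g2 := ((c2.mul gK).mul c3).neg
  have g3 := ((c1.mul gK).mul c3).neg
  have hc : c * (√|C| * δ) * c ≤ max (c * √|C| * c) (Z.toReal * |C|) * δ :=
    le_trans (le_of_eq (by ring)) (mul_le_mul_of_nonneg_right (le_max_left _ _) hδ.1.le)
  refine ⟨fun p => (D.opP g1 p p).clm, fun p => (D.opP g2 p p).clm,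
    fun p => (D.opP g3 (p + 1) p).clm,
    htp_of g3 (alg_weyl h2 h3 h4 h5 h6 hh he k1 k2) fun p η =>
      ⟨(D.opP g1 p p).pre η + (D.opP g2 p p).pre η, ?_, rfl⟩,
    fun p => ⟨equi_opP g1 p p, fun k w hw => ?_, (Op.norm_clm_le _).trans hc,
      (Op.norm_clm_le _).trans hc⟩⟩
  · rw [add_apply, Op.clm_coe, Op.clm_coe, ← P.coe_add]
  have gT := k5.mul c3.2.1
  calc _ ≤ ∑' j, ENNReal.ofReal (c ^ 2) * ∑ s, ∑ q ∈ Finset.range (n + 1),
          D.nrm (((S δ * (X.del * X.e0)) (D.inj p (w j))).v s q) := by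
        refine ENNReal.tsum_le_tsum fun j => ?_
        rw [Op.clm_coe, P.enorm_coe_sq, opP_val]
        refine (le_nrmS D _ _ _).trans ((c1.2.2 D _ (gT.inv (invS_inj (w j)))).trans ?_)
        gcongr
        exact nrmS_le_sum D _
    _ ≤ Z * ENNReal.ofReal (C / δ ^ n) := by
        rw [ENNReal.tsum_mul_left, hZ, mul_assoc, Finset.sum_mul,
          Summable.tsum_finsetSum fun _ _ => ENNReal.summable]
        gcongr with s
        rw [Finset.sum_mul, Summable.tsum_finsetSum fun _ _ => ENNReal.summable]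
        gcongr with q
        rcases s.eq_empty_or_nonempty with rfl | hs
        · have : ∀ σ, (S δ σ).v ∅ q = 0 := fun σ =>
            congrFun (congrFun (congrArg Sec.v (LinearMap.congr_fun k3 σ)) ∅) q
          simp [this, nrm]
        refine (hs_piece hw gT (s.min'_mem hs) q
          (B := ENNReal.ofReal (C / δ ^ n) * ENNReal.ofReal (c ^ 2)) (by finiteness)
          fun η x hx => ((k6 _ s hs q).2.2 x hx).trans ?_).trans ?_
        · rw [mul_assoc]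
          gcongr
          refine (local_le_nrmS (c3.2.1.inv (invS_inj η)) _ _ _).trans
            ((c3.2.2 D _ (invS_inj η)).trans ?_)
          gcongr
          exact nrmS_inj η
        · refine le_trans (mul_le_mul_right (vol_le _) _) (le_of_eq (by ring))
    _ ≤ _ := by
        rw [← ENNReal.ofReal_toReal hZ', ← ENNReal.ofReal_mul ENNReal.toReal_nonneg,
          ENNReal.toReal_ofReal ENNReal.toReal_nonneg, ← mul_div_assoc]
        have := hδ.1
        gcongr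
        exact le_trans (mul_le_mul_of_nonneg_left (le_abs_self C) ENNReal.toReal_nonneg)
          (le_max_right _ _)

end Pool.Agent.MP_d9582c_gt.H34
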