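import Pool.Agent.MP_d9582c_gt.H34.Op

/-!
The objects of the statement: Fuglede-Kadison determinants of matrices over a rational group ring,
differential forms on a Riemannian manifold, the `L²` de Rham complex of a quotient and its
analytic `L²`-torsion.  Hilbert spaces (`L²(Q)^r` and the spaces of `L²` forms) enter through
their characterizations, which determine them up to a unique unitary.
-/

open scoped Manifold ContDiff ComplexConjugate InnerProductSpace ENNReal Topology
open MeasureTheory Set Filter Pool.Agent.MP_d9582c_gt.H34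

noncomputable section

namespace Pool.Agent.MP_d9582c_gt.Spec

universe u v

section Det

variable {B B' : Type*} [NormedAddCommGroup B] [InnerProductSpace ℂ B] [CompleteSpace B]
  [NormedAddCommGroup B'] [InnerProductSpace ℂ B'] [CompleteSpace B']

open Classical in
/-- The Fuglede-Kadison determinant of `T` for the trace `∑ i, ⟪w i, · (w i)⟫`: the spectral
density function of `T` at `l` is the spectral measure of `T* T` of the interval `[0, l ^ 2]`. -/
def detOf {r : ℕ} (T : B →L[ℂ] B') (w : Fin r → B) : ℝ :=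
  if IntegrableOn Real.log (Ioi 0) (specMeasure (ContinuousLinearMap.adjoint T ∘L T) w) then
    Real.exp (2⁻¹ * ∫ x in Ioi 0, Real.log x ∂specMeasure (ContinuousLinearMap.adjoint T ∘L T) w)
  else 0

/-- `d` is the Fuglede-Kadison determinant of right multiplication by `A` from `L²(Q)^r` to
`L²(Q)^s`; these are the Hilbert spaces with orthonormal bases `Fin r × Q` and `Fin s × Q`, and
the basis vector `(i, x)` goes to `∑ j, (j, x * A i j)`. -/
def IsFKDet {Q : Type v} [Group Q] {r s : ℕ} (A : Matrix (Fin r) (Fin s) (MonoidAlgebra ℚ Q))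
    (d : ℝ) : Prop :=
  ∃ (B B' : Type v) (_ : NormedAddCommGroup B) (_ : InnerProductSpace ℂ B) (_ : CompleteSpace B)
    (_ : NormedAddCommGroup B') (_ : InnerProductSpace ℂ B') (_ : CompleteSpace B')
    (e : HilbertBasis (Fin r × Q) ℂ B) (e' : HilbertBasis (Fin s × Q) ℂ B') (T : B →L[ℂ] B'),
    (∀ i j x y, ⟪e' (j, y), T (e (i, x))⟫_ℂ = ((A i j).coeff (x⁻¹ * y) : ℂ)) ∧
      d = detOf T fun i => e (i, 1)

/-- The Approximation Conjecture for Fuglede-Kadison determinants for the group `G`. -/
def DetApprox (G : Type v) [Group G] : Prop :=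
  ∀ (N : ℕ → Subgroup G) [∀ i, (N i).Normal], IsChain N →
    ∀ (r s : ℕ) (A : Matrix (Fin r) (Fin s) (MonoidAlgebra ℚ G)) (d : ℝ) (d' : ℕ → ℝ),
      IsFKDet A d → (∀ i, IsFKDet (quotMat (N i) A) (d' i)) → Tendsto d' atTop (𝓝 d)

end Det

section Forms

variable (V : Type) [NormedAddCommGroup V] [NormedSpace ℝ V]

/-- Complex valued alternating `p`-forms on a tangent space. -/
abbrev Alt (p : ℕ) := V [⋀^Fin p]→L[ℝ] ℂ

variable {p : ℕ} {X M : Type*} [TopologicalSpace X] [ChartedSpace V X]
  [TopologicalSpace M] [ChartedSpace V M]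

/-- The tangent map of `ψ` at `x`. -/
def tang (ψ : X → M) (x : X) : V →L[ℝ] V := mfderiv 𝓘(ℝ, V) 𝓘(ℝ, V) ψ x

variable {V}

/-- Pullback of a `p`-form. -/
def pull (ψ : X → M) (η : M → Alt V p) (x : X) : Alt V p :=
  (η (ψ x)).compContinuousLinearMap (tang V ψ x)

/-- A form is smooth at `x` if its expression in the chart at `x` is smooth. -/
def SmoothAt (η : M → Alt V p) (x : M) : Prop :=
  ContDiffAt ℝ ∞ (pull (chartAt V x).symm η) (chartAt V x x)

/-- The exterior derivative, computed in the chart at `x`. -/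
def extD (η : M → Alt V p) (x : M) : Alt V (p + 1) :=
  (extDeriv (pull (chartAt V x).symm η) (chartAt V x x)).compContinuousLinearMap
    (tang V (chartAt V x) x)

variable [IsManifold 𝓘(ℝ, V) ∞ M]

variable (V M) in
/-- Smooth Riemannian metrics on `M`. -/
abbrev RMetric := Bundle.ContMDiffRiemannianMetric 𝓘(ℝ, V) ∞ V fun x : M => TangentSpace 𝓘(ℝ, V) x

variable (n : ℕ) (g : RMetric V M)

/-- The scalar product of two tangent vectors at `x`. -/
def gx (x : M) (v w : V) : ℝ := g.inner x v w

/-- An orthonormal basis of the tangent space at `x` (`n` is the dimension). -/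
def frame (x : M) : Fin n → V :=
  Classical.epsilon fun e => ∀ i j, gx g x (e i) (e j) = if i = j then 1 else 0

/-- The Hermitian scalar product of two `p`-forms at `x`. -/
def ip (x : M) (α β : Alt V p) : ℂ :=
  (p.factorial : ℂ)⁻¹ * ∑ I : Fin p → Fin n, conj (α (frame n g x ∘ I)) * β (frame n g x ∘ I)

variable {n}

/-- The Gram matrix of the metric in a local parametrization `ψ`, for the basis `b` of `V`. -/
def gram (b : Fin n → V) (ψ : V → M) (z : V) : Matrix (Fin n) (Fin n) ℝ :=
  Matrix.of fun i j => gx g (ψ z) (tang V ψ z (b i)) (tang V ψ z (b j))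

/-- `μ` is the Riemannian volume: in every chart it has density `√(det g)` with respect to the
Lebesgue measure `vol` of the basis `b`. -/
def IsVolume [MeasurableSpace V] [MeasurableSpace M] (b : Fin n → V) (vol : Measure V)
    (μ : Measure M) : Prop :=
  ∀ (x : M) (A : Set M), MeasurableSet A → A ⊆ (chartAt V x).source →
    μ A = ∫⁻ z in chartAt V x '' A, ENNReal.ofReal √(gram g b (chartAt V x).symm z).det ∂vol

/-- The action of `G` is smooth, isometric, free and cocompact. -/
def IsDeckAction (G : Type*) [Group G] [MulAction G M] : Prop :=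
  (∀ γ : G, ContMDiff 𝓘(ℝ, V) 𝓘(ℝ, V) ∞ fun x : M => γ • x) ∧
  (∀ (γ : G) (x : M) (v w : V), gx g (γ • x) (tang V (fun x : M => γ • x) x v)
    (tang V (fun x : M => γ • x) x w) = gx g x v w) ∧
  (∀ (γ : G) (x : M), γ • x = x → γ = 1) ∧
  ∃ K : Set M, IsCompact K ∧ ∀ x : M, ∃ γ : G, γ • x ∈ K

end Forms

section Complex

variable {H : ℕ → Type*} [∀ p, NormedAddCommGroup (H p)] [∀ p, InnerProductSpace ℂ (H p)]
  [∀ p, CompleteSpace (H p)] (D : ∀ p, Submodule ℂ (H p × H (p + 1)))

/-- The graph of the Hilbert space adjoint of the differential; zero in degree `0`. -/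
def coGraph : (p : ℕ) → Submodule ℂ (H p × H (p - 1))
  | 0 => Submodule.prod ⊤ ⊥
  | p + 1 => (D p).adjoint

/-- The von Neumann trace of the heat operator of the Laplacian `T* T = d* d + d d*`,
`T = (d, d*)`, minus the `L²`-Betti number, for a complex with differentials given by their graphs
`D p` and a unitary action `U` of `Q`. -/
def theta {Q : Type*} (U : ∀ p, Q → H p → H p) (p : ℕ) (t : ℝ) : ℝ :=
  (vnTrace (U p) (heat (pairGraph (D p) (coGraph D p)) t)).toReal -
    (vnTrace (U p) (kerProj (pairGraph (D p) (coGraph D p)))).toReal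

end Complex

section Torsion

variable {V : Type} [NormedAddCommGroup V] [NormedSpace ℝ V] {M : Type u} [TopologicalSpace M]
  [ChartedSpace V M] [IsManifold 𝓘(ℝ, V) ∞ M] [MeasurableSpace M] {G : Type v} [Group G]
  [MulAction G M] (n : ℕ) (g : RMetric V M) (μ : Measure M) (N : Subgroup G) (F : Set M)

/-- Smooth `N`-invariant `p`-forms that are square integrable over `F`; for a fundamental domain
`F` of `N` these are the smooth square integrable forms on the quotient of `M` by `N`. -/
def l2Forms (p : ℕ) : Set (M → Alt V p) :=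
  {η | (∀ x, SmoothAt η x) ∧ (∀ γ ∈ N, pull (fun x : M => γ • x) η = η) ∧
    IntegrableOn (fun x => ip n g x (η x) (η x)) F μ}

variable {H : ℕ → Type u} [∀ p, NormedAddCommGroup (H p)] [∀ p, InnerProductSpace ℂ (H p)]
  [∀ p, CompleteSpace (H p)] (j : ∀ p, (M → Alt V p) → H p)

/-- `H p` is the Hilbert space completion of the smooth square integrable `p`-forms, through the
map `j p`, and `U p` is the continuous extension of the action of `G / N` by pullback. -/
def IsL2 (U : ∀ p, G ⧸ N → H p → H p) : Prop :=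
  ∀ p, (∀ η ∈ l2Forms n g μ N F p, ∀ ξ ∈ l2Forms n g μ N F p,
      ⟪j p η, j p ξ⟫_ℂ = ∫ x in F, ip n g x (η x) (ξ x) ∂μ) ∧
    Dense (j p '' l2Forms n g μ N F p) ∧ ∀ γ : G, Continuous (U p γ) ∧
      ∀ η ∈ l2Forms n g μ N F p, U p γ (j p η) = j p (pull (fun x : M => γ⁻¹ • x) η)

/-- The graph of the closure of the exterior derivative, defined on the smooth square integrable
forms with square integrable derivative. -/
def graphD (p : ℕ) : Submodule ℂ (H p × H (p + 1)) :=
  (Submodule.span ℂ {z | ∃ η ∈ l2Forms n g μ N F p, extD η ∈ l2Forms n g μ N F (p + 1) ∧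
    z = (j p η, j (p + 1) (extD η))}).topologicalClosure

/-- `ρ` is the analytic `L²`-torsion of the quotient of `M` by `N` over the group `G / N`. -/
def IsTorsion (ε ρ : ℝ) : Prop :=
  ∃ (H : ℕ → Type u) (_ : ∀ p, NormedAddCommGroup (H p)) (_ : ∀ p, InnerProductSpace ℂ (H p))
    (_ : ∀ p, CompleteSpace (H p)) (j : ∀ p, (M → Alt V p) → H p) (U : ∀ p, G ⧸ N → H p → H p),
    IsL2 n g μ N F j U ∧ IsTorsionOf n (theta (graphD n g μ N F j) U) ε ρ

end Torsion

end Pool.Agent.MP_d9582c_gt.Spec
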