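import Pool.Agent.MP_d9582c_gt.H34.Defs

/-!
Statements of the independent parts of the proof.
-/

open scoped Manifold ContDiff ComplexConjugate InnerProductSpace ENNReal Topology
open MeasureTheory Set Filter

noncomputable section

namespace Pool.Agent.MP_d9582c_gt.H34

universe u v

/-- Averaged cone operators on a bounded convex open set, at scale `δ`. -/
structure ConeOps (n : ℕ) (U : Set (E n)) where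
  K : ℝ → (p : ℕ) → (E n → Alt n (p + 1)) → E n → Alt n p
  S : ℝ → (p : ℕ) → (E n → Alt n p) → E n → Alt n p
  C : ℝ
  K_congr : ∀ δ p η ξ, EqOn η ξ U → EqOn (K δ p η) (K δ p ξ) U
  S_congr : ∀ δ p η ξ, EqOn η ξ U → EqOn (S δ p η) (S δ p ξ) U
  K_add : ∀ δ ∈ Ioc (0 : ℝ) 1, ∀ p η ξ, ContDiffOn ℝ ∞ η U → ContDiffOn ℝ ∞ ξ U →
    EqOn (K δ p (η + ξ)) (K δ p η + K δ p ξ) U
  S_add : ∀ δ ∈ Ioc (0 : ℝ) 1, ∀ p η ξ, ContDiffOn ℝ ∞ η U → ContDiffOn ℝ ∞ ξ U →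
    EqOn (S δ p (η + ξ)) (S δ p η + S δ p ξ) U
  K_smul : ∀ δ p (c : ℂ) η, EqOn (K δ p (c • η)) (c • K δ p η) U
  S_smul : ∀ δ p (c : ℂ) η, EqOn (S δ p (c • η)) (c • S δ p η) U
  K_smooth : ∀ δ ∈ Ioc (0 : ℝ) 1, ∀ p η, ContDiffOn ℝ ∞ η U → ContDiffOn ℝ ∞ (K δ p η) U
  S_smooth : ∀ δ ∈ Ioc (0 : ℝ) 1, ∀ p η, ContDiffOn ℝ ∞ η U → ContDiffOn ℝ ∞ (S δ p η) U
  homotopy_succ : ∀ δ ∈ Ioc (0 : ℝ) 1, ∀ p η, ContDiffOn ℝ ∞ η U → ∀ x ∈ U,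
    extDeriv (K δ p η) x + K δ (p + 1) (extDeriv η) x = η x - S δ (p + 1) η x
  homotopy_zero : ∀ δ ∈ Ioc (0 : ℝ) 1, ∀ η, ContDiffOn ℝ ∞ η U → ∀ x ∈ U,
    K δ 0 (extDeriv η) x = η x - S δ 0 η x
  K_bound : ∀ δ ∈ Ioc (0 : ℝ) 1, ∀ p η, ContDiffOn ℝ ∞ η U →
    ∫⁻ x in U, ‖K δ p η x‖ₑ ^ 2 ≤ ENNReal.ofReal (C * δ ^ 2) * ∫⁻ x in U, ‖η x‖ₑ ^ 2
  S_bound : ∀ δ ∈ Ioc (0 : ℝ) 1, ∀ p η, ContDiffOn ℝ ∞ η U → ∀ x ∈ U,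
    ‖S δ p η x‖ₑ ^ 2 ≤ ENNReal.ofReal (C / δ ^ n) * ∫⁻ x in U, ‖η x‖ₑ ^ 2
  S_one_succ : ∀ p η, ∀ x ∈ U, S 1 (p + 1) η x = 0
  S_one_zero : ∀ η, ∀ x ∈ U, ∀ y ∈ U, S 1 0 η x = S 1 0 η y

def EuclStmt : Prop :=
  ∀ (n : ℕ) (U : Set (E n)), IsOpen U → Convex ℝ U → Bornology.IsBounded U → U.Nonempty →
    Nonempty (ConeOps n U)

/-- An equivariant good cover with a partition of unity. -/
structure Cover (n : ℕ) (G : Type v) (M : Type u) [Group G] [MulAction G M] [TopologicalSpace M]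
    [ChartedSpace (E n) M] where
  m : ℕ
  ctr : Fin m → M
  C : Fin m → Set M
  U : Fin m → Set M
  Cl : Fin m → Set M
  φ : Fin m → M → ℝ
  isCompact_C : ∀ a, IsCompact (C a)
  isOpen_U : ∀ a, IsOpen (U a)
  isCompact_Cl : ∀ a, IsCompact (Cl a)
  C_sub : ∀ a, C a ⊆ U a
  U_sub : ∀ a, U a ⊆ Cl a
  Cl_sub : ∀ a, Cl a ⊆ (chartAt (E n) (ctr a)).source
  disj : ∀ a (γ : G) x, x ∈ U a → γ • x ∈ U a → γ = 1
  conv : ∀ a b (γ : G), Convex ℝ (chartAt (E n) (ctr a) '' (U a ∩ {x | γ⁻¹ • x ∈ U b}))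
  smooth : ∀ a, ContMDiff 𝓘(ℝ, E n) 𝓘(ℝ, ℝ) ∞ (φ a)
  inv : ∀ a (γ : G) x, φ a (γ • x) = φ a x
  supp : ∀ a x, φ a x ≠ 0 → ∃ γ : G, γ • x ∈ C a
  sum_sq : ∀ x, ∑ a, φ a x ^ 2 = 1

def CoverStmt : Prop :=
  ∀ (n : ℕ) (M : Type u) [TopologicalSpace M] [T2Space M] [SecondCountableTopology M]
    [ChartedSpace (E n) M] [IsManifold 𝓘(ℝ, E n) ∞ M] (G : Type v) [Group G] [MulAction G M]
    [ProperlyDiscontinuousSMul G M],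
    (∀ γ : G, ContMDiff 𝓘(ℝ, E n) 𝓘(ℝ, E n) ∞ fun x : M => γ • x) →
    (∀ (γ : G) (x : M), γ • x = x → γ = 1) →
    (∃ K : Set M, IsCompact K ∧ ∀ x : M, ∃ γ : G, γ • x ∈ K) → Nonempty (Cover n G M)

/-- The differential of a real function. -/
def dfun (n : ℕ) {M : Type u} [TopologicalSpace M] [ChartedSpace (E n) M] (χ : M → ℝ) (x : M) :
    E n →L[ℝ] ℝ := mfderiv 𝓘(ℝ, E n) 𝓘(ℝ, ℝ) χ x

/-- Invariance of the Riemannian volume and comparison with a chart on a compact set. -/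
def VolStmt : Prop :=
  ∀ (n : ℕ) (M : Type u) [TopologicalSpace M] [T2Space M] [SecondCountableTopology M]
    [ChartedSpace (E n) M] [IsManifold 𝓘(ℝ, E n) ∞ M] [MeasurableSpace M] [BorelSpace M]
    (g : RMetric n M) (μ : Measure M), IsVolume g μ →
    (∀ f : M ≃ M, ContMDiff 𝓘(ℝ, E n) 𝓘(ℝ, E n) ∞ f → ContMDiff 𝓘(ℝ, E n) 𝓘(ℝ, E n) ∞ f.symm →
      (∀ x v w, gx g (f x) (tang n f x v) (tang n f x w) = gx g x v w) →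
      MeasurePreserving f μ μ) ∧
    ∀ (x₀ : M) (C : Set M), IsCompact C → C ⊆ (chartAt (E n) x₀).source →
      (∃ c : ℝ, ∀ A : Set M, MeasurableSet A → A ⊆ C → ∀ f : E n → ℝ≥0∞,
        AEMeasurable f (volume.restrict (chartAt (E n) x₀ '' A)) →
        ∫⁻ x in A, f (chartAt (E n) x₀ x) ∂μ ≤
            ENNReal.ofReal c * ∫⁻ z in chartAt (E n) x₀ '' A, f z ∧
          ∫⁻ z in chartAt (E n) x₀ '' A, f z ≤
            ENNReal.ofReal c * ∫⁻ x in A, f (chartAt (E n) x₀ x) ∂μ) ∧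
      (∀ p : ℕ, ∃ c : ℝ, ∀ x ∈ C, ∀ α : Alt n p,
        nsq g x (α.compContinuousLinearMap (tang n (chartAt (E n) x₀) x)) ≤ c * ‖α‖ ^ 2 ∧
        ‖α‖ ^ 2 ≤ c * nsq g x (α.compContinuousLinearMap (tang n (chartAt (E n) x₀) x))) ∧
      ∀ χ : M → ℝ, ContMDiff 𝓘(ℝ, E n) 𝓘(ℝ, ℝ) ∞ χ → ∃ c : ℝ, ∀ x ∈ C, ∀ v : E n,
        dfun n χ x v ^ 2 ≤ c * gx g x v v

/-- The spectral measure computes Hilbert-Schmidt type sums off the kernel. -/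
def MeasStmt : Prop :=
  ∀ (H K : Type v) [NormedAddCommGroup H] [InnerProductSpace ℂ H] [CompleteSpace H]
    [NormedAddCommGroup K] [InnerProductSpace ℂ K] [CompleteSpace K] (B : H →L[ℂ] K)
    (r : ℕ) (w : Fin r → H) (β : ℝ → ℝ), Continuous β →
    ∑ j, ‖cfc β (ContinuousLinearMap.adjoint B ∘L B)
        ((LinearMap.ker B.toLinearMap)ᗮ.starProjection (w j))‖ₑ ^ 2 =
      ∫⁻ x in Ioi 0, ENNReal.ofReal (β x ^ 2) ∂(specMeasure (ContinuousLinearMap.adjoint B ∘L B) w)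

/-- Approximation of a positive determinant gives asymptotically uniform integrability at zero. -/
def DetStmt : Prop :=
  ∀ (G : Type v) [Group G] (N : ℕ → Subgroup G) [∀ i, (N i).Normal], IsChain N →
    ∀ (r s : ℕ) (A : Matrix (Fin r) (Fin s) (MonoidAlgebra ℚ G)),
      Tendsto (fun i => fkDet (quotMat (N i) A)) atTop (𝓝 (fkDet A)) →
      (∃ c > 0, ∃ T > 0,
        ∫⁻ t in Ioi T, matMeasure (quotMat ⊥ A) (Ioc 0 (c / t)) / ENNReal.ofReal t ≠ ⊤) →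
      ∀ c > 0, ∀ η > 0, ∀ᶠ T in atTop, ∀ᶠ i in atTop,
        ∫⁻ t in Ioi T, matMeasure (quotMat (N i) A) (Ioc 0 (c / √t)) / ENNReal.ofReal t ≤
          ENNReal.ofReal η

/-- From estimates on the heat traces to the convergence of the torsions. -/
def FinStmt : Prop :=
  ∀ (n : ℕ) (ε : ℝ), 0 < ε → ∀ (tr : ℕ → ℝ → ℝ) (b : ℕ → ℝ) (tr' : ℕ → ℕ → ℝ → ℝ)
    (b' : ℕ → ℕ → ℝ) (ρ : ℝ) (ρ' : ℕ → ℝ),
    IsTorsionOf n (fun p t => tr p t - b p) ε ρ →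
    (∀ i, IsTorsionOf n (fun p t => tr' i p t - b' i p) ε (ρ' i)) →
    (∀ p ≤ n, AntitoneOn (tr p) (Ioi 0) ∧ 0 ≤ b p ∧ ∀ t > 0, b p ≤ tr p t) →
    (∀ i, ∀ p ≤ n, AntitoneOn (tr' i p) (Ioi 0) ∧ 0 ≤ b' i p ∧ ∀ t > 0, b' i p ≤ tr' i p t) →
    (∀ p ≤ n, ∃ C : ℝ, ∀ᶠ i in atTop, ∀ t ∈ Ioc (0 : ℝ) 1, |tr' i p t - tr p t| ≤ C * t) →
    (∀ p ≤ n, ∀ t > 0, Tendsto (fun i => tr' i p t) atTop (𝓝 (tr p t))) →
    (∀ p ≤ n, ∀ η > 0, ∀ᶠ T in atTop, ∀ᶠ i in atTop,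
      ∫⁻ t in Ioi T, ENNReal.ofReal ((tr' i p t - b' i p) / t) ≤ ENNReal.ofReal η) →
    Tendsto ρ' atTop (𝓝 ρ)

/-- Weighted energy estimate for the heat flow. -/
def DaviesStmt : Prop :=
  ∀ (H K : Type u) [NormedAddCommGroup H] [InnerProductSpace ℂ H] [CompleteSpace H]
    [NormedAddCommGroup K] [InnerProductSpace ℂ K] [CompleteSpace K]
    (Γ : Submodule ℂ (H × K)), IsClosed (Γ : Set (H × K)) →
    ∀ (W : H →L[ℂ] H) (W' : K →L[ℂ] K) (Y : H →L[ℂ] K) (α : ℝ), IsSelfAdjoint W →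
      IsSelfAdjoint W' → ‖Y‖ ≤ α →
      (∀ u a, (u, a) ∈ Γ → (W (W u), W' (W' a) + W' (Y (W u))) ∈ Γ) →
      ∀ t > 0, ∀ u, ‖W (heat Γ t u)‖ ^ 2 ≤ Real.exp (α ^ 2 * t) * ‖W u‖ ^ 2

/-- Comparison of two heat flows that agree on a large region. -/
def CompareStmt : Prop :=
  ∀ (H₁ K₁ H₂ K₂ : Type u) [NormedAddCommGroup H₁] [InnerProductSpace ℂ H₁] [CompleteSpace H₁]
    [NormedAddCommGroup K₁] [InnerProductSpace ℂ K₁] [CompleteSpace K₁]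
    [NormedAddCommGroup H₂] [InnerProductSpace ℂ H₂] [CompleteSpace H₂]
    [NormedAddCommGroup K₂] [InnerProductSpace ℂ K₂] [CompleteSpace K₂]
    (Γ₁ : Submodule ℂ (H₁ × K₁)) (Γ₂ : Submodule ℂ (H₂ × K₂)),
    IsClosed (Γ₁ : Set (H₁ × K₁)) → IsClosed (Γ₂ : Set (H₂ × K₂)) →
    ∀ (W : H₁ →L[ℂ] H₁) (W' : K₁ →L[ℂ] K₁) (Y : H₁ →L[ℂ] K₁) (α : ℝ), IsSelfAdjoint W →
      IsSelfAdjoint W' → ‖Y‖ ≤ α →
      (∀ u a, (u, a) ∈ Γ₁ → (W (W u), W' (W' a) + W' (Y (W u))) ∈ Γ₁) →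
    ∀ (L : H₂ →L[ℂ] H₁) (L' : K₂ →L[ℂ] K₁) (B : H₂ →L[ℂ] K₁) (B' : H₁ →L[ℂ] K₂) (β : ℝ),
      (∀ v a, (v, a) ∈ Γ₂ → (L v, L' a + B v) ∈ Γ₁) →
      (∀ u a, (u, a) ∈ Γ₁ → (ContinuousLinearMap.adjoint L u,
        ContinuousLinearMap.adjoint L' a + B' u) ∈ Γ₂) →
      (∀ a, ‖ContinuousLinearMap.adjoint B a‖ ≤ β * ‖W' a‖) → (∀ u, ‖B' u‖ ≤ β * ‖W u‖) →
      ∀ t > 0, ∀ u, ‖heat Γ₂ t (ContinuousLinearMap.adjoint L u) -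
          ContinuousLinearMap.adjoint L (heat Γ₁ t u)‖ ^ 2 ≤
        β ^ 2 * Real.exp ((α ^ 2 + 1) * t) * ‖W u‖ ^ 2

end Pool.Agent.MP_d9582c_gt.H34
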