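import Pool.Agent.MP_d9582c_gt.H34.Stmts
import Pool.Agent.MP_d9582c_gt.H34.Hs

/-!
Statements of the abstract comparison results for traces.
-/

open scoped InnerProductSpace ENNReal Topology
open MeasureTheory Set Filter ContinuousLinearMap

noncomputable section

namespace Pool.Agent.MP_d9582c_gt.H34

universe u v

/-- Hodge decomposition for the pair `(d, d*)`. -/
def SplitStmt : Prop :=
  ∀ (H K K' : Type u) [NormedAddCommGroup H] [InnerProductSpace ℂ H] [CompleteSpace H]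
    [NormedAddCommGroup K] [InnerProductSpace ℂ K] [CompleteSpace K]
    [NormedAddCommGroup K'] [InnerProductSpace ℂ K'] [CompleteSpace K']
    (Γ : Submodule ℂ (H × K)) (Γ' : Submodule ℂ (H × K')),
    IsClosed (Γ : Set (H × K)) → IsClosed (Γ' : Set (H × K')) →
    (∀ x, (∀ z, (z, (0 : K)) ∈ Γ → ⟪z, x⟫_ℂ = 0) → (x, (0 : K')) ∈ Γ') →
    (∀ x, (∀ z, (z, (0 : K')) ∈ Γ' → ⟪z, x⟫_ℂ = 0) → (x, (0 : K)) ∈ Γ) ∧
    (∀ x, resolv (pairGraph Γ Γ') ((1 - kerProj Γ) x) =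
      (1 - kerProj Γ) (resolv (pairGraph Γ Γ') x)) ∧
    (∀ x, resolv (pairGraph Γ Γ') ((1 - kerProj Γ') x) =
      (1 - kerProj Γ') (resolv (pairGraph Γ Γ') x)) ∧
    ∀ t > 0, ∀ x, ‖heat (pairGraph Γ Γ') t x‖ ^ 2 = ‖kerProj (pairGraph Γ Γ') x‖ ^ 2 +
      (‖heat (pairGraph Γ Γ') t ((1 - kerProj Γ) x)‖ ^ 2 +
        ‖heat (pairGraph Γ Γ') t ((1 - kerProj Γ') x)‖ ^ 2)

/-- The analytic spectrum near zero is dominated by the combinatorial one. -/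
def ForwardStmt : Prop :=
  ∀ c : ℝ, 1 ≤ c → ∃ C > (0 : ℝ), ∀ (Q : Type v) [Group Q] (H K : Type u) (B : Type v)
    [NormedAddCommGroup H] [InnerProductSpace ℂ H] [CompleteSpace H]
    [NormedAddCommGroup K] [InnerProductSpace ℂ K] [CompleteSpace K]
    [NormedAddCommGroup B] [InnerProductSpace ℂ B] [CompleteSpace B]
    (Γ : Submodule ℂ (H × K)) (U : URep Q H) (ι : Type u) (v : ι → H) (V : URep Q B) (r : ℕ)
    (w : Fin r → B) (A : B →L[ℂ] B) (P : H →L[ℂ] H) (J : H →L[ℂ] B),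
    IsClosed (Γ : Set (H × K)) → IsFrame U v → IsFrame V w → Equi U U (resolv Γ) → Equi V V A →
    Equi U U P → Equi U V J → ‖P‖ ≤ 1 → ‖J‖ ≤ c → (∀ x, P (P x) = P x) →
    (∀ x, resolv Γ (P x) = P (resolv Γ x)) →
    (∀ x k, (x, k) ∈ Γ → P x = x →
      ‖x‖ ≤ c * ‖(LinearMap.ker A.toLinearMap)ᗮ.starProjection (J x)‖ + c * ‖k‖ ∧
        ‖A (J x)‖ ≤ c * ‖k‖) →
    ∀ t ≥ C, hs v (heat Γ (t / 2) ∘L P) ≤
      ENNReal.ofReal C * specMeasure (adjoint A ∘L A) w (Ioc 0 (C / √t)) +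
        ENNReal.ofReal (Real.exp (-√t / C)) * hs v (heat Γ (1 / 2))

/-- The combinatorial spectrum near zero is dominated by the analytic one. -/
def ReverseStmt : Prop :=
  ∀ c : ℝ, 1 ≤ c → ∀ m : ℕ, ∃ C > (0 : ℝ), ∀ (Q : Type v) [Group Q] (H K : ℕ → Type u)
    (B : Type v) [∀ p, NormedAddCommGroup (H p)] [∀ p, InnerProductSpace ℂ (H p)]
    [∀ p, CompleteSpace (H p)] [∀ p, NormedAddCommGroup (K p)] [∀ p, InnerProductSpace ℂ (K p)]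
    [∀ p, CompleteSpace (K p)] [NormedAddCommGroup B] [InnerProductSpace ℂ B] [CompleteSpace B]
    (Γ : ∀ p, Submodule ℂ (H p × K p)) (U : ∀ p, URep Q (H p)) (ι : ℕ → Type u)
    (v : ∀ p, ι p → H p) (V : URep Q B) (r : ℕ) (w : Fin r → B) (A : B →L[ℂ] B)
    (P : ∀ p, H p →L[ℂ] H p) (J : ∀ p, B →L[ℂ] H p), IsFrame V w → Equi V V A →
    (∀ p < m, IsClosed (Γ p : Set (H p × K p)) ∧ IsFrame (U p) (v p) ∧
      Equi (U p) (U p) (resolv (Γ p)) ∧ Equi (U p) (U p) (P p) ∧ Equi V (U p) (J p) ∧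
      ‖J p‖ ≤ c ∧ (∀ x, P p (P p x) = P p x) ∧
      ∀ x, resolv (Γ p) (P p x) = P p (resolv (Γ p) x)) →
    (∀ y ∈ (LinearMap.ker A.toLinearMap)ᗮ,
      ‖y‖ ≤ c * ∑ p ∈ Finset.range m, ‖P p (J p y)‖ + c * ‖A y‖ ∧
        ∀ p < m, ∃ k, (P p (J p y), k) ∈ Γ p ∧ ‖k‖ ≤ c * ‖A y‖) →
    ∀ t ≥ C, specMeasure (adjoint A ∘L A) w (Ioc 0 (C⁻¹ / t)) ≤
      ENNReal.ofReal C * ∑ p ∈ Finset.range m, hs (v p) (heat (Γ p) (t / 2) ∘L P p)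

/-- A polynomial bound for the heat trace from approximate homotopies at small scales. -/
def WeylStmt : Prop :=
  ∀ c : ℝ, 1 ≤ c → ∀ m : ℕ, ∃ C > (0 : ℝ), ∀ (Q : Type v) [Group Q] (H K : Type u)
    [NormedAddCommGroup H] [InnerProductSpace ℂ H] [CompleteSpace H]
    [NormedAddCommGroup K] [InnerProductSpace ℂ K] [CompleteSpace K]
    (Γ : Submodule ℂ (H × K)) (U : URep Q H) (ι : Type u) (v : ι → H),
    IsClosed (Γ : Set (H × K)) → IsFrame U v → Equi U U (resolv Γ) →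
    (∀ δ ∈ Ioc (0 : ℝ) 1, ∃ S : H →L[ℂ] H, Equi U U S ∧ hs v S ≤ ENNReal.ofReal (c / δ ^ m) ∧
      ∀ x k, (x, k) ∈ Γ → ‖x‖ ≤ ‖S x‖ + c * δ * (‖x‖ + ‖k‖)) →
    ∀ t > 0, hs v (heat Γ t) ≤ ENNReal.ofReal (C * (1 + t⁻¹) ^ (m + 1))

/-- The block at `q` of the square of `h`. -/
def block {Q H K : Type*} [Group Q] [NormedAddCommGroup H] [InnerProductSpace ℂ H]
    [CompleteSpace H] [NormedAddCommGroup K] [InnerProductSpace ℂ K] [CompleteSpace K]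
    (U : URep Q H) (Φ : H →L[ℂ] K) (h : H →L[ℂ] H) (q : Q) : K →L[ℂ] K :=
  Φ ∘L (U q⁻¹).toContinuousLinearEquiv.toContinuousLinearMap ∘L h ∘L h ∘L adjoint Φ

/-- Comparison of two traces through their blocks. -/
def CmpStmt : Prop :=
  ∀ (Q₁ Q₂ σ : Type v) [Group Q₁] [Group Q₂] (H₁ H₂ K ι : Type u)
    [NormedAddCommGroup H₁] [InnerProductSpace ℂ H₁] [CompleteSpace H₁]
    [NormedAddCommGroup H₂] [InnerProductSpace ℂ H₂] [CompleteSpace H₂]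
    [NormedAddCommGroup K] [InnerProductSpace ℂ K] [CompleteSpace K]
    (U₁ : URep Q₁ H₁) (U₂ : URep Q₂ H₂) (Φ₁ : H₁ →L[ℂ] K) (Φ₂ : H₂ →L[ℂ] K)
    (e : HilbertBasis ι ℂ K) (h₁ : H₁ →L[ℂ] H₁) (h₂ : H₂ →L[ℂ] H₂) (s : Finset σ)
    (π₁ : σ → Q₁) (π₂ : σ → Q₂) (T ε : ℝ), 0 ≤ T → 0 ≤ ε →
    (∀ x, ∑' q, ‖Φ₁ (U₁ q⁻¹ x)‖ₑ ^ 2 = ‖x‖ₑ ^ 2) → (∀ x, ∑' q, ‖Φ₂ (U₂ q⁻¹ x)‖ₑ ^ 2 = ‖x‖ₑ ^ 2) →
    IsSelfAdjoint h₁ → IsSelfAdjoint h₂ → Equi U₁ U₁ h₁ → Equi U₂ U₂ h₂ → ‖h₁‖ ≤ 1 → ‖h₂‖ ≤ 1 →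
    hs (fun k => adjoint Φ₁ (e k)) h₁ ≤ ENNReal.ofReal T →
    hs (fun k => adjoint Φ₂ (e k)) h₂ ≤ ENNReal.ofReal T →
    InjOn π₁ s → InjOn π₂ s →
    ∑ γ ∈ s, ‖block U₁ Φ₁ h₁ (π₁ γ) - block U₂ Φ₂ h₂ (π₂ γ)‖ ≤ ε →
    ∑' q : ↥(π₁ '' s)ᶜ, ‖block U₁ Φ₁ h₁ q‖ₑ ≤ ENNReal.ofReal ε →
    ∑' q : ↥(π₂ '' s)ᶜ, ‖block U₂ Φ₂ h₂ q‖ₑ ≤ ENNReal.ofReal ε →
    |(hs (fun k => adjoint Φ₁ (e k)) (h₁ ∘L h₁)).toReal -
      (hs (fun k => adjoint Φ₂ (e k)) (h₂ ∘L h₂)).toReal| ≤ 4 * T * ε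

/-- The left regular representation, the formula for right multiplication and its adjoint. -/
def L2Stmt : Prop :=
  (∀ (Q : Type v) [Group Q] (r : ℕ), ∃ V : URep Q (L2r Q r),
    (∀ q u i y, V q u i y = u i (q⁻¹ * y)) ∧ IsFrame V (stdVec Q r) ∧
      ∀ A : Matrix (Fin r) (Fin r) (MonoidAlgebra ℚ Q), Equi V V (rmulMat A)) ∧
  ∀ (G : Type v) [Group G] (r : ℕ) (A : Matrix (Fin r) (Fin r) (MonoidAlgebra ℚ G)),
    (∀ (N : Subgroup G) [N.Normal] (u : L2r (G ⧸ N) r) (j : Fin r) (y : G),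
      rmulMat (quotMat N A) u j (y : G ⧸ N) =
        ∑ i, (A i j).coeff.sum fun x c => (c : ℂ) * u i ((y * x⁻¹ : G) : G ⧸ N)) ∧
    ∃ A' : Matrix (Fin r) (Fin r) (MonoidAlgebra ℚ G), ∀ (N : Subgroup G) [N.Normal],
      rmulMat (quotMat N A') = adjoint (rmulMat (quotMat N A))

end Pool.Agent.MP_d9582c_gt.H34
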