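import Pool.Agent.MP_d9582c_gt.H34.Stmts2
import Pool.Agent.MP_d9582c_gt.H34.Geo

/-!
Abstract Hilbert complexes with a group action and the statements about them.
-/

open scoped InnerProductSpace ENNReal Topology Pointwise Manifold ContDiff
open MeasureTheory Set Filter ContinuousLinearMap

noncomputable section

namespace Pool.Agent.MP_d9582c_gt.H34

universe u v

/-- A complex of closed relations between Hilbert spaces with a unitary action of `Q`. -/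
structure Cx (Q : Type v) [Group Q] where
  H : ℕ → Type u
  [nH : ∀ p, NormedAddCommGroup (H p)]
  [iH : ∀ p, InnerProductSpace ℂ (H p)]
  [cH : ∀ p, CompleteSpace (H p)]
  D : ∀ p, Submodule ℂ (H p × H (p + 1))
  U : ∀ p, URep Q (H p)
  closed : ∀ p, IsClosed (D p : Set (H p × H (p + 1)))
  dd : ∀ p u a, (u, a) ∈ D p → (a, 0) ∈ D (p + 1)
  inv : ∀ p q u a, (u, a) ∈ D p → (U p q u, U (p + 1) q a) ∈ D p

attribute [instance] Cx.nH Cx.iH Cx.cH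

namespace Cx

variable {Q : Type v} [Group Q] (C : Cx.{u} Q)

/-- The graph of the codifferential. -/
def co : (p : ℕ) → Submodule ℂ (C.H p × C.H (p - 1))
  | 0 => Submodule.prod ⊤ ⊥
  | p + 1 => (C.D p).adjoint

/-- The graph of `(d, d*)`. -/
def lap (p : ℕ) := pairGraph (C.D p) (C.co p)

/-- The trace of the heat operator. -/
def trH (p : ℕ) (t : ℝ) : ℝ≥0∞ := vnTrace (fun q => C.U p q) (heat (C.lap p) t)

/-- The Betti number. -/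
def trK (p : ℕ) : ℝ≥0∞ := vnTrace (fun q => C.U p q) (kerProj (C.lap p))

def HasFrame : Prop := ∀ p, ∃ (ι : Type u) (v : ι → C.H p), IsFrame (C.U p) v

/-- `1 - T = d h + h d` in the sense of graphs. -/
def Htp (T : ∀ p, C.H p →L[ℂ] C.H p) (h : ∀ p, C.H (p + 1) →L[ℂ] C.H p) : Prop :=
  (∀ x a, (x, a) ∈ C.D 0 → x = T 0 x + h 0 a) ∧
    ∀ p x a, (x, a) ∈ C.D (p + 1) → (h p x, x - T (p + 1) x - h (p + 1) a) ∈ C.D p

/-- Approximation of the identity, up to a small homotopy, by Hilbert-Schmidt operators. -/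
def Weyl (c : ℝ) (m : ℕ) : Prop :=
  ∀ δ ∈ Ioc (0 : ℝ) 1, ∃ (S T : ∀ p, C.H p →L[ℂ] C.H p) (h : ∀ p, C.H (p + 1) →L[ℂ] C.H p),
    C.Htp (fun p => S p + T p) h ∧ ∀ p, Equi (C.U p) (C.U p) (S p) ∧
      vnTrace (fun q => C.U p q) (adjoint (S p) ∘L S p) ≤ ENNReal.ofReal (c / δ ^ m) ∧
      ‖T p‖ ≤ c * δ ∧ ‖h p‖ ≤ c * δ

/-- A bounded equivariant homotopy equivalence with the complex `(L²(Q)^r, A)`. -/
def Cech {r : ℕ} (A : L2r Q r →L[ℂ] L2r Q r) (n : ℕ) (c : ℝ) : Prop :=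
  ∃ (f : ∀ p, C.H p →L[ℂ] L2r Q r) (g : ∀ p, L2r Q r →L[ℂ] C.H p)
    (h : ∀ p, C.H (p + 1) →L[ℂ] C.H p) (k : L2r Q r →L[ℂ] L2r Q r),
    C.Htp (fun p => g p ∘L f p) h ∧ (∀ y, A (A y) = 0) ∧
    (∀ p x a, (x, a) ∈ C.D p → A (f p x) = f (p + 1) a) ∧
    (∀ p y, (g p y, g (p + 1) (A y)) ∈ C.D p) ∧ (∀ y, g 0 (A y) = 0) ∧
    (∀ y, y = ∑ p ∈ Finset.range (n + 1), f p (g p y) + k (A y) + A (k y)) ∧
    (∀ p, ‖f p‖ ≤ c ∧ ‖g p‖ ≤ c ∧ ‖h p‖ ≤ c) ∧ ‖k‖ ≤ c ∧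
    (∀ p q x i y, f p (C.U p q x) i y = f p x i (q⁻¹ * y)) ∧
    ∀ p q (w w' : L2r Q r), (∀ i y, w' i y = w i (q⁻¹ * y)) → g p w' = C.U p q (g p w)

variable {G : Type v} [Group G] (π : G → Q) (S : Finset G) (K : ℕ → Type u)
  [∀ p, NormedAddCommGroup (K p)] [∀ p, InnerProductSpace ℂ (K p)] [∀ p, CompleteSpace (K p)]

/-- Localization to a fundamental region and exponential weights. -/
structure Loc (c : ℝ) where
  Φ : ∀ p, C.H p →L[ℂ] K p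
  W : ℝ → ℕ → ∀ p, C.H p →L[ℂ] C.H p
  Y : ℝ → ℕ → ∀ p, C.H p →L[ℂ] C.H (p + 1)
  parseval : ∀ p x, ∑' q, ‖Φ p (C.U p q⁻¹ x)‖ₑ ^ 2 = ‖x‖ₑ ^ 2
  sa : ∀ a m p, IsSelfAdjoint (W a m p)
  Y_le : ∀ a ≥ (0 : ℝ), ∀ m p, ‖Y a m p‖ ≤ c * a
  graph : ∀ a m p u b, (u, b) ∈ C.D p → (W a m p (W a m p u),
    W a m (p + 1) (W a m (p + 1) b) + W a m (p + 1) (Y a m p (W a m p u))) ∈ C.D p
  near : ∀ a ≥ (0 : ℝ), ∀ m p k, ‖W a m p (adjoint (Φ p) k)‖ ≤ c * Real.exp a * ‖k‖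
  far : ∀ a ≥ (0 : ℝ), ∀ (m : ℕ) p q u, q ∉ π '' (S : Set G) ^ m →
    ‖Φ p (C.U p q⁻¹ u)‖ ≤ c * Real.exp (a * (1 - m)) * ‖W a m p u‖

variable {C π S K} {Q' : Type v} [Group Q'] {C' : Cx.{u} Q'} {π' : G → Q'} {c : ℝ}

/-- The two complexes agree on the ball of radius `R`. -/
def Transfer (L₁ : C.Loc π S K c) (L₂ : C'.Loc π' S K c) (R : ℕ) : Prop :=
  ∃ (L : ∀ p, C'.H p →L[ℂ] C.H p) (B : ∀ p, C'.H p →L[ℂ] C.H (p + 1))
    (B' : ∀ p, C.H p →L[ℂ] C'.H (p + 1)),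
    (∀ p v a, (v, a) ∈ C'.D p → (L p v, L (p + 1) a + B p v) ∈ C.D p) ∧
    (∀ p u a, (u, a) ∈ C.D p → (adjoint (L p) u, adjoint (L (p + 1)) a + B' p u) ∈ C'.D p) ∧
    (∀ a ≥ (0 : ℝ), ∀ p,
      (∀ u, ‖adjoint (B p) u‖ ≤
        c * S.card ^ R * Real.exp (a * (3 - R)) * ‖L₁.W a R (p + 1) u‖) ∧
      ∀ u, ‖B' p u‖ ≤ c * S.card ^ R * Real.exp (a * (3 - R)) * ‖L₁.W a R p u‖) ∧
    (∀ p v, L₂.Φ p v = L₁.Φ p (L p v)) ∧
    ∀ p, ∀ γ ∈ (S : Set G) ^ (R - 1), ∀ u,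
      L₂.Φ p (C'.U p (π' γ)⁻¹ (adjoint (L p) u)) = L₁.Φ p (C.U p (π γ)⁻¹ u)

end Cx

/-- Elementary properties of the heat trace. -/
def BasicStmt : Prop :=
  ∀ (c : ℝ) (m : ℕ), ∃ c' : ℝ, ∀ (Q : Type v) [Group Q] (C : Cx.{u} Q), C.HasFrame → C.Weyl c m →
    ∀ p, (∀ t > 0, C.trH p t ≤ ENNReal.ofReal (c' * (1 + t⁻¹) ^ (m + 1))) ∧
      AntitoneOn (fun t => (C.trH p t).toReal) (Ioi 0) ∧
      ∀ t > 0, (C.trK p).toReal ≤ (C.trH p t).toReal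

/-- Asymptotically uniform integrability at large times. -/
def TailStmt : Prop :=
  ∀ (G : Type v) [Group G] (N : ℕ → Subgroup G) [∀ i, (N i).Normal], DetApprox G → IsChain N →
    ∀ (r : ℕ) (A : Matrix (Fin r) (Fin r) (MonoidAlgebra ℚ G)) (n : ℕ) (c ε : ℝ)
      (C₀ : Cx.{u} (G ⧸ (⊥ : Subgroup G))) (C : ∀ i, Cx.{u} (G ⧸ N i)), 0 < ε →
      C₀.HasFrame → C₀.Weyl c n → C₀.Cech (rmulMat (quotMat ⊥ A)) n c →
      (∀ i, (C i).HasFrame ∧ (C i).Weyl c n ∧ (C i).Cech (rmulMat (quotMat (N i) A)) n c) →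
      (∀ p ≤ n, IntegrableOn (fun t => ((C₀.trH p t).toReal - (C₀.trK p).toReal) / t) (Ioi ε)) →
      ∀ p, ∀ η > 0, ∀ᶠ T in atTop, ∀ᶠ i in atTop,
        ∫⁻ t in Ioi T, ENNReal.ofReal ((((C i).trH p t).toReal - ((C i).trK p).toReal) / t) ≤
          ENNReal.ofReal η

/-- Heat traces of complexes that agree on large balls are close. -/
def CloseStmt : Prop :=
  ∀ (G : Type v) [Group G] (S : Finset G) (K : ℕ → Type u) [∀ p, NormedAddCommGroup (K p)]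
    [∀ p, InnerProductSpace ℂ (K p)] [∀ p, CompleteSpace (K p)] (c c' : ℝ) (k : ℕ)
    (Q₀ : Type v) [Group Q₀] (Q : ℕ → Type v) [∀ i, Group (Q i)] (C₀ : Cx.{u} Q₀)
    (C : ∀ i, Cx.{u} (Q i)) (π₀ : G → Q₀) (π : ∀ i, G → Q i) (L₀ : C₀.Loc π₀ S K c)
    (L : ∀ i, (C i).Loc (π i) S K c), 1 ∈ S → Function.Injective π₀ →
    (∀ R : ℕ, 3 ≤ R → ∀ᶠ i in atTop, InjOn (π i) ((S : Set G) ^ R) ∧ Cx.Transfer L₀ (L i) R) →
    (∀ p, ∀ t > 0, C₀.trH p t ≤ ENNReal.ofReal (c' * (1 + t⁻¹) ^ k) ∧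
      ∀ i, (C i).trH p t ≤ ENNReal.ofReal (c' * (1 + t⁻¹) ^ k)) →
    ∀ p, (∃ B : ℝ, ∀ᶠ i in atTop, ∀ t ∈ Ioc (0 : ℝ) 1,
        |((C i).trH p t).toReal - (C₀.trH p t).toReal| ≤ B * t) ∧
      ∀ t > 0, Tendsto (fun i => ((C i).trH p t).toReal) atTop (𝓝 (C₀.trH p t).toReal)

/-- Existence of the geometric data. -/
def GeoStmt : Prop :=
  ∀ (n : ℕ) (M : Type u) [TopologicalSpace M] [T2Space M] [SecondCountableTopology M] [Nonempty M]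
    [ChartedSpace (E n) M] [IsManifold 𝓘(ℝ, E n) ∞ M] [MeasurableSpace M] [BorelSpace M]
    (G : Type v) [Group G] [MulAction G M] [ProperlyDiscontinuousSMul G M]
    (g : RMetric n M) (μ : Measure M), IsVolume g μ →
    (∀ γ : G, ContMDiff 𝓘(ℝ, E n) 𝓘(ℝ, E n) ∞ fun x : M => γ • x) →
    (∀ (γ : G) x v w, gx g (γ • x) (tang n (fun x : M => γ • x) x v)
      (tang n (fun x : M => γ • x) x w) = gx g x v w) →
    (∀ (γ : G) (x : M), γ • x = x → γ = 1) →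
    (∃ K : Set M, IsCompact K ∧ ∀ x : M, ∃ γ : G, γ • x ∈ K) →
    Countable G ∧ ∃ X : Geo n G M, X.g = g ∧ X.μ = μ

end Pool.Agent.MP_d9582c_gt.H34
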