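import Pool.Agent.MP_d9582c_gt.H34.Base

/-!
Statements of the geometric constructions.
-/

open scoped Manifold ContDiff Topology ENNReal Pointwise InnerProductSpace
open MeasureTheory Set Filter ContinuousLinearMap

noncomputable section

namespace Pool.Agent.MP_d9582c_gt.H34

universe u v

section
variable {n : ℕ} {M : Type u} [TopologicalSpace M] [ChartedSpace (E n) M]
  {G : Type v} [Group G] [MulAction G M] [IsManifold 𝓘(ℝ, E n) ∞ M] [MeasurableSpace M]
  (X : Geo n G M)

/-- The trivial subgroup with the whole manifold as fundamental domain. -/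
def FD.bot : FD X where
  N := ⊥
  normal := inferInstance
  F := univ
  fd := ⟨nullMeasurableSet_univ, Eventually.of_forall fun _ => ⟨1, mem_univ _⟩,
    Subsingleton.pairwise⟩

/-- The model space for the localization. -/
abbrev Geo.K [BorelSpace M] (p : ℕ) := PiLp 2 fun _ : Fin X.m => (FD.bot X).H p

end

/-- Localization data, transfer between the quotient and the cover, and computation of traces
with smooth forms. -/
def LocStmt : Prop :=
  ∀ (n : ℕ) (M : Type u) [TopologicalSpace M] [ChartedSpace (E n) M] (G : Type v) [Group G]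
    [MulAction G M] [IsManifold 𝓘(ℝ, E n) ∞ M] [MeasurableSpace M] [BorelSpace M] [Countable G]
    (X : Geo n G M), ∃ (c : ℝ) (L : ∀ D : FD X, D.cx.Loc QuotientGroup.mk X.S X.K c),
      (∀ (D : FD X) (R : ℕ), (∀ γ ∈ D.N, γ ∈ (X.S : Set G) ^ (2 * R + 2) → γ = 1) → 3 ≤ R →
        Cx.Transfer (L (FD.bot X)) (L D) R) ∧
      ∀ (D : FD X) (p : ℕ) (S : D.H p →L[ℂ] D.H p) (C : ℝ≥0∞), Equi (D.rep p) (D.rep p) S →
        (∀ (k : ℕ) (w : Fin k → D.P p), IsBessel (D.rep p) (fun j => (w j : D.H p)) 4 →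
          hs (fun j => (w j : D.H p)) S ≤ C) →
        vnTrace (fun q => D.rep p q) (adjoint S ∘L S) ≤ C

/-- The equivalence with the Čech complex. -/
def CechStmt : Prop :=
  ∀ (n : ℕ) (M : Type u) [TopologicalSpace M] [ChartedSpace (E n) M] (G : Type v) [Group G]
    [MulAction G M] [IsManifold 𝓘(ℝ, E n) ∞ M] [MeasurableSpace M] [BorelSpace M] [Countable G]
    (X : Geo n G M), ∃ (r : ℕ) (A : Matrix (Fin r) (Fin r) (MonoidAlgebra ℚ G)) (c : ℝ),
      ∀ D : FD X, D.cx.Cech (rmulMat (quotMat D.N A)) n c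

/-- Smoothing operators at small scales. -/
def SmoothingStmt : Prop :=
  ∀ (n : ℕ) (M : Type u) [TopologicalSpace M] [ChartedSpace (E n) M] (G : Type v) [Group G]
    [MulAction G M] [IsManifold 𝓘(ℝ, E n) ∞ M] [MeasurableSpace M] [BorelSpace M] [Countable G]
    (X : Geo n G M), ∃ c : ℝ, ∀ D : FD X, ∀ δ ∈ Ioc (0 : ℝ) 1,
      ∃ (S T : ∀ p, D.H p →L[ℂ] D.H p) (h : ∀ p, D.H (p + 1) →L[ℂ] D.H p),
        D.cx.Htp (fun p => S p + T p) h ∧ ∀ p, Equi (D.rep p) (D.rep p) (S p) ∧
          (∀ (k : ℕ) (w : Fin k → D.P p), IsBessel (D.rep p) (fun j => (w j : D.H p)) 4 →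
            hs (fun j => (w j : D.H p)) (S p) ≤ ENNReal.ofReal (c / δ ^ n)) ∧
          ‖T p‖ ≤ c * δ ∧ ‖h p‖ ≤ c * δ

end Pool.Agent.MP_d9582c_gt.H34
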